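import Pool.Agent.Y316.Pisot.Mat

/-!
Substitutions with digits: `τ j` is an arrangement of `a j` letters `0` and one letter `j+1`
(`j < m`), `τ m` is an arrangement of `a m` letters `0`.  Windows.
-/

set_option autoImplicit false

namespace Pool.Agent.W3helper16.PJ
open Pool.Agent.H812R2.PI Pool.Agent.Y316.Pisot
open scoped BigOperators

variable {m : ℕ}

/-- `τ` has the digits `a`: the image of the letter `j` consists of `a j` letters `0` and, for
`j < m`, one letter `j+1`, in any order. -/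
def HasDigits (a : ℕ → ℕ) (τ : Fin (m+1) → List (Fin (m+1))) : Prop :=
  ∀ i j : Fin (m+1), inc τ i j = if i = 0 then (a j : ℤ) else if (i : ℕ) = j + 1 then 1 else 0

/-- extension by zero -/
noncomputable def xt (φ : Fin (m+1) → ℝ) (k : ℕ) : ℝ := if h : k < m + 1 then φ ⟨k, h⟩ else 0

theorem xt_lt (φ : Fin (m+1) → ℝ) (k : Fin (m+1)) : xt φ k = φ k := by
  unfold xt; rw [dif_pos k.2]

theorem xt_zero (φ : Fin (m+1) → ℝ) : xt φ 0 = φ 0 := xt_lt φ 0

theorem xt_ge (φ : Fin (m+1) → ℝ) {k : ℕ} (h : m + 1 ≤ k) : xt φ k = 0 := by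
  unfold xt; rw [dif_neg (by omega)]

/-- prepending a term to a sequence -/
def cs (X : ℤ) (Y : ℕ → ℤ) : ℕ → ℤ
  | 0 => X
  | k + 1 => Y k

/-- the vector with the partial sums `X - Y i` -/
def zv (X : ℤ) (Y : ℕ → ℤ) : Fin (m+1) → ℤ := Fin.cons (X - Y 0) (fun i : Fin m => Y i - Y (i + 1))

theorem zv_zero (X : ℤ) (Y : ℕ → ℤ) : (zv X Y : Fin (m+1) → ℤ) 0 = X - Y 0 := rfl

theorem zv_succ (X : ℤ) (Y : ℕ → ℤ) (i : Fin m) :
    (zv X Y : Fin (m+1) → ℤ) i.succ = Y i - Y (i + 1) := rfl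

theorem zv_castSucc (X : ℤ) (Y : ℕ → ℤ) (i : Fin m) :
    (zv X Y : Fin (m+1) → ℤ) i.castSucc = cs X Y i - Y i := by
  obtain ⟨i, hi⟩ := i
  cases i with
  | zero => rfl
  | succ k => rfl

theorem zv_sub (X : ℤ) (Y : ℕ → ℤ) (n : ℤ) :
    (zv X Y : Fin (m+1) → ℤ) - n • ev 0 = zv (X - n) Y := by
  funext i
  refine Fin.cases ?_ (fun i => ?_) i
  · simp [zv_zero, ev]; ring
  · simp [zv_succ, ev]

theorem zv_add (X : ℤ) (Y : ℕ → ℤ) (n : ℤ) :
    (zv X Y : Fin (m+1) → ℤ) + n • ev 0 = zv (X + n) Y := by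
  have := zv_sub (m := m) X Y (-n)
  rw [neg_smul, sub_neg_eq_add, sub_neg_eq_add] at this
  exact this

theorem zv_eq_zero (X : ℤ) (Y : ℕ → ℤ) (h : ∀ i, i ≤ m → Y i = X) :
    (zv X Y : Fin (m+1) → ℤ) = 0 := by
  funext i
  refine Fin.cases ?_ (fun i => ?_) i
  · rw [zv_zero, h 0 (by omega), sub_self]; rfl
  · rw [zv_succ, h i (by omega), h (i+1) (by omega), sub_self]; rfl

/-- every vector is given by a window -/
theorem exists_zv (z : Fin (m+1) → ℤ) : ∃ (X : ℤ) (Y : ℕ → ℤ), z = zv X Y ∧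
    ∀ i, i ≤ m → |X - Y i| ≤ ∑ j, |z j| := by
  obtain ⟨Z, hZ⟩ : ∃ Z : ℕ → ℤ, ∀ i : Fin (m+1), Z i = z i :=
    ⟨fun k => if h : k < m + 1 then z ⟨k, h⟩ else 0, fun i => dif_pos i.2⟩
  refine ⟨0, fun k => - ∑ j ∈ Finset.range (k+1), Z j, ?_, ?_⟩
  · funext i
    refine Fin.cases ?_ (fun i => ?_) i
    · rw [zv_zero]
      have := hZ 0
      simp at this ⊢
      exact this.symm
    · rw [zv_succ, Finset.sum_range_succ _ ((i:ℕ)+1)]
      have := hZ i.succ
      rw [Fin.val_succ] at this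
      rw [← this]
      ring
  · intro i hi
    have h1 : ∑ j, |z j| = ∑ j ∈ Finset.range (m+1), |Z j| := by
      rw [← Fin.sum_univ_eq_sum_range (fun j => |Z j|) (m+1)]
      exact Finset.sum_congr rfl fun j _ => by rw [hZ]
    rw [h1, zero_sub, neg_neg]
    refine (Finset.abs_sum_le_sum_abs _ _).trans ?_
    exact Finset.sum_le_sum_of_subset_of_nonneg (Finset.range_subset_range.2 (by omega))
      fun _ _ _ => abs_nonneg _

theorem HasDigits.mulVec_succ {a : ℕ → ℕ} {τ : Fin (m+1) → List (Fin (m+1))}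
    (h : HasDigits a τ) (z : Fin (m+1) → ℤ) (i : Fin m) :
    (inc τ).mulVec z i.succ = z i.castSucc := by
  simp only [Matrix.mulVec, dotProduct]
  rw [Finset.sum_eq_single i.castSucc]
  · rw [h, if_neg (Fin.succ_ne_zero i), if_pos (by simp)]
    ring
  · intro j _ hj
    rw [h, if_neg (Fin.succ_ne_zero i), if_neg, zero_mul]
    intro hij
    apply hj
    apply Fin.ext
    simp at hij ⊢
    exact hij.symm
  · simp

theorem HasDigits.mulVec_zv {a : ℕ → ℕ} {τ : Fin (m+1) → List (Fin (m+1))}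
    (h : HasDigits a τ) (X : ℤ) (Y : ℕ → ℤ) :
    ∃ X' : ℤ, (inc τ).mulVec (zv X Y) = zv X' (cs X Y) := by
  refine ⟨X + (inc τ).mulVec (zv X Y) 0, ?_⟩
  funext i
  refine Fin.cases ?_ (fun i => ?_) i
  · rw [zv_zero]; simp [cs]
  · rw [h.mulVec_succ, zv_succ, zv_castSucc]
    rfl

theorem HasDigits.xt_pull {a : ℕ → ℕ} {τ : Fin (m+1) → List (Fin (m+1))}
    (h : HasDigits a τ) (φ : Fin (m+1) → ℝ) (j : ℕ) (hj : j ≤ m) :
    xt (pull φ τ) j = a j * φ 0 + xt φ (j + 1) := by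
  have h1 := xt_lt (pull φ τ) ⟨j, by omega⟩
  simp only at h1
  rw [h1]
  simp only [pull, hh]
  have h2 : ∀ i, (ab (τ ⟨j, by omega⟩) i : ℤ) = inc τ i ⟨j, by omega⟩ := fun i => rfl
  rw [Fin.sum_univ_succ]
  rw [h2, h, if_pos rfl]
  simp only
  push_cast
  have h3 : ∑ i : Fin m, φ i.succ * ((ab (τ ⟨j, by omega⟩) i.succ : ℤ) : ℝ) = xt φ (j+1) := by
    by_cases hjm : j < m
    · rw [Finset.sum_eq_single ⟨j, hjm⟩]
      · rw [h2, h, if_neg (Fin.succ_ne_zero _), if_pos (by simp)]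
        have := xt_lt φ (⟨j, hjm⟩ : Fin m).succ
        simp only [Fin.val_succ] at this
        rw [this]
        simp
      · intro i _ hi
        rw [h2, h, if_neg (Fin.succ_ne_zero i), if_neg]
        · simp
        · intro hij
          apply hi
          apply Fin.ext
          simp at hij ⊢
          exact hij
      · simp
    · rw [xt_ge φ (by omega)]
      refine Finset.sum_eq_zero fun i _ => ?_
      rw [h2, h, if_neg (Fin.succ_ne_zero i), if_neg]
      · simp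
      · simp
        have := i.2
        omega
  rw [h3]
  ring

theorem sum_abel (x : ℕ → ℝ) (X : ℝ) (Y : ℕ → ℝ) (n : ℕ) :
    ∑ i ∈ Finset.range (n+1), (x i - x (i+1)) * (X - Y i) =
      x 0 * (X - Y 0) + ∑ i ∈ Finset.range n, x (i+1) * (Y i - Y (i+1)) - x (n+1) * (X - Y n) := by
  induction n with
  | zero => simp; ring
  | succ n ih =>
    rw [Finset.sum_range_succ, ih, Finset.sum_range_succ _ n]
    ring

/-- the height of a vector given by a window -/
theorem hh_zv (φ : Fin (m+1) → ℝ) (X : ℤ) (Y : ℕ → ℤ) :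
    hh φ (zv X Y) = ∑ i ∈ Finset.range (m+1), (xt φ i - xt φ (i+1)) * ((X : ℝ) - Y i) := by
  rw [sum_abel (xt φ) X (fun i => (Y i : ℝ)) m, xt_ge φ (le_refl (m+1))]
  simp only [hh]
  rw [Fin.sum_univ_succ, zv_zero, xt_zero]
  have : ∑ i : Fin m, φ i.succ * (((zv X Y : Fin (m+1) → ℤ) i.succ : ℤ) : ℝ) =
      ∑ i ∈ Finset.range m, xt φ (i+1) * ((Y i : ℝ) - Y (i+1)) := by
    rw [← Fin.sum_univ_eq_sum_range (fun i => xt φ (i+1) * ((Y i : ℝ) - Y (i+1))) m]
    refine Finset.sum_congr rfl fun i _ => ?_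
    rw [zv_succ]
    have h1 := xt_lt φ i.succ
    simp only [Fin.val_succ] at h1
    rw [h1]
    push_cast
    ring
  rw [this]
  push_cast
  ring

end Pool.Agent.W3helper16.PJ
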