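import Pool.Agent.W3helper16.PJ.Win

/-!
Strictly decreasing digits: every window leads to a constant window.
-/

set_option autoImplicit false

namespace Pool.Agent.W3helper16.PJ
open Pool.Agent.H812R2.PI Pool.Agent.Y316.Pisot
open scoped BigOperators

variable {m : ℕ}

/-- strictly decreasing digits with last digit one -/
structure Dec (m : ℕ) (a : ℕ → ℕ) : Prop where
  dec : ∀ j, j < m → a (j+1) < a j
  last : a m = 1
  big : 4 ≤ a 0

/-- strictly decreasing functionals -/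
def C1 (φ : Fin (m+1) → ℝ) : Prop := ∀ k, k ≤ m → xt φ (k+1) < xt φ k

theorem C1.pos_of {φ : Fin (m+1) → ℝ} (h : C1 φ) (n : ℕ) : ∀ k, k + n = m → 0 < xt φ k := by
  induction n with
  | zero =>
    intro k hk
    have := h k (by omega)
    rw [xt_ge φ (by omega)] at this
    exact this
  | succ n ih =>
    intro k hk
    exact (ih (k+1) (by omega)).trans (h k (by omega))

theorem C1.pos {φ : Fin (m+1) → ℝ} (h : C1 φ) (k : ℕ) (hk : k ≤ m) : 0 < xt φ k :=
  h.pos_of (m - k) k (by omega)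

theorem C1.pos' {φ : Fin (m+1) → ℝ} (h : C1 φ) (i : Fin (m+1)) : 0 < φ i := by
  rw [← xt_lt φ i]
  exact h.pos i (by have := i.2; omega)

/-- the weights of the functional pulled back -/
theorem w_ge {a : ℕ → ℕ} (ha : Dec m a) {τ : Fin (m+1) → List (Fin (m+1))}
    (h : HasDigits a τ) {φ : Fin (m+1) → ℝ} (hφ : ∀ k, k ≤ m → xt φ (k+1) ≤ xt φ k)
    (h0 : 0 < φ 0) (i : ℕ) (hi : i ≤ m) :
    φ 0 ≤ xt (pull φ τ) i - xt (pull φ τ) (i+1) := by
  rw [h.xt_pull φ i hi]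
  by_cases him : i = m
  · rw [him, ha.last, xt_ge _ (le_refl (m+1)), xt_ge _ (le_refl (m+1))]
    simp
  · have h1 := hφ (i+1) (by omega)
    rw [h.xt_pull φ (i+1) (by omega)]
    have h2 := ha.dec i (by omega)
    have h3 : (a (i+1) : ℝ) + 1 ≤ a i := by exact_mod_cast h2
    nlinarith

theorem C1.pull {a : ℕ → ℕ} (ha : Dec m a) {τ : Fin (m+1) → List (Fin (m+1))}
    (h : HasDigits a τ) {φ : Fin (m+1) → ℝ} (hφ : C1 φ) : C1 (pull φ τ) := by
  intro k hk
  have h1 := w_ge ha h (fun k hk => (hφ k hk).le) (hφ.pos' 0) k hk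
  have h2 := hφ.pos' 0
  linarith

theorem C1.pull_list {φ : Fin (m+1) → ℝ} (hφ : C1 φ)
    (l : List (Fin (m+1) → List (Fin (m+1))))
    (hl : ∀ τ ∈ l, ∃ a, Dec m a ∧ HasDigits a τ) :
    C1 (Pool.Agent.Y316.Pisot.pull φ (compList l)) := by
  induction l generalizing φ with
  | nil =>
    have : Pool.Agent.Y316.Pisot.pull φ (compList []) = φ := by
      funext j
      simp [Pool.Agent.Y316.Pisot.pull, compList, ab_single, hh_ev]
    rw [this]
    exact hφ
  | cons τ l ih =>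
    simp only [compList]
    rw [pull_comp]
    obtain ⟨a, ha, h⟩ := hl τ (List.mem_cons_self ..)
    exact ih (hφ.pull ha h) fun τ' h => hl τ' (List.mem_cons_of_mem _ h)

theorem sum_w (φ : Fin (m+1) → ℝ) :
    ∑ i ∈ Finset.range (m+1), (xt φ i - xt φ (i+1)) = φ 0 := by
  rw [Finset.sum_range_sub', xt_ge φ (le_refl (m+1)), xt_zero, sub_zero]

section one
variable {a : ℕ → ℕ} {τ : Fin (m+1) → List (Fin (m+1))} {φ : Fin (m+1) → ℝ}

/-- comparison of heights -/
theorem hh_cmp (φ : Fin (m+1) → ℝ) {c : ℝ}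
    (hw : ∀ i, i ≤ m → c ≤ xt φ i - xt φ (i+1)) (X : ℤ) (Y Z : ℕ → ℤ)
    (h : ∀ i, i ≤ m → Z i ≤ X - Y i) (hc : 0 ≤ c) (hZ : ∀ i, i ≤ m → 0 ≤ Z i) :
    c * ((∑ i ∈ Finset.range (m+1), Z i : ℤ) : ℝ) ≤ hh φ (zv X Y) := by
  rw [hh_zv]
  push_cast
  rw [Finset.mul_sum]
  refine Finset.sum_le_sum fun i hi => ?_
  have hi' : i ≤ m := by have := Finset.mem_range.1 hi; omega
  have h1 := hw i hi'
  have h2 : ((Z i : ℤ) : ℝ) ≤ X - Y i := by exact_mod_cast h i hi'
  have h3 : (0 : ℝ) ≤ Z i := by exact_mod_cast hZ i hi'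
  exact mul_le_mul h1 h2 h3 (hc.trans h1)

theorem hh_cmp' (φ : Fin (m+1) → ℝ) {c : ℝ}
    (hw : ∀ i, i ≤ m → c ≤ xt φ i - xt φ (i+1)) (X : ℤ) (Y Z : ℕ → ℤ)
    (h : ∀ i, i ≤ m → Z i ≤ Y i - X) (hc : 0 ≤ c) (hZ : ∀ i, i ≤ m → 0 ≤ Z i) :
    hh φ (zv X Y) ≤ - (c * ((∑ i ∈ Finset.range (m+1), Z i : ℤ) : ℝ)) := by
  rw [hh_zv]
  push_cast
  rw [Finset.mul_sum, ← Finset.sum_neg_distrib]
  refine Finset.sum_le_sum fun i hi => ?_
  have hi' : i ≤ m := by have := Finset.mem_range.1 hi; omega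
  have h1 := hw i hi'
  have h2 : ((Z i : ℤ) : ℝ) ≤ Y i - X := by exact_mod_cast h i hi'
  have h3 : (0 : ℝ) ≤ Z i := by exact_mod_cast hZ i hi'
  have h4 := mul_le_mul h1 h2 h3 (hc.trans h1)
  linarith

theorem X_le {U : ℤ} (hw : ∀ i, i ≤ m → 0 ≤ xt φ i - xt φ (i+1)) {X : ℤ} {Y : ℕ → ℤ}
    (hS : St φ X Y) (hU : ∀ i, i ≤ m → Y i ≤ U) : X ≤ U := by
  by_contra hc
  push Not at hc
  have h1 := hS.2
  have h2 : (zv X Y : Fin (m+1) → ℤ) = zv (X - 1) Y + (1 : ℤ) • ev 0 := by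
    rw [zv_add]; congr 1; ring
  rw [h2, hh_add, hh_smul_ev] at h1
  have h3 := hh_cmp φ (c := 0) hw (X - 1) Y (fun _ => 0) (fun i hi => by
    have := hU i hi
    omega) le_rfl (fun _ _ => le_rfl)
  push_cast at h1
  linarith

theorem X_ge {L : ℤ} {c : ℝ} (hc : 0 < c) (hw : ∀ i, i ≤ m → c ≤ xt φ i - xt φ (i+1)) {X : ℤ}
    {Y : ℕ → ℤ} (hS : St φ X Y) (hL : ∀ i, i ≤ m → L ≤ Y i) : L ≤ X := by
  by_contra hcon
  push Not at hcon
  have h1 := hS.1
  have h3 := hh_cmp' φ hw X Y (fun _ => 1) (fun i hi => by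
    have := hL i hi
    omega) hc.le (fun _ _ => by norm_num)
  have h4 : (0 : ℝ) < ((∑ i ∈ Finset.range (m+1), (1 : ℤ) : ℤ) : ℝ) := by
    simp
    positivity
  nlinarith [mul_pos hc h4]

/-- the next value is larger than `L` -/
theorem up1 (hm : 1 ≤ m) (ha : Dec m a) (h : HasDigits a τ) (hφ : C1 φ) {L U X : ℤ} {Y : ℕ → ℤ}
    (hS : St (pull φ τ) X Y) (hL : ∀ i, i ≤ m → L ≤ Y i) (hU : ∀ i, i ≤ m → Y i ≤ U)
    (hs : 2 ≤ ∑ i ∈ Finset.range (m+1), (Y i - L)) :
    ∃ N N' : ℤ, L + 1 ≤ N ∧ N ≤ U ∧ St φ N' (cs N Y) ∧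
      ∀ l, Hl l N' (cs N Y) → Hl (l ++ [τ]) X Y := by
  have h0 := hφ.pos' 0
  have hw : ∀ i, i ≤ m → φ 0 ≤ xt (pull φ τ) i - xt (pull φ τ) (i+1) := fun i hi =>
    w_ge ha h (fun k hk => (hφ k hk).le) h0 i hi
  have hXU := X_le (fun i hi => h0.le.trans (hw i hi)) hS hU
  have hp := h.xt_pull φ 0 (Nat.zero_le m)
  rw [xt_zero, zero_add] at hp
  have h1 : xt φ 1 < φ 0 := by
    have := hφ 0 (by omega)
    rwa [xt_zero, zero_add] at this
  have hsr : (2 : ℝ) ≤ ((∑ i ∈ Finset.range (m+1), (Y i - L) : ℤ) : ℝ) := by exact_mod_cast hs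
  have hA : (4 : ℝ) ≤ a 0 := by exact_mod_cast ha.big
  by_cases hu : hh (pull φ τ) (zv X Y) < ((a 0 : ℝ) - 1) * φ 0
  · obtain ⟨N', h2, h3⟩ := step_ceil hm h h0 X Y hS.1 hu
    refine ⟨X, N', ?_, hXU, h2, h3⟩
    by_contra hc
    push Not at hc
    have h4 := hh_cmp' (pull φ τ) hw X Y (fun i => Y i - L) (fun i hi => by omega) h0.le
      (fun i hi => by have := hL i hi; omega)
    have h5 := hS.1
    nlinarith
  · push Not at hu
    have h5 : pull φ τ 0 - hh (pull φ τ) (zv X Y) ≤ φ 0 + xt φ 1 := by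
      rw [hp]; linarith
    obtain ⟨N', h2, h3⟩ := step_floor hm h h0 X Y hS.2 (by nlinarith)
    refine ⟨X - 1, N', ?_, by omega, h2, h3⟩
    by_contra hc
    push Not at hc
    have h4 := hh_cmp' (pull φ τ) hw (X - 1) Y (fun i => Y i - L) (fun i hi => by omega) h0.le
      (fun i hi => by have := hL i hi; omega)
    rw [← zv_sub_one, hh_sub, hh_ev] at h4
    nlinarith

/-- the next value is smaller than `U` -/
theorem down1 (hm : 1 ≤ m) (ha : Dec m a) (h : HasDigits a τ) (hφ : C1 φ) {L U X : ℤ} {Y : ℕ → ℤ}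
    (hS : St (pull φ τ) X Y) (hL : ∀ i, i ≤ m → L ≤ Y i) (hU : ∀ i, i ≤ m → Y i ≤ U)
    (hs : 2 ≤ ∑ i ∈ Finset.range (m+1), (U - Y i)) :
    ∃ N N' : ℤ, L ≤ N ∧ N ≤ U - 1 ∧ St φ N' (cs N Y) ∧
      ∀ l, Hl l N' (cs N Y) → Hl (l ++ [τ]) X Y := by
  have h0 := hφ.pos' 0
  have hw : ∀ i, i ≤ m → φ 0 ≤ xt (pull φ τ) i - xt (pull φ τ) (i+1) := fun i hi =>
    w_ge ha h (fun k hk => (hφ k hk).le) h0 i hi
  have hXU := X_le (fun i hi => h0.le.trans (hw i hi)) hS hU
  have hXL := X_ge h0 hw hS hL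
  have hp := h.xt_pull φ 0 (Nat.zero_le m)
  rw [xt_zero, zero_add] at hp
  have h1 : xt φ 1 < φ 0 := by
    have := hφ 0 (by omega)
    rwa [xt_zero, zero_add] at this
  have h1' : 0 < xt φ 1 := hφ.pos 1 hm
  have hsr : (2 : ℝ) ≤ ((∑ i ∈ Finset.range (m+1), (U - Y i) : ℤ) : ℝ) := by exact_mod_cast hs
  have hA : (4 : ℝ) ≤ a 0 := by exact_mod_cast ha.big
  by_cases hd : pull φ τ 0 - hh (pull φ τ) (zv X Y) ≤ ((a 0 : ℝ) - 1) * φ 0
  · obtain ⟨N', h2, h3⟩ := step_floor hm h h0 X Y hS.2 hd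
    refine ⟨X - 1, N', ?_, by omega, h2, h3⟩
    by_contra hc
    push Not at hc
    have h4 := hh_cmp' (pull φ τ) hw X Y (fun i => 0) (fun i hi => by
      have := hL i hi
      omega) h0.le (fun _ _ => le_rfl)
    simp only [Finset.sum_const_zero, Int.cast_zero, mul_zero, neg_zero] at h4
    rw [hp] at hd
    linarith
  · push Not at hd
    rw [hp] at hd
    have h5 : hh (pull φ τ) (zv X Y) < φ 0 + xt φ 1 := by linarith
    obtain ⟨N', h2, h3⟩ := step_ceil hm h h0 X Y hS.1 (by nlinarith)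
    refine ⟨X, N', hXL, ?_, h2, h3⟩
    by_contra hc
    push Not at hc
    have h4 := hh_cmp (pull φ τ) hw X Y (fun i => U - Y i) (fun i hi => by omega) h0.le
      (fun i hi => by have := hU i hi; omega)
    nlinarith

end one

theorem sum_cs (f : ℤ → ℤ) (N : ℤ) (Y : ℕ → ℤ) :
    ∑ i ∈ Finset.range (m+1), f (cs N Y i) = f N + ∑ i ∈ Finset.range m, f (Y i) := by
  rw [Finset.sum_range_succ', add_comm]
  rfl

theorem cs_all {P : ℤ → Prop} {N : ℤ} {Y : ℕ → ℤ} (hN : P N) (hY : ∀ i, i ≤ m → P (Y i)) :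
    ∀ i, i ≤ m → P (cs N Y i) := by
  intro i hi
  cases i with
  | zero => exact hN
  | succ k => exact hY k (by omega)

section lists
variable {φ : Fin (m+1) → ℝ}

theorem exists_concat {α : Type*} (l : List α) (n : ℕ) (h : n + 1 ≤ l.length) :
    ∃ l' x, l = l' ++ [x] ∧ n ≤ l'.length := by
  rcases List.eq_nil_or_concat l with h1 | ⟨l', x, h1⟩
  · rw [h1] at h; simp at h
  · refine ⟨l', x, by simpa using h1, ?_⟩
    rw [h1] at h
    simpa using h

theorem ones (hm : 1 ≤ m) (hφ : C1 φ) (L : ℤ) (j : ℕ) :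
    ∀ (l : List (Fin (m+1) → List (Fin (m+1)))) (X : ℤ) (Y : ℕ → ℤ),
      (∀ τ ∈ l, ∃ a, Dec m a ∧ HasDigits a τ) → j ≤ l.length →
      St (pull φ (compList l)) X Y → (∀ i, i ≤ m → L ≤ Y i) → (∀ i, i ≤ m → Y i ≤ L + 1) →
      2 ≤ ∑ i ∈ Finset.range (m+1), (Y i - L) → (∀ i, i + j ≤ m → Y i = L + 1) → Hl l X Y := by
  induction j with
  | zero =>
    intro l X Y hl _ hS _ _ _ hY
    refine hl_const l (fun τ hτ => ?_) X (L + 1) Y hS (fun i hi => hY i (by omega))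
      ((hφ.pull_list l hl).pos' 0)
    obtain ⟨a, ha, h⟩ := hl τ hτ
    exact zero_mem_image h 0 (by have := ha.big; simpa using by omega)
  | succ j ih =>
    intro l X Y hl hlen hS hL hU hs hY
    obtain ⟨l', τ, rfl, hlen'⟩ := exists_concat l j hlen
    obtain ⟨a, ha, h⟩ := hl τ (by simp)
    have hl' : ∀ τ ∈ l', ∃ a, Dec m a ∧ HasDigits a τ := fun τ' h' => hl τ' (by simp [h'])
    rw [compList_concat, pull_comp] at hS
    obtain ⟨N, N', hN1, hN2, hS', htr⟩ := up1 hm ha h (hφ.pull_list l' hl') hS hL hU hs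
    have hN : N = L + 1 := by omega
    refine htr l' (ih l' N' (cs N Y) hl' hlen' hS' ?_ ?_ ?_ ?_)
    · exact cs_all (P := fun x => L ≤ x) (by omega) hL
    · exact cs_all (P := fun x => x ≤ L + 1) (by omega) hU
    · rw [sum_cs (fun x => x - L)]
      rw [Finset.sum_range_succ] at hs
      have h2 := hU m le_rfl
      omega
    · intro i hi
      cases i with
      | zero => exact hN
      | succ k => exact hY k (by omega)

theorem zers (hm : 1 ≤ m) (hφ : C1 φ) (L : ℤ) (j : ℕ) :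
    ∀ (l : List (Fin (m+1) → List (Fin (m+1)))) (X : ℤ) (Y : ℕ → ℤ),
      (∀ τ ∈ l, ∃ a, Dec m a ∧ HasDigits a τ) → j ≤ l.length →
      St (pull φ (compList l)) X Y → (∀ i, i ≤ m → L ≤ Y i) → (∀ i, i ≤ m → Y i ≤ L + 1) →
      2 ≤ ∑ i ∈ Finset.range (m+1), (L + 1 - Y i) → (∀ i, i + j ≤ m → Y i = L) → Hl l X Y := by
  induction j with
  | zero =>
    intro l X Y hl _ hS _ _ _ hY
    refine hl_const l (fun τ hτ => ?_) X L Y hS (fun i hi => hY i (by omega))
      ((hφ.pull_list l hl).pos' 0)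
    obtain ⟨a, ha, h⟩ := hl τ hτ
    exact zero_mem_image h 0 (by have := ha.big; simpa using by omega)
  | succ j ih =>
    intro l X Y hl hlen hS hL hU hs hY
    obtain ⟨l', τ, rfl, hlen'⟩ := exists_concat l j hlen
    obtain ⟨a, ha, h⟩ := hl τ (by simp)
    have hl' : ∀ τ ∈ l', ∃ a, Dec m a ∧ HasDigits a τ := fun τ' h' => hl τ' (by simp [h'])
    rw [compList_concat, pull_comp] at hS
    obtain ⟨N, N', hN1, hN2, hS', htr⟩ := down1 hm ha h (hφ.pull_list l' hl') hS hL hU hs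
    have hN : N = L := by omega
    refine htr l' (ih l' N' (cs N Y) hl' hlen' hS' ?_ ?_ ?_ ?_)
    · exact cs_all (P := fun x => L ≤ x) (by omega) hL
    · exact cs_all (P := fun x => x ≤ L + 1) (by omega) hU
    · rw [sum_cs (fun x => L + 1 - x)]
      rw [Finset.sum_range_succ] at hs
      have h2 := hL m le_rfl
      omega
    · intro i hi
      cases i with
      | zero => exact hN
      | succ k => exact hY k (by omega)

theorem two (hm : 2 ≤ m) (hφ : C1 φ) (L : ℤ)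
    (l : List (Fin (m+1) → List (Fin (m+1)))) (X : ℤ) (Y : ℕ → ℤ)
    (hl : ∀ τ ∈ l, ∃ a, Dec m a ∧ HasDigits a τ) (hlen : m + 1 ≤ l.length)
    (hS : St (pull φ (compList l)) X Y) (hL : ∀ i, i ≤ m → L ≤ Y i)
    (hU : ∀ i, i ≤ m → Y i ≤ L + 1) : Hl l X Y := by
  by_cases h : 2 ≤ ∑ i ∈ Finset.range (m+1), (Y i - L)
  · exact ones (by omega) hφ L (m+1) l X Y hl hlen hS hL hU h (fun i hi => by omega)
  · refine zers (by omega) hφ L (m+1) l X Y hl hlen hS hL hU ?_ (fun i hi => by omega)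
    have h1 : ∑ i ∈ Finset.range (m+1), (L + 1 - Y i) =
        (m + 1) - ∑ i ∈ Finset.range (m+1), (Y i - L) := by
      have h2 : ∑ i ∈ Finset.range (m+1), (L + 1 - Y i) + ∑ i ∈ Finset.range (m+1), (Y i - L) =
          ∑ i ∈ Finset.range (m+1), (1 : ℤ) := by
        rw [← Finset.sum_add_distrib]
        exact Finset.sum_congr rfl fun i _ => by ring
      have h3 : ∑ i ∈ Finset.range (m+1), (1 : ℤ) = m + 1 := by simp
      linarith
    rw [h1]
    omega

theorem chain1 (hm : 2 ≤ m) (hφ : C1 φ) (D : ℕ) :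
    ∀ (L : ℤ) (l : List (Fin (m+1) → List (Fin (m+1)))) (X : ℤ) (Y : ℕ → ℤ),
      (∀ τ ∈ l, ∃ a, Dec m a ∧ HasDigits a τ) → (m + 1) * (D + 1) ≤ l.length →
      St (pull φ (compList l)) X Y → (∀ i, i ≤ m → L ≤ Y i) →
      (∀ i, i ≤ m → Y i ≤ L + D + 1) → Hl l X Y := by
  induction D with
  | zero =>
    intro L l X Y hl hlen hS hL hU
    exact two hm hφ L l X Y hl (by omega) hS hL (fun i hi => by
      have := hU i hi
      push_cast at this
      omega)
  | succ D ih =>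
    intro L
    have key : ∀ j : ℕ, ∀ (l : List (Fin (m+1) → List (Fin (m+1)))) (X : ℤ) (Y : ℕ → ℤ),
        (∀ τ ∈ l, ∃ a, Dec m a ∧ HasDigits a τ) → (m + 1) * (D + 1) + j ≤ l.length →
        St (pull φ (compList l)) X Y → (∀ i, i ≤ m → L ≤ Y i) →
        (∀ i, i ≤ m → Y i ≤ L + (D + 1 : ℕ) + 1) → (∀ i, i + j ≤ m → L + 1 ≤ Y i) → Hl l X Y := by
      intro j
      induction j with
      | zero =>
        intro l X Y hl hlen hS _ hU hY
        refine ih (L + 1) l X Y hl hlen hS (fun i hi => hY i (by omega)) (fun i hi => ?_)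
        have := hU i hi
        push_cast at this
        linarith
      | succ j ihj =>
        intro l X Y hl hlen hS hL hU hY
        by_cases hs : 2 ≤ ∑ i ∈ Finset.range (m+1), (Y i - L)
        · obtain ⟨l', τ, rfl, hlen'⟩ := exists_concat l ((m + 1) * (D + 1) + j) hlen
          obtain ⟨a, ha, h⟩ := hl τ (by simp)
          have hl' : ∀ τ ∈ l', ∃ a, Dec m a ∧ HasDigits a τ := fun τ' h' => hl τ' (by simp [h'])
          rw [compList_concat, pull_comp] at hS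
          obtain ⟨N, N', hN1, hN2, hS', htr⟩ :=
            up1 (by omega) ha h (hφ.pull_list l' hl') hS hL hU hs
          refine htr l' (ihj l' N' (cs N Y) hl' hlen' hS' ?_ ?_ ?_)
          · exact cs_all (P := fun x => L ≤ x) (by omega) hL
          · exact cs_all (P := fun x => x ≤ L + (D + 1 : ℕ) + 1) hN2 hU
          · intro i hi
            cases i with
            | zero => exact hN1
            | succ k => exact hY k (by omega)
        · refine two hm hφ L l X Y hl ?_ hS hL (fun i hi => ?_)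
          · have : (m + 1) * 1 ≤ (m + 1) * (D + 1) := Nat.mul_le_mul_left _ (by omega)
            omega
          · have h1 : Y i - L ≤ ∑ i ∈ Finset.range (m+1), (Y i - L) :=
              Finset.single_le_sum (f := fun i => Y i - L) (fun k hk => by
                have := hL k (by have := Finset.mem_range.1 hk; omega)
                omega) (Finset.mem_range.2 (by omega))
            omega
    intro l X Y hl hlen hS hL hU
    refine key (m+1) l X Y hl ?_ hS hL hU (fun i hi => by omega)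
    calc (m + 1) * (D + 1) + (m + 1) = (m + 1) * (D + 1 + 1) := by ring
      _ ≤ l.length := hlen

end lists

end Pool.Agent.W3helper16.PJ
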