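import Pool.Agent.W3helper16.PJ.Chain1

/-!
Decreasing digits: every window leads to a constant window.
-/

set_option autoImplicit false

namespace Pool.Agent.W3helper16.PJ
open Pool.Agent.H812R2.PI Pool.Agent.Y316.Pisot
open scoped BigOperators

variable {m : ℕ}

/-- decreasing digits with last digit one -/
structure JPd (m : ℕ) (a : ℕ → ℕ) : Prop where
  mono : ∀ j, j < m → a (j+1) ≤ a j
  last : a m = 1
  big : 4 ≤ a 0
  gap : a 1 + 2 ≤ a 0 ∨ ∀ j, j < m → a (j+1) < a j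

theorem JPd.one_le {a : ℕ → ℕ} (ha : JPd m a) (n : ℕ) : ∀ j, j + n = m → 1 ≤ a j := by
  induction n with
  | zero =>
    intro j hj
    have : j = m := by omega
    rw [this, ha.last]
  | succ n ih =>
    intro j hj
    have h1 := ih (j+1) (by omega)
    have h2 := ha.mono j (by omega)
    omega

/-- the weights of the functional pulled back -/
theorem w_eq {a : ℕ → ℕ} (ha : JPd m a) {τ : Fin (m+1) → List (Fin (m+1))}
    (h : HasDigits a τ) (φ : Fin (m+1) → ℝ) (i : ℕ) (hi : i ≤ m) :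
    xt (pull φ τ) i - xt (pull φ τ) (i+1) = if i = m then φ 0 else
      ((a i : ℝ) - a (i+1)) * φ 0 + (xt φ (i+1) - xt φ (i+2)) := by
  rw [h.xt_pull φ i hi]
  by_cases him : i = m
  · rw [if_pos him, him, ha.last, xt_ge _ (le_refl (m+1)), xt_ge _ (le_refl (m+1))]
    simp
  · rw [if_neg him, h.xt_pull φ (i+1) (by omega)]
    ring

theorem w_nonneg {a : ℕ → ℕ} (ha : JPd m a) {τ : Fin (m+1) → List (Fin (m+1))}
    (h : HasDigits a τ) {φ : Fin (m+1) → ℝ} (hφ : C1 φ) (i : ℕ) (hi : i ≤ m) :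
    0 < xt (pull φ τ) i - xt (pull φ τ) (i+1) := by
  rw [w_eq ha h φ i hi]
  have h0 := hφ.pos' 0
  by_cases him : i = m
  · rw [if_pos him]; exact h0
  · rw [if_neg him]
    have h1 := hφ (i+1) (by omega)
    have h2 : (a (i+1) : ℝ) ≤ a i := by exact_mod_cast ha.mono i (by omega)
    have h3 : 0 ≤ ((a i : ℝ) - a (i+1)) * φ 0 := mul_nonneg (by linarith) h0.le
    linarith

theorem C1.pull3 {a : ℕ → ℕ} (ha : JPd m a) {τ : Fin (m+1) → List (Fin (m+1))}
    (h : HasDigits a τ) {φ : Fin (m+1) → ℝ} (hφ : C1 φ) :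
    C1 (Pool.Agent.Y316.Pisot.pull φ τ) := by
  intro k hk
  have h1 := w_nonneg ha h hφ k hk
  linarith

theorem C1.pull3_list {φ : Fin (m+1) → ℝ} (hφ : C1 φ)
    (l : List (Fin (m+1) → List (Fin (m+1))))
    (hl : ∀ τ ∈ l, ∃ a, JPd m a ∧ HasDigits a τ) :
    C1 (Pool.Agent.Y316.Pisot.pull φ (compList l)) := by
  induction l generalizing φ with
  | nil =>
    have : Pool.Agent.Y316.Pisot.pull φ (compList []) = φ := by
      funext j
      simp [Pool.Agent.Y316.Pisot.pull, compList, ab_single, hh_ev]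
    rw [this]
    exact hφ
  | cons τ l ih =>
    simp only [compList]
    rw [pull_comp]
    obtain ⟨a, ha, h⟩ := hl τ (List.mem_cons_self ..)
    exact ih (hφ.pull3 ha h) fun τ' h => hl τ' (List.mem_cons_of_mem _ h)

/-- a single term of the height -/
theorem hh_one (φ : Fin (m+1) → ℝ) (hw : ∀ i, i ≤ m → 0 ≤ xt φ i - xt φ (i+1)) (X : ℤ)
    (Y : ℕ → ℤ) (h : ∀ i, i ≤ m → Y i ≤ X) (h0 : Y 0 + 1 ≤ X) :
    φ 0 - xt φ 1 ≤ hh φ (zv X Y) := by
  rw [hh_zv, Finset.sum_range_succ', xt_zero, zero_add]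
  have h1 : 0 ≤ ∑ k ∈ Finset.range m, (xt φ (k+1) - xt φ (k+1+1)) * ((X : ℝ) - Y (k+1)) := by
    refine Finset.sum_nonneg fun k hk => ?_
    have hk' := Finset.mem_range.1 hk
    refine mul_nonneg (hw (k+1) (by omega)) ?_
    have h2 : ((Y (k+1) : ℤ) : ℝ) ≤ X := by exact_mod_cast h (k+1) (by omega)
    linarith
  have h2 : (1 : ℝ) ≤ (X : ℝ) - Y 0 := by
    have : ((Y 0 + 1 : ℤ) : ℝ) ≤ X := by exact_mod_cast h0
    push_cast at this
    linarith
  have h3 := hw 0 (by omega)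
  rw [xt_zero, zero_add] at h3
  nlinarith

theorem hh_one' (φ : Fin (m+1) → ℝ) (hw : ∀ i, i ≤ m → 0 ≤ xt φ i - xt φ (i+1)) (X : ℤ)
    (Y : ℕ → ℤ) (h : ∀ i, i ≤ m → X ≤ Y i) (h0 : X + 1 ≤ Y 0) :
    hh φ (zv X Y) ≤ -(φ 0 - xt φ 1) := by
  rw [hh_zv, Finset.sum_range_succ', xt_zero, zero_add]
  have h1 : ∑ k ∈ Finset.range m, (xt φ (k+1) - xt φ (k+1+1)) * ((X : ℝ) - Y (k+1)) ≤ 0 := by
    refine Finset.sum_nonpos fun k hk => ?_
    have hk' := Finset.mem_range.1 hk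
    refine mul_nonpos_of_nonneg_of_nonpos (hw (k+1) (by omega)) ?_
    have h2 : (X : ℝ) ≤ ((Y (k+1) : ℤ) : ℝ) := by exact_mod_cast h (k+1) (by omega)
    linarith
  have h2 : (X : ℝ) - Y 0 ≤ -1 := by
    have : ((X + 1 : ℤ) : ℝ) ≤ Y 0 := by exact_mod_cast h0
    push_cast at this
    linarith
  have h3 := hw 0 (by omega)
  rw [xt_zero, zero_add] at h3
  nlinarith

section one
variable {a : ℕ → ℕ} {τ : Fin (m+1) → List (Fin (m+1))} {φ : Fin (m+1) → ℝ}

theorem gap_w (hm : 2 ≤ m) (h : HasDigits a τ) (hφ : C1 φ)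
    (hg : a 1 + 2 ≤ a 0) : φ 0 + xt φ 1 < pull φ τ 0 - xt (pull φ τ) 1 := by
  have hp := h.xt_pull φ 0 (Nat.zero_le m)
  have hp1 := h.xt_pull φ 1 (by omega)
  rw [xt_zero, zero_add] at hp
  rw [hp, hp1]
  have h1 : xt φ 2 < φ 0 := by
    have h2 := hφ 0 (by omega)
    have h3 := hφ 1 (by omega)
    rw [xt_zero, zero_add] at h2
    exact h3.trans h2
  have h2 : (a 1 : ℝ) + 2 ≤ a 0 := by exact_mod_cast hg
  have h0 := hφ.pos' 0
  nlinarith

theorem up3 (hm : 2 ≤ m) (ha : JPd m a) (h : HasDigits a τ) (hφ : C1 φ) (hg : a 1 + 2 ≤ a 0)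
    {L U X : ℤ} {Y : ℕ → ℤ} (hS : St (pull φ τ) X Y) (hL : ∀ i, i ≤ m → L ≤ Y i)
    (hU : ∀ i, i ≤ m → Y i ≤ U) (hs : L + 1 ≤ Y 0) :
    ∃ N N' : ℤ, L + 1 ≤ N ∧ N ≤ U ∧ St φ N' (cs N Y) ∧
      ∀ l, Hl l N' (cs N Y) → Hl (l ++ [τ]) X Y := by
  have h0 := hφ.pos' 0
  have hw : ∀ i, i ≤ m → 0 ≤ xt (pull φ τ) i - xt (pull φ τ) (i+1) := fun i hi =>
    (w_nonneg ha h hφ i hi).le
  have hXU := X_le hw hS hU
  have hp := h.xt_pull φ 0 (Nat.zero_le m)
  rw [xt_zero, zero_add] at hp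
  have h1 : xt φ 1 < φ 0 := by
    have := hφ 0 (by omega)
    rwa [xt_zero, zero_add] at this
  have h1' : 0 < xt φ 1 := hφ.pos 1 (by omega)
  have hA : (4 : ℝ) ≤ a 0 := by exact_mod_cast ha.big
  have hgw := gap_w hm h hφ hg
  by_cases hu : hh (pull φ τ) (zv X Y) < ((a 0 : ℝ) - 1) * φ 0
  · obtain ⟨N', h2, h3⟩ := step_ceil (by omega) h h0 X Y hS.1 hu
    refine ⟨X, N', ?_, hXU, h2, h3⟩
    by_contra hc
    push Not at hc
    have h4 := hh_one' (pull φ τ) hw X Y (fun i hi => by have := hL i hi; omega) (by omega)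
    have h5 := hS.1
    linarith
  · push Not at hu
    have h5 : pull φ τ 0 - hh (pull φ τ) (zv X Y) ≤ φ 0 + xt φ 1 := by
      rw [hp]; linarith
    obtain ⟨N', h2, h3⟩ := step_floor (by omega) h h0 X Y hS.2 (by nlinarith)
    refine ⟨X - 1, N', ?_, by omega, h2, h3⟩
    by_contra hc
    push Not at hc
    have h4 := hh_one' (pull φ τ) hw (X - 1) Y (fun i hi => by have := hL i hi; omega) (by omega)
    rw [← zv_sub_one, hh_sub, hh_ev] at h4
    linarith

theorem down3 (hm : 2 ≤ m) (ha : JPd m a) (h : HasDigits a τ) (hφ : C1 φ) (hg : a 1 + 2 ≤ a 0)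
    {L U X : ℤ} {Y : ℕ → ℤ} (hS : St (pull φ τ) X Y) (hL : ∀ i, i ≤ m → L ≤ Y i)
    (hU : ∀ i, i ≤ m → Y i ≤ U) (hs : Y 0 ≤ U - 1) :
    ∃ N N' : ℤ, L ≤ N ∧ N ≤ U - 1 ∧ St φ N' (cs N Y) ∧
      ∀ l, Hl l N' (cs N Y) → Hl (l ++ [τ]) X Y := by
  have h0 := hφ.pos' 0
  have hw : ∀ i, i ≤ m → 0 ≤ xt (pull φ τ) i - xt (pull φ τ) (i+1) := fun i hi =>
    (w_nonneg ha h hφ i hi).le
  have hXU := X_le hw hS hU
  have hp := h.xt_pull φ 0 (Nat.zero_le m)
  rw [xt_zero, zero_add] at hp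
  have h1 : xt φ 1 < φ 0 := by
    have := hφ 0 (by omega)
    rwa [xt_zero, zero_add] at this
  have h1' : 0 < xt φ 1 := hφ.pos 1 (by omega)
  have hA : (4 : ℝ) ≤ a 0 := by exact_mod_cast ha.big
  have hgw := gap_w hm h hφ hg
  by_cases hd : pull φ τ 0 - hh (pull φ τ) (zv X Y) ≤ ((a 0 : ℝ) - 1) * φ 0
  · obtain ⟨N', h2, h3⟩ := step_floor (by omega) h h0 X Y hS.2 hd
    refine ⟨X - 1, N', ?_, by omega, h2, h3⟩
    by_contra hc
    push Not at hc
    have h4 := hh_cmp' (pull φ τ) hw X Y (fun i => 0) (fun i hi => by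
      have := hL i hi
      omega) le_rfl (fun _ _ => le_rfl)
    simp only [Finset.sum_const_zero, Int.cast_zero, mul_zero, neg_zero] at h4
    rw [hp] at hd
    linarith
  · push Not at hd
    rw [hp] at hd
    have h5 : hh (pull φ τ) (zv X Y) < φ 0 + xt φ 1 := by linarith
    obtain ⟨N', h2, h3⟩ := step_ceil (by omega) h h0 X Y hS.1 (by nlinarith)
    refine ⟨X, N', ?_, ?_, h2, h3⟩
    · by_contra hc
      push Not at hc
      -- `X < L`: the height is at most `-(pull φ τ 0)`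
      have h4 := hh_cmp' (pull φ τ) hw (X + 1) Y (fun i => 0) (fun i hi => by
        have := hL i hi
        omega) le_rfl (fun _ _ => le_rfl)
      simp only [Finset.sum_const_zero, Int.cast_zero, mul_zero, neg_zero] at h4
      have h6 : (zv (X + 1) Y : Fin (m+1) → ℤ) = zv X Y + (1 : ℤ) • ev 0 := (zv_add X Y 1).symm
      rw [h6, hh_add, hh_smul_ev, hp] at h4
      have h7 := hS.1
      push_cast at h4
      nlinarith
    · by_contra hc
      push Not at hc
      have h4 := hh_one (pull φ τ) hw X Y (fun i hi => by have := hU i hi; omega) (by omega)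
      linarith

/-- up steps, both kinds of digits -/
theorem upS (hm : 2 ≤ m) (ha : JPd m a) (h : HasDigits a τ) (hφ : C1 φ)
    {L U X : ℤ} {Y : ℕ → ℤ} (hS : St (pull φ τ) X Y) (hL : ∀ i, i ≤ m → L ≤ Y i)
    (hU : ∀ i, i ≤ m → Y i ≤ U) (h0 : L + 1 ≤ Y 0)
    (hs : 2 ≤ ∑ i ∈ Finset.range (m+1), (Y i - L)) :
    ∃ N N' : ℤ, L + 1 ≤ N ∧ N ≤ U ∧ St φ N' (cs N Y) ∧
      ∀ l, Hl l N' (cs N Y) → Hl (l ++ [τ]) X Y := by
  rcases ha.gap with hg | hg
  · exact up3 hm ha h hφ hg hS hL hU h0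
  · exact up1 (by omega) ⟨hg, ha.last, ha.big⟩ h hφ hS hL hU hs

theorem downS (hm : 2 ≤ m) (ha : JPd m a) (h : HasDigits a τ) (hφ : C1 φ)
    {L U X : ℤ} {Y : ℕ → ℤ} (hS : St (pull φ τ) X Y) (hL : ∀ i, i ≤ m → L ≤ Y i)
    (hU : ∀ i, i ≤ m → Y i ≤ U) (h0 : Y 0 ≤ U - 1)
    (hs : 2 ≤ ∑ i ∈ Finset.range (m+1), (U - Y i)) :
    ∃ N N' : ℤ, L ≤ N ∧ N ≤ U - 1 ∧ St φ N' (cs N Y) ∧
      ∀ l, Hl l N' (cs N Y) → Hl (l ++ [τ]) X Y := by
  rcases ha.gap with hg | hg
  · exact down3 hm ha h hφ hg hS hL hU h0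
  · exact down1 (by omega) ⟨hg, ha.last, ha.big⟩ h hφ hS hL hU hs

end one

section lists
variable {φ : Fin (m+1) → ℝ}

/-- the values are eventually larger than `L` -/
theorem phUp (hm : 2 ≤ m) (hφ : C1 φ) (L U : ℤ) (n : ℕ)
    (hend : ∀ (l : List (Fin (m+1) → List (Fin (m+1)))) (X : ℤ) (Y : ℕ → ℤ),
      (∀ τ ∈ l, ∃ a, JPd m a ∧ HasDigits a τ) → n ≤ l.length →
      St (pull φ (compList l)) X Y → (∀ i, i ≤ m → L + 1 ≤ Y i) → (∀ i, i ≤ m → Y i ≤ U) →
      Hl l X Y) (j : ℕ) :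
    ∀ (l : List (Fin (m+1) → List (Fin (m+1)))) (X : ℤ) (Y : ℕ → ℤ),
      (∀ τ ∈ l, ∃ a, JPd m a ∧ HasDigits a τ) → n + j ≤ l.length →
      St (pull φ (compList l)) X Y → (∀ i, i ≤ m → L ≤ Y i) → (∀ i, i ≤ m → Y i ≤ U) →
      L + 1 ≤ Y 0 → 2 ≤ ∑ i ∈ Finset.range (m+1), (Y i - L) →
      (∀ i, i + j ≤ m → L + 1 ≤ Y i) → Hl l X Y := by
  induction j with
  | zero =>
    intro l X Y hl hlen hS _ hU _ _ hY
    exact hend l X Y hl (by omega) hS (fun i hi => hY i (by omega)) hU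
  | succ j ih =>
    intro l X Y hl hlen hS hL hU h0 hs hY
    obtain ⟨l', τ, rfl, hlen'⟩ := exists_concat l (n + j) hlen
    obtain ⟨a, ha, h⟩ := hl τ (by simp)
    have hl' : ∀ τ ∈ l', ∃ a, JPd m a ∧ HasDigits a τ := fun τ' h' => hl τ' (by simp [h'])
    rw [compList_concat, pull_comp] at hS
    obtain ⟨N, N', hN1, hN2, hS', htr⟩ := upS hm ha h (hφ.pull3_list l' hl') hS hL hU h0 hs
    refine htr l' (ih l' N' (cs N Y) hl' hlen' hS' ?_ ?_ hN1 ?_ ?_)
    · exact cs_all (P := fun x => L ≤ x) (by omega) hL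
    · exact cs_all (P := fun x => x ≤ U) hN2 hU
    · rw [sum_cs (fun x => x - L)]
      have h1 : 1 ≤ ∑ i ∈ Finset.range m, (Y i - L) := by
        have h2 : Y 0 - L ≤ ∑ i ∈ Finset.range m, (Y i - L) :=
          Finset.single_le_sum (f := fun i => Y i - L) (fun k hk => by
            have := hL k (by have := Finset.mem_range.1 hk; omega)
            omega) (Finset.mem_range.2 (by omega))
        omega
      omega
    · intro i hi
      cases i with
      | zero => exact hN1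
      | succ k => exact hY k (by omega)

/-- the values are eventually smaller than `U` -/
theorem phDown (hm : 2 ≤ m) (hφ : C1 φ) (L U : ℤ) (n : ℕ)
    (hend : ∀ (l : List (Fin (m+1) → List (Fin (m+1)))) (X : ℤ) (Y : ℕ → ℤ),
      (∀ τ ∈ l, ∃ a, JPd m a ∧ HasDigits a τ) → n ≤ l.length →
      St (pull φ (compList l)) X Y → (∀ i, i ≤ m → L ≤ Y i) → (∀ i, i ≤ m → Y i ≤ U - 1) →
      Hl l X Y) (j : ℕ) :
    ∀ (l : List (Fin (m+1) → List (Fin (m+1)))) (X : ℤ) (Y : ℕ → ℤ),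
      (∀ τ ∈ l, ∃ a, JPd m a ∧ HasDigits a τ) → n + j ≤ l.length →
      St (pull φ (compList l)) X Y → (∀ i, i ≤ m → L ≤ Y i) → (∀ i, i ≤ m → Y i ≤ U) →
      Y 0 ≤ U - 1 → 2 ≤ ∑ i ∈ Finset.range (m+1), (U - Y i) →
      (∀ i, i + j ≤ m → Y i ≤ U - 1) → Hl l X Y := by
  induction j with
  | zero =>
    intro l X Y hl hlen hS hL _ _ _ hY
    exact hend l X Y hl (by omega) hS hL (fun i hi => hY i (by omega))
  | succ j ih =>
    intro l X Y hl hlen hS hL hU h0 hs hY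
    obtain ⟨l', τ, rfl, hlen'⟩ := exists_concat l (n + j) hlen
    obtain ⟨a, ha, h⟩ := hl τ (by simp)
    have hl' : ∀ τ ∈ l', ∃ a, JPd m a ∧ HasDigits a τ := fun τ' h' => hl τ' (by simp [h'])
    rw [compList_concat, pull_comp] at hS
    obtain ⟨N, N', hN1, hN2, hS', htr⟩ := downS hm ha h (hφ.pull3_list l' hl') hS hL hU h0 hs
    refine htr l' (ih l' N' (cs N Y) hl' hlen' hS' ?_ ?_ hN2 ?_ ?_)
    · exact cs_all (P := fun x => L ≤ x) hN1 hL
    · exact cs_all (P := fun x => x ≤ U) (by omega) hU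
    · rw [sum_cs (fun x => U - x)]
      have h1 : 1 ≤ ∑ i ∈ Finset.range m, (U - Y i) := by
        have h2 : U - Y 0 ≤ ∑ i ∈ Finset.range m, (U - Y i) :=
          Finset.single_le_sum (f := fun i => U - Y i) (fun k hk => by
            have := hU k (by have := Finset.mem_range.1 hk; omega)
            omega) (Finset.mem_range.2 (by omega))
        omega
      omega
    · intro i hi
      cases i with
      | zero => exact hN2
      | succ k => exact hY k (by omega)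

theorem sum_two (L U : ℤ) (Y : ℕ → ℤ) :
    ∑ i ∈ Finset.range (m+1), (Y i - L) + ∑ i ∈ Finset.range (m+1), (U - Y i) =
      (m + 1) * (U - L) := by
  rw [← Finset.sum_add_distrib]
  have : ∀ i ∈ Finset.range (m+1), (Y i - L + (U - Y i)) = U - L := fun i _ => by ring
  rw [Finset.sum_congr rfl this]
  simp
  ring

/-- one unit of the spread -/
theorem spread (hm : 2 ≤ m) (hφ : C1 φ) (L U : ℤ) (hLU : L < U) (n : ℕ)
    (hend1 : ∀ (l : List (Fin (m+1) → List (Fin (m+1)))) (X : ℤ) (Y : ℕ → ℤ),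
      (∀ τ ∈ l, ∃ a, JPd m a ∧ HasDigits a τ) → n ≤ l.length →
      St (pull φ (compList l)) X Y → (∀ i, i ≤ m → L + 1 ≤ Y i) → (∀ i, i ≤ m → Y i ≤ U) →
      Hl l X Y)
    (hend2 : ∀ (l : List (Fin (m+1) → List (Fin (m+1)))) (X : ℤ) (Y : ℕ → ℤ),
      (∀ τ ∈ l, ∃ a, JPd m a ∧ HasDigits a τ) → n ≤ l.length →
      St (pull φ (compList l)) X Y → (∀ i, i ≤ m → L ≤ Y i) → (∀ i, i ≤ m → Y i ≤ U - 1) →
      Hl l X Y)
    (l : List (Fin (m+1) → List (Fin (m+1)))) (X : ℤ) (Y : ℕ → ℤ)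
    (hl : ∀ τ ∈ l, ∃ a, JPd m a ∧ HasDigits a τ) (hlen : n + (m + 1) + 1 ≤ l.length)
    (hS : St (pull φ (compList l)) X Y) (hL : ∀ i, i ≤ m → L ≤ Y i)
    (hU : ∀ i, i ≤ m → Y i ≤ U) : Hl l X Y := by
  have pU := phUp hm hφ L U n hend1 (m+1)
  have pD := phDown hm hφ L U n hend2 (m+1)
  have h0L := hL 0 (by omega)
  have h0U := hU 0 (by omega)
  have hsum := sum_two (m := m) L U Y
  have hnn1 : ∀ k ∈ Finset.range (m+1), 0 ≤ Y k - L := fun k hk => by
    have := hL k (by have := Finset.mem_range.1 hk; omega)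
    omega
  have hnn2 : ∀ k ∈ Finset.range (m+1), 0 ≤ U - Y k := fun k hk => by
    have := hU k (by have := Finset.mem_range.1 hk; omega)
    omega
  have hS1 : Y 0 - L ≤ ∑ i ∈ Finset.range (m+1), (Y i - L) :=
    Finset.single_le_sum hnn1 (Finset.mem_range.2 (by omega))
  have hS2 : U - Y 0 ≤ ∑ i ∈ Finset.range (m+1), (U - Y i) :=
    Finset.single_le_sum hnn2 (Finset.mem_range.2 (by omega))
  by_cases cA : L + 1 ≤ Y 0 ∧ 2 ≤ ∑ i ∈ Finset.range (m+1), (Y i - L)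
  · exact pU l X Y hl (by omega) hS hL hU cA.1 cA.2 (fun i hi => by omega)
  by_cases cB : Y 0 ≤ U - 1 ∧ 2 ≤ ∑ i ∈ Finset.range (m+1), (U - Y i)
  · exact pD l X Y hl (by omega) hS hL hU cB.1 cB.2 (fun i hi => by omega)
  -- the remaining windows
  have hmz : (3 : ℤ) ≤ (m : ℤ) + 1 := by
    have : (2 : ℤ) ≤ m := by exact_mod_cast hm
    linarith
  obtain ⟨l', τ, rfl, hlen'⟩ := exists_concat l (n + (m + 1)) hlen
  obtain ⟨a, ha, h⟩ := hl τ (by simp)
  have hl' : ∀ τ ∈ l', ∃ a, JPd m a ∧ HasDigits a τ := fun τ' h' => hl τ' (by simp [h'])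
  rw [compList_concat, pull_comp] at hS
  have hφ' := hφ.pull3_list l' hl'
  rcases Classical.em (Y 0 = L) with hY0 | hY0
  · -- the window `L, U, ..., U`
    have hlt : ∑ i ∈ Finset.range (m+1), (U - Y i) < 2 := by
      by_contra hc
      exact cB ⟨by omega, by omega⟩
    have hUL : U = L + 1 := by omega
    have hs1 : 2 ≤ ∑ i ∈ Finset.range (m+1), (Y i - L) := by
      rw [hUL] at hsum hlt
      have : ((m : ℤ) + 1) * (L + 1 - L) = m + 1 := by ring
      rw [this] at hsum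
      omega
    rcases ha.gap with hg | hg
    · obtain ⟨N, N', hN1, hN2, hS', htr⟩ := down3 hm ha h hφ' hg hS hL hU (by omega)
      refine htr l' (pD l' N' (cs N Y) hl' hlen' hS' ?_ ?_ hN2 ?_ (fun i hi => by omega))
      · exact cs_all (P := fun x => L ≤ x) hN1 hL
      · exact cs_all (P := fun x => x ≤ U) (by omega) hU
      · rw [sum_cs (fun x => U - x)]
        have h1 : U - Y 0 ≤ ∑ i ∈ Finset.range m, (U - Y i) :=
          Finset.single_le_sum (f := fun i => U - Y i) (fun k hk => hnn2 k (by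
            have := Finset.mem_range.1 hk
            exact Finset.mem_range.2 (by omega))) (Finset.mem_range.2 (by omega))
        omega
    · obtain ⟨N, N', hN1, hN2, hS', htr⟩ := up1 (by omega) ⟨hg, ha.last, ha.big⟩ h hφ' hS hL hU hs1
      refine htr l' (pU l' N' (cs N Y) hl' hlen' hS' ?_ ?_ hN1 ?_ (fun i hi => by omega))
      · exact cs_all (P := fun x => L ≤ x) (by omega) hL
      · exact cs_all (P := fun x => x ≤ U) hN2 hU
      · rw [sum_cs (fun x => x - L)]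
        have h2 : ∑ i ∈ Finset.range (m+1), (Y i - L) =
            ∑ i ∈ Finset.range m, (Y i - L) + (Y m - L) := Finset.sum_range_succ _ _
        have h3 := hU m le_rfl
        omega
  · -- the window `U, L, ..., L`
    have hlt : ∑ i ∈ Finset.range (m+1), (Y i - L) < 2 := by
      by_contra hc
      exact cA ⟨by omega, by omega⟩
    have hs2 : 2 ≤ ∑ i ∈ Finset.range (m+1), (U - Y i) := by
      have h1 : (m : ℤ) + 1 ≤ (m + 1) * (U - L) := by nlinarith
      omega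
    have hY0U : Y 0 = U := by
      by_contra hc
      exact cB ⟨by omega, hs2⟩
    have hUL : U = L + 1 := by omega
    rcases ha.gap with hg | hg
    · obtain ⟨N, N', hN1, hN2, hS', htr⟩ := up3 hm ha h hφ' hg hS hL hU (by omega)
      refine htr l' (pU l' N' (cs N Y) hl' hlen' hS' ?_ ?_ hN1 ?_ (fun i hi => by omega))
      · exact cs_all (P := fun x => L ≤ x) (by omega) hL
      · exact cs_all (P := fun x => x ≤ U) hN2 hU
      · rw [sum_cs (fun x => x - L)]
        have h1 : Y 0 - L ≤ ∑ i ∈ Finset.range m, (Y i - L) :=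
          Finset.single_le_sum (f := fun i => Y i - L) (fun k hk => hnn1 k (by
            have := Finset.mem_range.1 hk
            exact Finset.mem_range.2 (by omega))) (Finset.mem_range.2 (by omega))
        omega
    · obtain ⟨N, N', hN1, hN2, hS', htr⟩ :=
        down1 (by omega) ⟨hg, ha.last, ha.big⟩ h hφ' hS hL hU hs2
      refine htr l' (pD l' N' (cs N Y) hl' hlen' hS' ?_ ?_ hN2 ?_ (fun i hi => by omega))
      · exact cs_all (P := fun x => L ≤ x) hN1 hL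
      · exact cs_all (P := fun x => x ≤ U) (by omega) hU
      · rw [sum_cs (fun x => U - x)]
        have h2 : ∑ i ∈ Finset.range (m+1), (U - Y i) =
            ∑ i ∈ Finset.range m, (U - Y i) + (U - Y m) := Finset.sum_range_succ _ _
        have h3 := hL m le_rfl
        omega

theorem chain3 (hm : 2 ≤ m) (hφ : C1 φ) (D : ℕ) :
    ∀ (L : ℤ) (l : List (Fin (m+1) → List (Fin (m+1)))) (X : ℤ) (Y : ℕ → ℤ),
      (∀ τ ∈ l, ∃ a, JPd m a ∧ HasDigits a τ) → (m + 2) * D ≤ l.length →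
      St (pull φ (compList l)) X Y → (∀ i, i ≤ m → L ≤ Y i) →
      (∀ i, i ≤ m → Y i ≤ L + D) → Hl l X Y := by
  induction D with
  | zero =>
    intro L l X Y hl _ hS hL hU
    refine hl_const l (fun τ hτ => ?_) X L Y hS (fun i hi => by
      have h1 := hL i hi
      have h2 := hU i hi
      push_cast at h2
      omega) ((hφ.pull3_list l hl).pos' 0)
    obtain ⟨a, ha, h⟩ := hl τ hτ
    exact zero_mem_image h 0 (by have := ha.big; simpa using by omega)
  | succ D ih =>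
    intro L l X Y hl hlen hS hL hU
    refine spread hm hφ L (L + (D + 1 : ℕ)) (by push_cast; omega) ((m + 2) * D) ?_ ?_ l X Y hl ?_
      hS hL hU
    · intro l X Y hl hlen hS h1 h2
      refine ih (L + 1) l X Y hl hlen hS h1 (fun i hi => ?_)
      have := h2 i hi
      push_cast at this
      linarith
    · intro l X Y hl hlen hS h1 h2
      refine ih L l X Y hl hlen hS h1 (fun i hi => ?_)
      have := h2 i hi
      push_cast at this
      linarith
    · calc (m + 2) * D + (m + 1) + 1 = (m + 2) * (D + 1) := by ring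
        _ ≤ l.length := hlen

end lists

end Pool.Agent.W3helper16.PJ
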