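import Pool.Agent.W3helper16.PJ.Fam

/-!
The Pisot conjecture for the compositions of the members of a family.
-/

set_option autoImplicit false

namespace Pool.Agent.W3helper16.PJ
open Pool.Agent.H812R2.PI Pool.Agent.Y316.Pisot
open scoped BigOperators

variable {m : ℕ}

theorem finish {S1 S2 : Fin (m+1) → List (Fin (m+1))} {a b : Fin (m+1)} {v : Fin (m+1) → ℤ}
    {x y : Fin (m+1) → ℤ} (he : (x, (0 : Fin (m+1))) ∈ edges 0 (S2 a))
    (hf : (y, (0 : Fin (m+1))) ∈ edges ((inc S2).mulVec v) (S2 b)) (h : Rel S1 (y - x) 0) :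
    ∃ e, e ∈ edges 0 (comp S1 S2 a) ∧ e ∈ edges ((inc (comp S1 S2)).mulVec v) (comp S1 S2 b) := by
  obtain ⟨p, q, hp, hq, hpq⟩ := h
  have h1 : (inc S1).mulVec x + p = (inc S1).mulVec y + q := by
    rw [Matrix.mulVec_sub] at hpq
    have h2 : (inc S1).mulVec y + q - ((inc S1).mulVec x + p) = 0 := by
      rw [hpq]; abel
    exact (sub_eq_zero.1 h2).symm
  have key : ∀ (z p : Fin (m+1) → ℤ), (p, (0 : Fin (m+1))) ∈ edges 0 (S1 0) →
      ((inc S1).mulVec z + p, (0 : Fin (m+1))) ∈ edges ((inc S1).mulVec z) (S1 0) := by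
    intro z p hp
    have h3 := edges_translate 0 ((inc S1).mulVec z) (S1 0)
    rw [zero_add] at h3
    rw [h3, List.mem_map]
    exact ⟨_, hp, Prod.ext (add_comm _ _) rfl⟩
  refine ⟨((inc S1).mulVec x + p, 0), ?_, ?_⟩
  · have h2 := JComp_mem (S := S1) he (h := ((inc S1).mulVec x + p, (0 : Fin (m+1)))) (key x p hp)
    rw [Matrix.mulVec_zero] at h2
    exact h2
  · rw [h1]
    have h2 := JComp_mem (S := S1) hf (h := ((inc S1).mulVec y + q, (0 : Fin (m+1)))) (key y q hq)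
    rw [inc_comp, ← Matrix.mulVec_mulVec]
    exact h2

theorem sum_abs_take (w : List (Fin (m+1))) (k : ℕ) :
    ∑ j, |ab (w.take k) j| ≤ (w.length : ℤ) := by
  have h1 : ∑ j, |ab (w.take k) j| = ((w.take k).length : ℤ) := by
    rw [← ab_sum]
    exact Finset.sum_congr rfl fun j _ => abs_of_nonneg (by unfold ab; positivity)
  rw [h1]
  exact_mod_cast List.length_take_le' k w

theorem sum_abs_edge {w : List (Fin (m+1))} {z x : Fin (m+1) → ℤ} {c : Fin (m+1)}
    (h : (x, c) ∈ edges z w) : ∑ j, |(x - z) j| ≤ (w.length : ℤ) := by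
  obtain ⟨k, hk, hk2⟩ := mem_edges.1 h
  have h1 : x - z = ab (w.take k) := by
    have := congrArg Prod.fst hk2
    simp only at this
    rw [this]; abel
  rw [h1]
  exact sum_abs_take w k

theorem pull_iter {S : Fin (m+1) → List (Fin (m+1))} {φ : Fin (m+1) → ℝ} {lam : ℝ}
    (h : pull φ S = lam • φ) (n : ℕ) : pull φ (iter S n) = lam ^ n • φ := by
  induction n with
  | zero =>
    funext j
    simp [pull, iter_zero, ab_single, hh_ev]
  | succ n ih =>
    have h1 : iter S (n+1) = comp S (iter S n) := by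
      funext a
      rw [iter_succ]; rfl
    rw [h1, pull_comp, h]
    funext j
    have h2 := congrFun ih j
    simp only [pull, hh, Pi.smul_apply, smul_eq_mul] at h2 ⊢
    rw [pow_succ, mul_comm (lam ^ n), mul_assoc, ← h2, Finset.mul_sum]
    exact Finset.sum_congr rfl fun i _ => by ring

theorem mem_flatten_replicate {α : Type*} {l : List α} {n : ℕ} {x : α}
    (h : x ∈ (List.replicate n l).flatten) : x ∈ l := by
  rw [List.mem_flatten] at h
  obtain ⟨l', h1, h2⟩ := h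
  rw [List.mem_replicate] at h1
  rwa [h1.2] at h2

section fam
variable {G : (Fin (m+1) → List (Fin (m+1))) → Prop} {C : (Fin (m+1) → ℝ) → Prop}

/-- four letters `0` in a row in the images -/
theorem Fam.four (F : Fam m G C) (hm : 1 ≤ m) (l : List (Fin (m+1) → List (Fin (m+1))))
    (hlen : m + 3 ≤ l.length) (hl : ∀ τ ∈ l, G τ) (c : Fin (m+1)) :
    List.replicate 4 (0 : Fin (m+1)) <:+: compList l c := by
  match l, hlen, hl with
  | [], h, _ => simp at h
  | [_], h, _ => simp at h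
  | τ1 :: τ2 :: l', hlen, hl =>
    obtain ⟨a1, h1, ha1, -⟩ := F.dig τ1 (hl τ1 (by simp))
    obtain ⟨a2, h2, ha2, -⟩ := F.dig τ2 (hl τ2 (by simp))
    rw [List.length_cons, List.length_cons] at hlen
    have h3 := F.reach0 (m+1) l' c (fun τ' h' => hl τ' (by simp [h'])) (by omega) (by omega)
    exact Pool.Agent.W3helper16.PJ.four hm h1 h2 ha1 ha2 _ h3

theorem Fam.hit (F : Fam m G C) (hm : 1 ≤ m) (l : List (Fin (m+1) → List (Fin (m+1))))
    (hne : l ≠ []) (hl : ∀ τ ∈ l, G τ) (P : PD (inc (compList l))) (D : ℝ) :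
    ∃ n₀ : ℕ, ∀ n ≥ n₀, P.Hit (iter (compList l) n) D := by
  have hlam : 0 < P.lam := lt_trans one_pos P.lam_gt
  have hpull : pull P.ell (compList l) = P.lam • P.ell := by
    funext j
    rw [Pi.smul_apply, smul_eq_mul, ← P.ell_M j]
    rfl
  have hC := F.eig P.ell P.lam l hne hl P.ell_pos P.lam_gt hpull
  have h0 := P.ell_pos 0
  have hlt := F.lt P.ell hC
  have hle : ∀ i, P.ell i ≤ P.ell 0 := fun i => by
    by_cases hi : i = 0
    · rw [hi]
    · exact (hlt i hi).le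
  have hfin := Pool.Agent.TH100.Pisot.pairs_finite P D
  obtain ⟨δ, hδ, hδ'⟩ := exists_lower hfin (fun t => P.OV (0, t.1) (t.2.2, t.2.1))
    (fun t ht => ht.2)
  -- the number of steps to long overlaps
  obtain ⟨n3, hn3⟩ : ∃ n3 : ℕ, 2 * P.ell 0 < P.lam ^ n3 * δ := by
    have h2 : Filter.Tendsto (fun n : ℕ => P.lam ^ n * δ) Filter.atTop Filter.atTop :=
      (tendsto_pow_atTop_atTop_of_one_lt P.lam_gt).atTop_mul_const hδ
    exact (h2.eventually (Filter.eventually_gt_atTop (2 * P.ell 0))).exists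
  obtain ⟨n2, hn2⟩ : ∃ n2, n2 = (m + 3) + n3 := ⟨_, rfl⟩
  obtain ⟨S2, hS2⟩ : ∃ S2, S2 = iter (compList l) n2 := ⟨_, rfl⟩
  have hinc2 : inc S2 = inc (compList l) ^ n2 := by rw [hS2, inc_iter]
  obtain ⟨K0, hK0, hK0'⟩ := exists_bound hfin (fun t =>
    ((∑ i, |(inc S2).mulVec t.2.2 i| + (S2 t.1).length + (S2 t.2.1).length : ℤ) : ℝ))
  obtain ⟨K, hK⟩ : ∃ K : ℕ, K0 ≤ K := exists_nat_ge K0
  obtain ⟨N, hN⟩ := F.chain K
  refine ⟨N + n2, fun n hn => ?_⟩
  obtain ⟨n', rfl⟩ : ∃ n', n = n' + n2 := ⟨n - n2, by omega⟩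
  have hn' : N ≤ n' := by omega
  intro a b v hv hov
  obtain ⟨l1, hl1⟩ : ∃ l1, l1 = (List.replicate n' l).flatten := ⟨_, rfl⟩
  have hd1 : ∀ τ ∈ l1, G τ := by
    intro τ hτ
    rw [hl1] at hτ
    exact hl τ (mem_flatten_replicate hτ)
  have hc1 : compList l1 = iter (compList l) n' := by rw [hl1, compList_flatten]
  have hlen1 : n' ≤ l1.length := by rw [hl1]; exact len_flatten l n' hne
  have hc : iter (compList l) (n' + n2) = comp (compList l1) S2 := by
    funext x
    rw [hc1, hS2, iter_add]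
    rfl
  have hmem : (a, b, v) ∈ {t : Fin (m+1) × Fin (m+1) × (Fin (m+1) → ℤ) | P.N (rv t.2.2) ≤ D ∧
      0 < P.OV (0, t.1) (t.2.2, t.2.1)} := ⟨hv, hov⟩
  have hKv := hK0' _ hmem
  have hδv := hδ' _ hmem
  simp only at hKv hδv
  have hovl : δ ≤ min (P.ell a) (hh P.ell v + P.ell b) - max 0 (hh P.ell v) := by
    unfold PD.OV ovl at hδv hov
    simp only [ht_zero, zero_add] at hδv hov
    rcases le_max_iff.1 hδv with h | h
    · linarith
    · exact h
  -- heights
  have hht2 : ∀ v, hh P.ell ((inc S2).mulVec v) = P.lam ^ n2 * hh P.ell v := by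
    intro v
    rw [hinc2]
    exact ht_pow_mulVec P n2 v
  have hht2' : ∀ a, hh P.ell (ab (S2 a)) = P.lam ^ n2 * P.ell a := by
    intro a
    rw [ab_subst, hht2, hh_ev]
  have hlamn : 0 < P.lam ^ n2 := pow_pos hlam n2
  obtain ⟨B, hB⟩ : ∃ B, B = iter (compList l) (m + 3) := ⟨_, rfl⟩
  obtain ⟨u, hu⟩ : ∃ u, u = iter (compList l) n3 a := ⟨_, rfl⟩
  have hw1 : S2 a = ext B u := by
    rw [hS2, hn2, iter_add, hB, hu]
  have hpB : pull P.ell B = P.lam ^ (m + 3) • P.ell := by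
    rw [hB]; exact pull_iter hpull (m + 3)
  have hext : ∀ w, hh P.ell (ab (ext B w)) = hh (pull P.ell B) (ab w) := by
    intro w
    rw [ab_ext, hh_mulVec]
  have hBle : ∀ c, pull P.ell B c ≤ P.lam ^ (m + 3) * P.ell 0 := by
    intro c
    rw [hpB, Pi.smul_apply, smul_eq_mul]
    exact mul_le_mul_of_nonneg_left (hle c) (pow_pos hlam (m + 3)).le
  obtain ⟨R0, hR0⟩ : ∃ R0, R0 = P.lam ^ n2 * max 0 (hh P.ell v) := ⟨_, rfl⟩
  have hR0n : 0 ≤ R0 := by rw [hR0]; exact mul_nonneg hlamn.le (le_max_left _ _)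
  have hR0v : hh P.ell ((inc S2).mulVec v) ≤ R0 := by
    rw [hht2, hR0]
    exact mul_le_mul_of_nonneg_left (le_max_right _ _) hlamn.le
  have hlong : 2 * (P.lam ^ (m + 3) * P.ell 0) < P.lam ^ n2 * δ := by
    rw [hn2, pow_add P.lam (m + 3) n3]
    have := mul_lt_mul_of_pos_left hn3 (pow_pos hlam (m + 3))
    calc 2 * (P.lam ^ (m + 3) * P.ell 0) = P.lam ^ (m + 3) * (2 * P.ell 0) := by ring
      _ < P.lam ^ (m + 3) * (P.lam ^ n3 * δ) := this
      _ = P.lam ^ (m + 3) * P.lam ^ n3 * δ := by ring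
  have hR1 : R0 + P.lam ^ n2 * δ ≤ hh P.ell (ab (S2 a)) := by
    rw [hht2', hR0, ← mul_add]
    refine mul_le_mul_of_nonneg_left ?_ hlamn.le
    have h1 := min_le_left (P.ell a) (hh P.ell v + P.ell b)
    linarith
  have hR2 : R0 + P.lam ^ n2 * δ ≤ hh P.ell ((inc S2).mulVec v) + hh P.ell (ab (S2 b)) := by
    rw [hht2', hht2, hR0, ← mul_add, ← mul_add]
    refine mul_le_mul_of_nonneg_left ?_ hlamn.le
    have h1 := min_le_right (P.ell a) (hh P.ell v + P.ell b)
    linarith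
  have hKB : 0 < P.lam ^ (m + 3) * P.ell 0 := mul_pos (pow_pos hlam (m + 3)) h0
  -- a block in the overlap
  rw [hw1, hext] at hR1
  obtain ⟨s, c1, t, hut, hs1, hs2⟩ := cover (φ := pull P.ell B) u R0 hR0n (by linarith)
  have hut2 : hh (pull P.ell B) (ab u) =
      hh (pull P.ell B) (ab s) + pull P.ell B c1 + hh (pull P.ell B) (ab t) := by
    rw [hut, ab_append, ab_cons, hh_add, hh_add, hh_ev]; ring
  have hc1le := hBle c1
  obtain ⟨c2, t', rfl⟩ : ∃ c2 t', t = c2 :: t' := by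
    cases t with
    | nil =>
      rw [ab_nil, hh_zero] at hut2
      linarith
    | cons c2 t' => exact ⟨c2, t', rfl⟩
  obtain ⟨s4, t4, hst4⟩ := F.four hm ((List.replicate (m + 3) l).flatten) (len_flatten l (m + 3) hne)
    (fun τ hτ => hl τ (mem_flatten_replicate hτ)) c2
  rw [compList_flatten, ← hB] at hst4
  obtain ⟨pre, hpre⟩ : ∃ pre, pre = ext B s ++ B c1 ++ s4 := ⟨_, rfl⟩
  obtain ⟨suf, hsuf⟩ : ∃ suf, suf = t4 ++ ext B t' := ⟨_, rfl⟩
  have hS2a : S2 a = pre ++ List.replicate 4 0 ++ suf := by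
    rw [hw1, hut, ext_append, ext_cons, ext_cons, ← hst4, hpre, hsuf]
    simp only [List.append_assoc]
  have hz : ∀ i : ℕ, i < 4 → (ab pre + (i : ℤ) • ev 0, (0 : Fin (m+1))) ∈ edges 0 (S2 a) := by
    intro i hi
    have := run_edge (m := m) 0 pre suf 4 i hi
    rw [hS2a]
    rwa [zero_add] at this
  have hhB : ∀ c, hh P.ell (ab (B c)) = pull P.ell B c := fun c => rfl
  have hpre1 : hh P.ell (ab pre) = hh (pull P.ell B) (ab s) + pull P.ell B c1 +
      hh P.ell (ab s4) := by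
    rw [hpre, ab_append, ab_append, hh_add, hh_add, hext, hhB]
  have hs4 := hh_ab_nonneg P.ell_pos s4
  have ht4 := hh_ab_nonneg P.ell_pos t4
  have hB2 : hh P.ell (ab s4) + 4 * P.ell 0 + hh P.ell (ab t4) = pull P.ell B c2 := by
    rw [← hhB, ← hst4, ab_append, ab_append, ab_replicate, hh_add, hh_add, hh_smul_ev]
    push_cast
    ring
  have hc2le := hBle c2
  -- the word `S2 b`
  have hNr : Nr P.ell (S2 b) := by
    rw [hS2, ← compList_flatten]
    refine F.near P.ell hC _ ?_ (fun τ hτ => hl τ (mem_flatten_replicate hτ)) b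
    intro h
    have := len_flatten l n2 hne
    rw [h] at this
    simp at this
    omega
  obtain ⟨i, hi, y', hy', hz1, hz2⟩ := find P.ell_pos (ab pre) ((inc S2).mulVec v) (S2 b) hNr
    (by linarith) (by linarith) hle
  obtain ⟨z, hzdef⟩ : ∃ z, z = y' - (ab pre + (i : ℤ) • ev 0) := ⟨_, rfl⟩
  rw [← hzdef] at hz1 hz2
  obtain ⟨X, Y, hXY, hbd⟩ := exists_zv z
  have hzs : ∑ j, |z j| ≤ (K : ℤ) := by
    obtain ⟨xi, hxi⟩ : ∃ xi, xi = ab pre + (i : ℤ) • ev 0 := ⟨_, rfl⟩
    obtain ⟨v2, hv2⟩ : ∃ v2, v2 = (inc S2).mulVec v := ⟨_, rfl⟩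
    have e1 := sum_abs_edge hy'
    have e2 := sum_abs_edge (hz i (by omega))
    rw [← hxi, sub_zero] at e2
    rw [← hv2] at e1
    rw [← hxi] at hzdef
    have e3 : ∑ j, |z j| ≤ ∑ j, (|v2 j| + |xi j| + |(y' - v2) j|) := by
      refine Finset.sum_le_sum fun j _ => ?_
      have e4 : z j = v2 j - xi j + (y' - v2) j := by
        rw [hzdef]; simp only [Pi.sub_apply]; ring
      rw [e4]
      exact (abs_add_le _ _).trans (add_le_add (abs_sub _ _) le_rfl)
    rw [Finset.sum_add_distrib, Finset.sum_add_distrib] at e3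
    have e5 : ((∑ i, |(inc S2).mulVec v i| + (S2 a).length + (S2 b).length : ℤ) : ℝ) ≤
        ((K : ℤ) : ℝ) := hKv.trans (by push_cast; exact hK)
    have e6 : ∑ i, |(inc S2).mulVec v i| + (S2 a).length + (S2 b).length ≤ (K : ℤ) := by
      exact_mod_cast e5
    rw [← hv2] at e6
    linarith
  have hSt : St (pull P.ell (compList l1)) X Y := by
    rw [hc1, pull_iter hpull n']
    have hsc : ∀ w : Fin (m+1) → ℤ, hh (P.lam ^ n' • P.ell) w = P.lam ^ n' * hh P.ell w := by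
      intro w
      simp only [hh, Pi.smul_apply, smul_eq_mul, Finset.mul_sum]
      exact Finset.sum_congr rfl fun i _ => by ring
    unfold St
    rw [hsc, ← hXY, Pi.smul_apply, smul_eq_mul]
    have hp := pow_pos hlam n'
    exact ⟨mul_nonneg hp.le hz1, mul_lt_mul_of_pos_left hz2 hp⟩
  have hHl := hN l1 hd1 (hn'.trans hlen1) P.ell hC X Y hSt (fun i hi => (hbd i hi).trans hzs)
  rw [hc]
  unfold Hl at hHl
  rw [← zv_sub_one, ← hXY] at hHl
  rcases hHl with h | h
  · rw [hzdef] at h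
    exact finish (hz i (by omega)) hy' h
  · have h5 : z - ev 0 = y' - (ab pre + ((i + 1 : ℕ) : ℤ) • ev 0) := by
      rw [hzdef]
      push_cast
      rw [add_smul, one_smul]
      abel
    rw [h5] at h
    exact finish (hz (i+1) (by omega)) hy' h

/-- the Pisot conjecture for all compositions -/
theorem Fam.main (F : Fam m G C) (hm : 1 ≤ m) (l : List (Fin (m+1) → List (Fin (m+1))))
    (hne : l ≠ []) (hl : ∀ τ ∈ l, G τ) :
    PisotMat (inc (compList l)) ∧ SemiConjToral (compList l) := by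
  have hM := F.pisot l hne hl
  refine ⟨hM, ?_⟩
  have hnn : ∀ i j, 0 ≤ inc (compList l) i j := fun i j => inc_nonneg _ _ _
  obtain ⟨lam, u, hlam, hu, husum⟩ := exists_u (inc (compList l)) hnn hM
  obtain ⟨P, -, -⟩ := exists_PD (inc (compList l)) hnn hM lam hlam u hu husum
  have hdet : IsUnit (inc (compList l)).det := by
    rcases hM.2.1 with h | h
    · rw [h]; exact isUnit_one
    · rw [h]; exact isUnit_one.neg
  exact semi_of_hit P hdet (F.hit hm l hne hl P)

end fam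

end Pool.Agent.W3helper16.PJ
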