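import Pool.Agent.W3helper16.PJ.Chain3
import Pool.Agent.W3helper16.PJ.Main

/-!
Decreasing digits: contraction of the complex vectors in the kernel of the functional,
and the family.
-/

set_option autoImplicit false

namespace Pool.Agent.W3helper16.PJ
open Pool.Agent.H812R2.PI Pool.Agent.Y316.Pisot
open scoped BigOperators

variable {m : ℕ}

/-- prepending a term to a sequence -/
def csc (X : ℂ) (Y : ℕ → ℂ) : ℕ → ℂ
  | 0 => X
  | k + 1 => Y k

/-- the vector with the partial sums `X - Y i` -/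
noncomputable def zc (X : ℂ) (Y : ℕ → ℂ) : Fin (m+1) → ℂ :=
  Fin.cons (X - Y 0) (fun i : Fin m => Y i - Y (i + 1))

theorem zc_zero (X : ℂ) (Y : ℕ → ℂ) : (zc X Y : Fin (m+1) → ℂ) 0 = X - Y 0 := rfl

theorem zc_succ (X : ℂ) (Y : ℕ → ℂ) (i : Fin m) :
    (zc X Y : Fin (m+1) → ℂ) i.succ = Y i - Y (i + 1) := rfl

theorem zc_castSucc (X : ℂ) (Y : ℕ → ℂ) (i : Fin m) :
    (zc X Y : Fin (m+1) → ℂ) i.castSucc = csc X Y i - Y i := by
  obtain ⟨i, hi⟩ := i
  cases i with
  | zero => rfl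
  | succ k => rfl

theorem exists_zc (z : Fin (m+1) → ℂ) : ∃ (X : ℂ) (Y : ℕ → ℂ), z = zc X Y := by
  obtain ⟨Z, hZ⟩ : ∃ Z : ℕ → ℂ, ∀ i : Fin (m+1), Z i = z i :=
    ⟨fun k => if h : k < m + 1 then z ⟨k, h⟩ else 0, fun i => dif_pos i.2⟩
  refine ⟨0, fun k => - ∑ j ∈ Finset.range (k+1), Z j, ?_⟩
  funext i
  refine Fin.cases ?_ (fun i => ?_) i
  · rw [zc_zero]
    have := hZ 0
    simp at this ⊢
    exact this.symm
  · rw [zc_succ, Finset.sum_range_succ _ ((i:ℕ)+1)]
    have := hZ i.succ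
    rw [Fin.val_succ] at this
    rw [← this]
    ring

theorem HasDigits.cm_succ {a : ℕ → ℕ} {τ : Fin (m+1) → List (Fin (m+1))}
    (h : HasDigits a τ) (z : Fin (m+1) → ℂ) (i : Fin m) : cm τ z i.succ = z i.castSucc := by
  simp only [cm, Matrix.mulVec, dotProduct, Matrix.map_apply]
  rw [Finset.sum_eq_single i.castSucc]
  · rw [h, if_neg (Fin.succ_ne_zero i), if_pos (by simp)]
    simp
  · intro j _ hj
    rw [h, if_neg (Fin.succ_ne_zero i), if_neg]
    · simp
    · intro hij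
      apply hj
      apply Fin.ext
      simp at hij ⊢
      exact hij.symm
  · simp

theorem HasDigits.cm_zc {a : ℕ → ℕ} {τ : Fin (m+1) → List (Fin (m+1))}
    (h : HasDigits a τ) (X : ℂ) (Y : ℕ → ℂ) :
    ∃ X' : ℂ, cm τ (zc X Y) = zc X' (csc X Y) := by
  refine ⟨X + cm τ (zc X Y) 0, ?_⟩
  funext i
  refine Fin.cases ?_ (fun i => ?_) i
  · rw [zc_zero]; simp [csc]
  · rw [h.cm_succ, zc_succ, zc_castSucc]
    rfl

theorem sum_abelc (x : ℕ → ℂ) (X : ℂ) (Y : ℕ → ℂ) (n : ℕ) :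
    ∑ i ∈ Finset.range (n+1), (x i - x (i+1)) * (X - Y i) =
      x 0 * (X - Y 0) + ∑ i ∈ Finset.range n, x (i+1) * (Y i - Y (i+1)) - x (n+1) * (X - Y n) := by
  induction n with
  | zero => simp; ring
  | succ n ih =>
    rw [Finset.sum_range_succ, ih, Finset.sum_range_succ _ n]
    ring

theorem hc_zc (φ : Fin (m+1) → ℝ) (X : ℂ) (Y : ℕ → ℂ) :
    hc φ (zc X Y) =
      ∑ i ∈ Finset.range (m+1), (((xt φ i - xt φ (i+1) : ℝ)) : ℂ) * (X - Y i) := by
  have h1 := sum_abelc (fun i => ((xt φ i : ℝ) : ℂ)) X Y m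
  push_cast
  rw [h1, xt_ge φ (le_refl (m+1))]
  simp only [hc]
  rw [Fin.sum_univ_succ, zc_zero, xt_zero]
  have : ∑ i : Fin m, ((φ i.succ : ℝ) : ℂ) * (zc X Y : Fin (m+1) → ℂ) i.succ =
      ∑ i ∈ Finset.range m, ((xt φ (i+1) : ℝ) : ℂ) * (Y i - Y (i+1)) := by
    rw [← Fin.sum_univ_eq_sum_range (fun i => ((xt φ (i+1) : ℝ) : ℂ) * (Y i - Y (i+1))) m]
    refine Finset.sum_congr rfl fun i _ => ?_
    rw [zc_succ]
    have h1 := xt_lt φ i.succ
    simp only [Fin.val_succ] at h1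
    rw [h1]
  rw [this]
  simp

theorem hc_cm (φ : Fin (m+1) → ℝ) (τ : Fin (m+1) → List (Fin (m+1))) (x : Fin (m+1) → ℂ) :
    hc φ (cm τ x) = hc (pull φ τ) x :=
  hc_mulVec (inc τ) φ (pull φ τ) (fun _ => rfl) x

/-- the next value is closer to the other values -/
theorem avg {φ' : Fin (m+1) → ℝ}
    (hw : ∀ i, i ≤ m → 0 < xt φ' i - xt φ' (i+1))
    {X : ℂ} {Y : ℕ → ℂ} (h0 : hc φ' (zc X Y) = 0) {D : ℝ} (hD0 : 0 < D)
    (hD : ∀ i, i ≤ m → ∀ j, j ≤ m → ‖Y i - Y j‖ ≤ D) (j : ℕ) (hj : j ≤ m) :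
    ‖X - Y j‖ < D := by
  have hjm : j ∈ Finset.range (m+1) := Finset.mem_range.2 (by omega)
  have hW : ∀ i ∈ Finset.range (m+1), 0 ≤ xt φ' i - xt φ' (i+1) := fun i hi =>
    (hw i (by have := Finset.mem_range.1 hi; omega)).le
  have hsum := sum_w φ'
  have hφ0 : 0 < φ' 0 := by
    rw [← hsum]
    exact Finset.sum_pos' hW ⟨j, hjm, hw j hj⟩
  have h1 : ((φ' 0 : ℝ) : ℂ) * (X - Y j) =
      ∑ i ∈ Finset.range (m+1), (((xt φ' i - xt φ' (i+1) : ℝ)) : ℂ) * (Y i - Y j) := by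
    have h2 : ((φ' 0 : ℝ) : ℂ) = ∑ i ∈ Finset.range (m+1), (((xt φ' i - xt φ' (i+1) : ℝ)) : ℂ) := by
      rw [← hsum]; push_cast; rfl
    rw [hc_zc] at h0
    have h3 : ((φ' 0 : ℝ) : ℂ) * (X - Y j) = ((φ' 0 : ℝ) : ℂ) * (X - Y j) -
        ∑ i ∈ Finset.range (m+1), (((xt φ' i - xt φ' (i+1) : ℝ)) : ℂ) * (X - Y i) := by
      rw [h0, sub_zero]
    rw [h3, h2, Finset.sum_mul, ← Finset.sum_sub_distrib]
    exact Finset.sum_congr rfl fun i _ => by ring
  have h2 : φ' 0 * ‖X - Y j‖ < φ' 0 * D := by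
    calc φ' 0 * ‖X - Y j‖ = ‖((φ' 0 : ℝ) : ℂ) * (X - Y j)‖ := by
          rw [norm_mul, Complex.norm_real, Real.norm_eq_abs, abs_of_pos hφ0]
      _ = ‖∑ i ∈ Finset.range (m+1), (((xt φ' i - xt φ' (i+1) : ℝ)) : ℂ) * (Y i - Y j)‖ := by
          rw [h1]
      _ ≤ ∑ i ∈ Finset.range (m+1), (xt φ' i - xt φ' (i+1)) * ‖Y i - Y j‖ := by
          refine (norm_sum_le _ _).trans (Finset.sum_le_sum fun i hi => ?_)
          rw [norm_mul, Complex.norm_real, Real.norm_eq_abs, abs_of_nonneg (hW i hi)]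
      _ < ∑ i ∈ Finset.range (m+1), (xt φ' i - xt φ' (i+1)) * D := by
          refine Finset.sum_lt_sum (fun i hi => ?_) ⟨j, hjm, ?_⟩
          · exact mul_le_mul_of_nonneg_left (hD i (by have := Finset.mem_range.1 hi; omega) j hj)
              (hW i hi)
          · rw [sub_self, norm_zero, mul_zero]
            exact mul_pos (hw j hj) hD0
      _ = φ' 0 * D := by rw [← Finset.sum_mul, hsum]
  exact lt_of_mul_lt_mul_left h2 hφ0.le

/-- the state of a complex vector: window of diameter at most `D`; the first `k` values are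
closer -/
def Pc (φ : Fin (m+1) → ℝ) (x : Fin (m+1) → ℂ) (D : ℝ) (k : ℕ) : Prop :=
  ∃ (X : ℂ) (Y : ℕ → ℂ), x = zc X Y ∧ hc φ x = 0 ∧
    (∀ i, i ≤ m → ∀ j, j ≤ m → ‖Y i - Y j‖ ≤ D) ∧
    (∀ i, i ≤ m → i < k → ∀ j, j ≤ m → ‖Y i - Y j‖ < D)

theorem pc_step {a : ℕ → ℕ} (ha : JPd m a) {τ : Fin (m+1) → List (Fin (m+1))}
    (h : HasDigits a τ) {φ : Fin (m+1) → ℝ} (hφ : C1 φ)
    {x : Fin (m+1) → ℂ} {D : ℝ} (hD : 0 < D) {k : ℕ}
    (hx : Pc (pull φ τ) x D k) : Pc φ (cm τ x) D (k+1) := by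
  obtain ⟨X, Y, rfl, h0, h1, h2⟩ := hx
  obtain ⟨X', hX'⟩ := h.cm_zc X Y
  have h3 : ∀ j, j ≤ m → ‖X - Y j‖ < D := fun j hj =>
    avg (fun i hi => w_nonneg ha h hφ i hi) h0 hD h1 j hj
  refine ⟨X', csc X Y, hX', ?_, ?_, ?_⟩
  · rw [hc_cm]; exact h0
  · intro i hi j hj
    cases i with
    | zero =>
      cases j with
      | zero => simpa using hD.le
      | succ j => exact (h3 j (by omega)).le
    | succ i =>
      cases j with
      | zero =>
        have := h3 i (by omega)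
        rw [norm_sub_rev] at this
        exact this.le
      | succ j => exact h1 i (by omega) j (by omega)
  · intro i hi hik j hj
    cases i with
    | zero =>
      cases j with
      | zero => simpa using hD
      | succ j => exact h3 j (by omega)
    | succ i =>
      cases j with
      | zero =>
        have := h3 i (by omega)
        rw [norm_sub_rev] at this
        exact this
      | succ j => exact h2 i (by omega) (by omega) j (by omega)

theorem pc_list {D : ℝ} (hD : 0 < D) {φ : Fin (m+1) → ℝ} (hφ : C1 φ)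
    (l : List (Fin (m+1) → List (Fin (m+1))))
    (hl : ∀ τ ∈ l, ∃ a, JPd m a ∧ HasDigits a τ) (x : Fin (m+1) → ℂ)
    (hx : Pc (pull φ (compList l)) x D 0) : Pc φ (cm (compList l) x) D l.length := by
  induction l generalizing φ with
  | nil =>
    have : pull φ (compList []) = φ := by
      funext j
      simp [pull, compList, ab_single, hh_ev]
    rw [this] at hx
    rw [cm_id]
    exact hx
  | cons τ l ih =>
    obtain ⟨a, ha, h⟩ := hl τ (List.mem_cons_self ..)
    rw [cm_cons, List.length_cons]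
    refine pc_step ha h hφ hD (ih (hφ.pull3 ha h)
      (fun τ' h' => hl τ' (List.mem_cons_of_mem _ h')) ?_)
    simp only [compList] at hx
    rw [pull_comp] at hx
    exact hx

theorem cm_iter {S : Fin (m+1) → List (Fin (m+1))} {x : Fin (m+1) → ℂ} {ν : ℂ}
    (h : cm S x = ν • x) (n : ℕ) : cm (iter S n) x = ν ^ n • x := by
  induction n with
  | zero =>
    have : iter S 0 = compList [] := by
      funext a; simp [iter_zero, compList]
    rw [this, cm_id, pow_zero, one_smul]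
  | succ n ih =>
    have h1 : iter S (n+1) = comp S (iter S n) := by
      funext a
      rw [iter_succ]; rfl
    rw [h1, cm_comp, ih, cm_smul, h, smul_smul, pow_succ]

theorem contr3 (φ : Fin (m+1) → ℝ) (lam : ℝ) (l : List (Fin (m+1) → List (Fin (m+1))))
    (hne : l ≠ []) (hl : ∀ τ ∈ l, ∃ a, JPd m a ∧ HasDigits a τ) (hφ : C1 φ) (_hlam : 1 < lam)
    (hpull : pull φ (compList l) = lam • φ) (ν : ℂ) (x : Fin (m+1) → ℂ) (hx : x ≠ 0)
    (hx0 : hc φ x = 0) (hν : cm (compList l) x = ν • x) : ‖ν‖ < 1 := by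
  obtain ⟨X, Y, hXY⟩ := exists_zc x
  -- the largest distance
  obtain ⟨p, hp, hpm⟩ := Finset.exists_max_image
    (Finset.range (m+1) ×ˢ Finset.range (m+1)) (fun p => ‖Y p.1 - Y p.2‖)
    ⟨(0, 0), by simp⟩
  obtain ⟨D, hDdef⟩ : ∃ D, D = ‖Y p.1 - Y p.2‖ := ⟨_, rfl⟩
  rw [Finset.mem_product, Finset.mem_range, Finset.mem_range] at hp
  have hD0 : 0 ≤ D := by rw [hDdef]; exact norm_nonneg _
  have hD : ∀ i, i ≤ m → ∀ j, j ≤ m → ‖Y i - Y j‖ ≤ D := by
    intro i hi j hj
    rw [hDdef]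
    exact hpm (i, j) (by rw [Finset.mem_product, Finset.mem_range, Finset.mem_range]; omega)
  have hDpos : 0 < D := by
    rcases lt_or_eq_of_le hD0 with h | h
    · exact h
    · exfalso
      apply hx
      have h6 : ∀ i, i ≤ m → Y i = Y 0 := by
        intro i hi
        have h7 := hD i hi 0 (by omega)
        rw [← h] at h7
        exact sub_eq_zero.1 (norm_le_zero_iff.1 h7)
      rw [hXY, hc_zc] at hx0
      have h7 : ∑ i ∈ Finset.range (m+1), (((xt φ i - xt φ (i+1) : ℝ)) : ℂ) * (X - Y i) =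
          ((φ 0 : ℝ) : ℂ) * (X - Y 0) := by
        rw [← sum_w φ]
        push_cast
        rw [Finset.sum_mul]
        refine Finset.sum_congr rfl fun i hi => ?_
        rw [h6 i (by have := Finset.mem_range.1 hi; omega)]
      rw [h7] at hx0
      have h8 : X - Y 0 = 0 := by
        rcases mul_eq_zero.1 hx0 with h9 | h9
        · have := hφ.pos' 0
          have h10 : φ 0 = 0 := by exact_mod_cast h9
          linarith
        · exact h9
      rw [hXY]
      funext i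
      refine Fin.cases ?_ (fun i => ?_) i
      · rw [zc_zero, h8]; rfl
      · rw [zc_succ, h6 i (by have := i.2; omega), h6 (i+1) (by have := i.2; omega), sub_self]
        rfl
  obtain ⟨l', hl'⟩ : ∃ l', l' = (List.replicate (m+1) l).flatten := ⟨_, rfl⟩
  have hlen : m + 1 ≤ l'.length := by rw [hl']; exact len_flatten l (m+1) hne
  have hc' : compList l' = iter (compList l) (m+1) := by rw [hl', compList_flatten]
  have h1 := pc_list hDpos hφ l' (fun τ hτ => by
    rw [hl'] at hτ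
    exact hl τ (mem_flatten_replicate hτ)) x ⟨X, Y, hXY, by
      rw [hc', pull_iter hpull]
      have h2 : hc (lam ^ (m+1) • φ) x = ((lam ^ (m+1) : ℝ) : ℂ) * hc φ x := by
        simp only [hc, Pi.smul_apply, smul_eq_mul, Finset.mul_sum]
        refine Finset.sum_congr rfl fun i _ => ?_
        push_cast
        ring
      rw [h2, hx0, mul_zero], hD, fun i _ h => absurd h (by omega)⟩
  rw [hc', cm_iter hν] at h1
  obtain ⟨X', Y', h2, -, -, h3⟩ := h1
  -- the differences are multiplied by the power of `ν`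
  have h4 : ∀ i, i < m → Y' i - Y' (i+1) = ν ^ (m+1) * (Y i - Y (i+1)) := by
    intro i hi
    have h5 := congrFun h2 (⟨i, hi⟩ : Fin m).succ
    rw [zc_succ, Pi.smul_apply, hXY, zc_succ, smul_eq_mul] at h5
    exact h5.symm
  have h5 : ∀ i, i ≤ m → Y' 0 - Y' i = ν ^ (m+1) * (Y 0 - Y i) := by
    intro i
    induction i with
    | zero => intro _; simp
    | succ i ih =>
      intro hi
      have h6 := ih (by omega)
      have h7 := h4 i (by omega)
      linear_combination h6 + h7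
  have h6 := h3 p.1 (by omega) (by omega) p.2 (by omega)
  have h7 : Y' p.1 - Y' p.2 = ν ^ (m+1) * (Y p.1 - Y p.2) := by
    have h8 := h5 p.1 (by omega)
    have h9 := h5 p.2 (by omega)
    linear_combination h9 - h8
  rw [h7, norm_mul, norm_pow, ← hDdef] at h6
  by_contra hcon
  push Not at hcon
  have h10 : 1 ≤ ‖ν‖ ^ (m+1) := one_le_pow₀ hcon
  nlinarith

theorem pull_pos' {φ : Fin (m+1) → ℝ} (hφ : ∀ i, 0 < φ i) {τ : Fin (m+1) → List (Fin (m+1))}
    (h : ∀ j, τ j ≠ []) (j : Fin (m+1)) : 0 < pull φ τ j := by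
  obtain ⟨a, w, hw⟩ := List.exists_cons_of_ne_nil (h j)
  change 0 < hh φ (ab (τ j))
  rw [hw, ab_cons, hh_add, hh_ev]
  linarith [hφ a, hh_ab_nonneg hφ w]

theorem image_ne_nil {a : ℕ → ℕ} (ha : JPd m a) {τ : Fin (m+1) → List (Fin (m+1))}
    (h : HasDigits a τ) (j : Fin (m+1)) : τ j ≠ [] := by
  intro hj
  have := zero_mem_image h j (ha.one_le (m - j) j (by have := j.2; omega))
  rw [hj] at this
  simp at this

theorem weak_step {a : ℕ → ℕ} (ha : JPd m a) {τ : Fin (m+1) → List (Fin (m+1))}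
    (h : HasDigits a τ) {φ : Fin (m+1) → ℝ} (hφ : 0 ≤ φ 0) {r : ℝ} (hr : r ≤ 0)
    (hw : ∀ k, k ≤ m → r ≤ xt φ k - xt φ (k+1)) (k : ℕ) (hk : k ≤ m) :
    r ≤ xt (pull φ τ) k - xt (pull φ τ) (k+1) := by
  rw [w_eq ha h φ k hk]
  by_cases hkm : k = m
  · rw [if_pos hkm]
    linarith
  · rw [if_neg hkm]
    have h1 := hw (k+1) (by omega)
    have h3 : (a (k+1) : ℝ) ≤ a k := by exact_mod_cast ha.mono k (by omega)
    have h4 : 0 ≤ ((a k : ℝ) - a (k+1)) * φ 0 := mul_nonneg (by linarith) hφ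
    linarith

theorem pull_pos_list (l : List (Fin (m+1) → List (Fin (m+1))))
    (hl : ∀ τ ∈ l, ∃ a, JPd m a ∧ HasDigits a τ) :
    ∀ φ : Fin (m+1) → ℝ, (∀ i, 0 < φ i) → ∀ i, 0 < pull φ (compList l) i := by
  induction l with
  | nil =>
    intro φ hφ
    have : pull φ (compList []) = φ := by
      funext j
      simp [pull, compList, ab_single, hh_ev]
    rw [this]
    exact hφ
  | cons τ l ih =>
    intro φ hφ
    obtain ⟨a, ha, hd⟩ := hl τ (List.mem_cons_self ..)
    simp only [compList]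
    rw [pull_comp]
    exact ih (fun τ' h' => hl τ' (List.mem_cons_of_mem _ h')) _ (pull_pos' hφ (image_ne_nil ha hd))

theorem weak_list (l : List (Fin (m+1) → List (Fin (m+1))))
    (hl : ∀ τ ∈ l, ∃ a, JPd m a ∧ HasDigits a τ) {r : ℝ} (hr : r ≤ 0) :
    ∀ φ : Fin (m+1) → ℝ, (∀ i, 0 < φ i) → (∀ k, k ≤ m → r ≤ xt φ k - xt φ (k+1)) →
      ∀ k, k ≤ m → r ≤ xt (pull φ (compList l)) k - xt (pull φ (compList l)) (k+1) := by
  induction l with
  | nil =>
    intro φ _ h
    have : pull φ (compList []) = φ := by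
      funext j
      simp [pull, compList, ab_single, hh_ev]
    rw [this]
    exact h
  | cons τ l ih =>
    intro φ hφ h
    obtain ⟨a, ha, hd⟩ := hl τ (List.mem_cons_self ..)
    simp only [compList]
    rw [pull_comp]
    exact ih (fun τ' h' => hl τ' (List.mem_cons_of_mem _ h')) _
      (pull_pos' hφ (image_ne_nil ha hd)) (weak_step ha hd (hφ 0).le hr h)

/-- after enough steps the weights are positive -/
theorem strict_list {φ : Fin (m+1) → ℝ} (hφ : ∀ i, 0 < φ i)
    (hw : ∀ k, k ≤ m → 0 ≤ xt φ k - xt φ (k+1)) (n : ℕ) :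
    ∀ (l : List (Fin (m+1) → List (Fin (m+1)))), (∀ τ ∈ l, ∃ a, JPd m a ∧ HasDigits a τ) →
      n + 1 ≤ l.length → ∀ k, k + n = m →
      0 < xt (pull φ (compList l)) k - xt (pull φ (compList l)) (k+1) := by
  induction n with
  | zero =>
    intro l hl hlen k hk
    obtain ⟨l', τ, rfl, -⟩ := exists_concat l 0 (by omega)
    obtain ⟨a, ha, hd⟩ := hl τ (by simp)
    rw [compList_concat, pull_comp, w_eq ha hd _ k (by omega), if_pos (by omega)]
    exact pull_pos_list l' (fun τ' h' => hl τ' (by simp [h'])) φ hφ 0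
  | succ n ih =>
    intro l hl hlen k hk
    obtain ⟨l', τ, rfl, hlen'⟩ := exists_concat l (n+1) (by omega)
    obtain ⟨a, ha, hd⟩ := hl τ (by simp)
    have hl' : ∀ τ ∈ l', ∃ a, JPd m a ∧ HasDigits a τ := fun τ' h' => hl τ' (by simp [h'])
    rw [compList_concat, pull_comp, w_eq ha hd _ k (by omega), if_neg (by omega)]
    have h1 := ih l' hl' hlen' (k+1) (by omega)
    have h2 := pull_pos_list l' hl' φ hφ 0
    have h3 : (a (k+1) : ℝ) ≤ a k := by exact_mod_cast ha.mono k (by omega)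
    have h4 : 0 ≤ ((a k : ℝ) - a (k+1)) * pull φ (compList l') 0 :=
      mul_nonneg (by linarith) h2.le
    linarith

theorem xt_smul (c : ℝ) (φ : Fin (m+1) → ℝ) (k : ℕ) : xt (c • φ) k = c * xt φ k := by
  unfold xt
  split_ifs <;> simp

theorem eig3 (φ : Fin (m+1) → ℝ) (lam : ℝ) (l : List (Fin (m+1) → List (Fin (m+1))))
    (hne : l ≠ []) (hl : ∀ τ ∈ l, ∃ a, JPd m a ∧ HasDigits a τ) (hφ : ∀ i, 0 < φ i)
    (hlam : 1 < lam) (hpull : pull φ (compList l) = lam • φ) : C1 φ := by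
  obtain ⟨k0, hk0, hmin⟩ := Finset.exists_min_image (Finset.range (m+1))
    (fun k => xt φ k - xt φ (k+1)) ⟨0, by simp⟩
  rw [Finset.mem_range] at hk0
  have hweak : ∀ k, k ≤ m → 0 ≤ xt φ k - xt φ (k+1) := by
    by_contra hcon
    push Not at hcon
    obtain ⟨k, hk, hk2⟩ := hcon
    obtain ⟨r, hr⟩ : ∃ r, r = xt φ k0 - xt φ (k0+1) := ⟨_, rfl⟩
    have h1 := hmin k (Finset.mem_range.2 (by omega))
    have hr0 : r < 0 := by rw [hr]; linarith
    have h2 := weak_list l hl hr0.le φ hφ (fun k hk => by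
      rw [hr]; exact hmin k (Finset.mem_range.2 (by omega))) k0 (by omega)
    rw [hpull, xt_smul, xt_smul, ← mul_sub, ← hr] at h2
    nlinarith
  have hlen : m + 1 ≤ ((List.replicate (m+1) l).flatten).length := len_flatten l (m+1) hne
  intro k hk
  have h1 := strict_list hφ hweak (m - k) ((List.replicate (m+1) l).flatten) (fun τ hτ =>
    hl τ (mem_flatten_replicate hτ)) (by omega) k (by omega)
  rw [compList_flatten, pull_iter hpull, xt_smul, xt_smul, ← mul_sub] at h1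
  have h2 : 0 < lam ^ (m+1) := pow_pos (by linarith) _
  have h3 := pos_of_mul_pos_right h1 h2.le
  linarith

theorem C1.anti {φ : Fin (m+1) → ℝ} (h : C1 φ) (k : ℕ) (hk : k + 1 ≤ m) : xt φ (k+1) < φ 0 := by
  induction k with
  | zero =>
    have := h 0 (by omega)
    rwa [xt_zero] at this
  | succ k ih => exact (h (k+1) (by omega)).trans (ih (by omega))

theorem fam3 (hm : 2 ≤ m) : Fam m (fun τ => ∃ a, JPd m a ∧ HasDigits a τ) C1 where
  dig := fun τ ⟨a, ha, h⟩ => ⟨a, h, ha.big, ha.last⟩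
  near := fun φ hφ l hne hl c => by
    obtain ⟨τ, l', rfl⟩ := List.exists_cons_of_ne_nil hne
    obtain ⟨a, ha, h⟩ := hl τ (List.mem_cons_self ..)
    refine nr_of_ok (fun i => hφ.pos' i) (fun i hi => ?_)
      (ok_ext h (fun j hj => ha.one_le (m - j) j (by omega)) (compList l' c) 0 (by omega))
    obtain ⟨j, rfl⟩ := Fin.exists_succ_eq.2 hi
    have h1 := xt_lt φ j.succ
    rw [Fin.val_succ] at h1
    rw [← h1]
    exact hφ.anti j (by have := j.2; omega)
  pos := fun φ h i => h.pos' i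
  lt := fun φ h i hi => by
    obtain ⟨j, rfl⟩ := Fin.exists_succ_eq.2 hi
    have h1 := xt_lt φ j.succ
    rw [Fin.val_succ] at h1
    rw [← h1]
    exact h.anti j (by have := j.2; omega)
  eig := eig3
  chain := fun K => ⟨(m + 2) * (2 * K), fun l hl hlen φ hφ X Y hS hK =>
    chain3 hm hφ (2 * K) (X - K) l X Y hl hlen hS
      (fun i hi => by have := abs_le.1 (hK i hi); omega)
      (fun i hi => by have := abs_le.1 (hK i hi); push_cast; omega)⟩
  contr := contr3

end Pool.Agent.W3helper16.PJ
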