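import Pool.Agent.W3helper16.PJ.Con3

/-!
Digits with a dominating first digit.
-/

set_option autoImplicit false

namespace Pool.Agent.W3helper16.PJ
open Pool.Agent.H812R2.PI Pool.Agent.Y316.Pisot
open scoped BigOperators

variable {m : ℕ}

/-- the first digit dominates, the last digit is one -/
structure Dm (m : ℕ) (a : ℕ → ℕ) : Prop where
  last : a m = 1
  big : 4 ≤ a 0
  dom : 2 + ∑ j ∈ Finset.range m, a (j+1) ≤ a 0

/-- the sum of the values at the letters different from `0` -/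
noncomputable def V (φ : Fin (m+1) → ℝ) : ℝ := ∑ j ∈ Finset.range m, xt φ (j+1)

/-- functionals dominated by the value at the letter `0` -/
def C2 (φ : Fin (m+1) → ℝ) : Prop := (∀ i, 0 < φ i) ∧ V φ < φ 0

theorem xt_nonneg {φ : Fin (m+1) → ℝ} (h : ∀ i, 0 < φ i) (k : ℕ) : 0 ≤ xt φ k := by
  unfold xt
  split_ifs
  · exact (h _).le
  · exact le_rfl

theorem V_pull {a : ℕ → ℕ} {τ : Fin (m+1) → List (Fin (m+1))} (h : HasDigits a τ)
    (φ : Fin (m+1) → ℝ) :
    V (pull φ τ) = ((∑ j ∈ Finset.range m, a (j+1) : ℕ) : ℝ) * φ 0 + (V φ - xt φ 1) := by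
  unfold V
  have h1 : ∀ j ∈ Finset.range m, xt (pull φ τ) (j+1) = a (j+1) * φ 0 + xt φ (j+2) :=
    fun j hj => h.xt_pull φ (j+1) (by have := Finset.mem_range.1 hj; omega)
  rw [Finset.sum_congr rfl h1, Finset.sum_add_distrib, ← Finset.sum_mul]
  have h2 : ∑ j ∈ Finset.range m, xt φ (j+2) - ∑ j ∈ Finset.range m, xt φ (j+1) =
      xt φ (m+1) - xt φ 1 := by
    rw [← Finset.sum_sub_distrib]
    exact Finset.sum_range_sub (fun j => xt φ (j+1)) m
  rw [xt_ge φ (le_refl (m+1))] at h2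
  push_cast
  linarith

theorem key2 {a : ℕ → ℕ} (ha : Dm m a) {τ : Fin (m+1) → List (Fin (m+1))} (h : HasDigits a τ)
    {φ : Fin (m+1) → ℝ} (h0 : 0 < φ 0) :
    2 * φ 0 + 2 * xt φ 1 - V φ ≤ pull φ τ 0 - V (pull φ τ) := by
  rw [V_pull h φ]
  have hp := h.xt_pull φ 0 (Nat.zero_le m)
  rw [xt_zero, zero_add] at hp
  rw [hp]
  have h1 : (2 : ℝ) + ((∑ j ∈ Finset.range m, a (j+1) : ℕ) : ℝ) ≤ a 0 := by
    exact_mod_cast ha.dom
  nlinarith

theorem ne_nil_of {a : ℕ → ℕ} (ha : a m = 1) {τ : Fin (m+1) → List (Fin (m+1))}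
    (h : HasDigits a τ) (j : Fin (m+1)) : τ j ≠ [] := by
  intro hj
  by_cases hc : (j : ℕ) = m
  · have := zero_mem_image h j (by rw [hc, ha])
    rw [hj] at this
    simp at this
  · have := h.succ_mem (i := ⟨j + 1, by have := j.2; omega⟩) (j := j) rfl
    rw [hj] at this
    simp at this

theorem V_nonneg {φ : Fin (m+1) → ℝ} (h : ∀ i, 0 < φ i) : 0 ≤ V φ :=
  Finset.sum_nonneg fun _ _ => xt_nonneg h _

theorem xt1_pos (hm : 1 ≤ m) {φ : Fin (m+1) → ℝ} (h : ∀ i, 0 < φ i) : 0 < xt φ 1 := by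
  unfold xt
  rw [dif_pos (by omega)]
  exact h _

theorem xt1_le_V (hm : 1 ≤ m) {φ : Fin (m+1) → ℝ} (h : ∀ i, 0 < φ i) : xt φ 1 ≤ V φ := by
  unfold V
  exact Finset.single_le_sum (f := fun j => xt φ (j+1)) (fun j _ => xt_nonneg h _)
    (Finset.mem_range.2 (show 0 < m by omega))

theorem C2.pull {a : ℕ → ℕ} (ha : Dm m a) {τ : Fin (m+1) → List (Fin (m+1))}
    (h : HasDigits a τ) {φ : Fin (m+1) → ℝ} (hφ : C2 φ) :
    C2 (Pool.Agent.Y316.Pisot.pull φ τ) := by
  refine ⟨pull_pos' hφ.1 (ne_nil_of ha.last h), ?_⟩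
  have h1 := key2 ha h (hφ.1 0)
  have h2 := hφ.2
  have h3 := xt_nonneg hφ.1 1
  have h4 := hφ.1 0
  linarith

theorem C2.pull_list {φ : Fin (m+1) → ℝ} (hφ : C2 φ)
    (l : List (Fin (m+1) → List (Fin (m+1))))
    (hl : ∀ τ ∈ l, ∃ a, Dm m a ∧ HasDigits a τ) :
    C2 (Pool.Agent.Y316.Pisot.pull φ (compList l)) := by
  induction l generalizing φ with
  | nil =>
    have : Pool.Agent.Y316.Pisot.pull φ (compList []) = φ := by
      funext j
      simp [Pool.Agent.Y316.Pisot.pull, compList, ab_single, hh_ev]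
    rw [this]
    exact hφ
  | cons τ l ih =>
    simp only [compList]
    rw [pull_comp]
    obtain ⟨a, ha, h⟩ := hl τ (List.mem_cons_self ..)
    exact ih (hφ.pull ha h) fun τ' h => hl τ' (List.mem_cons_of_mem _ h)

/-- the height in terms of the differences -/
theorem hh_zv2 (φ : Fin (m+1) → ℝ) (X : ℤ) (Y : ℕ → ℤ) :
    hh φ (zv X Y) = φ 0 * ((X : ℝ) - Y 0) +
      ∑ i ∈ Finset.range m, xt φ (i+1) * ((Y i : ℝ) - Y (i+1)) := by
  rw [hh_zv, sum_abel (xt φ) X (fun i => (Y i : ℝ)) m, xt_ge φ (le_refl (m+1)), xt_zero]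
  ring

theorem sum_bound {φ : Fin (m+1) → ℝ} (h : ∀ i, 0 < φ i) (D : ℤ) (Y : ℕ → ℤ)
    (hY : ∀ i, i < m → |Y i - Y (i+1)| ≤ D) :
    |∑ i ∈ Finset.range m, xt φ (i+1) * ((Y i : ℝ) - Y (i+1))| ≤ D * V φ := by
  refine (Finset.abs_sum_le_sum_abs _ _).trans ?_
  unfold V
  rw [Finset.mul_sum]
  refine Finset.sum_le_sum fun i hi => ?_
  rw [abs_mul, abs_of_nonneg (xt_nonneg h _), mul_comm]
  have h1 : |((Y i : ℝ) - Y (i+1))| ≤ D := by
    have := hY i (Finset.mem_range.1 hi)
    exact_mod_cast this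
  exact mul_le_mul_of_nonneg_right h1 (xt_nonneg h _)

theorem stepD (hm : 1 ≤ m) {a : ℕ → ℕ} (ha : Dm m a) {τ : Fin (m+1) → List (Fin (m+1))}
    (h : HasDigits a τ) {φ : Fin (m+1) → ℝ} (hφ : C2 φ) {X : ℤ} {Y : ℕ → ℤ} {D : ℤ}
    (hD : 1 ≤ D) (hS : St (pull φ τ) X Y) (hY : ∀ i, i < m → |Y i - Y (i+1)| ≤ D) :
    ∃ N N' : ℤ, |N - Y 0| ≤ D - 1 ∧ St φ N' (cs N Y) ∧
      ∀ l, Hl l N' (cs N Y) → Hl (l ++ [τ]) X Y := by
  have h0 := hφ.1 0
  have hφ' := hφ.pull ha h
  obtain ⟨x, hx⟩ : ∃ x, x = ∑ i ∈ Finset.range m, xt (pull φ τ) (i+1) *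
    ((Y i : ℝ) - Y (i+1)) := ⟨_, rfl⟩
  have hxb := sum_bound hφ'.1 D Y hY
  rw [← hx] at hxb
  have hxb' := abs_le.1 hxb
  have hhx : hh (pull φ τ) (zv X Y) = pull φ τ 0 * ((X : ℝ) - Y 0) + x := by
    rw [hh_zv2, hx]
  have hkey := key2 ha h h0
  have hV := hφ.2
  have hx1 := xt1_pos hm hφ.1
  have hgap : φ 0 + xt φ 1 < pull φ τ 0 - V (pull φ τ) := by linarith
  have hVn := V_nonneg hφ'.1
  have hp := h.xt_pull φ 0 (Nat.zero_le m)
  rw [xt_zero, zero_add] at hp
  have hA : (4 : ℝ) ≤ a 0 := by exact_mod_cast ha.big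
  have hp0 : 0 < pull φ τ 0 := hφ'.1 0
  obtain ⟨d, hd⟩ : ∃ d, d = X - Y 0 := ⟨_, rfl⟩
  have hdr : (X : ℝ) - Y 0 = d := by rw [hd]; push_cast; rfl
  obtain ⟨hS1, hS2⟩ := hS
  rw [hhx, hdr] at hS1 hS2
  have hDr : (1 : ℝ) ≤ D := by exact_mod_cast hD
  have hx1V : xt φ 1 < φ 0 := (xt1_le_V hm hφ.1).trans_lt hV
  -- general bounds
  have hdl : -D < d := by
    by_contra hc
    push Not at hc
    have hc' : (d : ℝ) ≤ -D := by exact_mod_cast hc
    have h1 : pull φ τ 0 * (d : ℝ) ≤ pull φ τ 0 * (-D) := mul_le_mul_of_nonneg_left hc' hp0.le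
    have h2 : (D : ℝ) * V (pull φ τ) < D * pull φ τ 0 :=
      mul_lt_mul_of_pos_left (by linarith) (by linarith)
    linarith
  have hdu : d < D + 1 := by
    by_contra hc
    push Not at hc
    have hc' : (D : ℝ) + 1 ≤ d := by exact_mod_cast hc
    have h1 : pull φ τ 0 * (D + 1) ≤ pull φ τ 0 * (d : ℝ) := mul_le_mul_of_nonneg_left hc' hp0.le
    have h2 : (D : ℝ) * V (pull φ τ) < D * pull φ τ 0 :=
      mul_lt_mul_of_pos_left (by linarith) (by linarith)
    linarith
  have hceil : hh (pull φ τ) (zv X Y) < ((a 0 : ℝ) - 1) * φ 0 → |X - Y 0| ≤ D - 1 →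
      ∃ N N' : ℤ, |N - Y 0| ≤ D - 1 ∧ St φ N' (cs N Y) ∧
      ∀ l, Hl l N' (cs N Y) → Hl (l ++ [τ]) X Y := by
    intro hu hN
    obtain ⟨N', h2, h3⟩ := step_ceil hm h h0 X Y (by rw [hhx, hdr]; exact hS1) hu
    exact ⟨X, N', hN, h2, h3⟩
  have hfloor : pull φ τ 0 - hh (pull φ τ) (zv X Y) ≤ ((a 0 : ℝ) - 1) * φ 0 →
      |X - 1 - Y 0| ≤ D - 1 → ∃ N N' : ℤ, |N - Y 0| ≤ D - 1 ∧ St φ N' (cs N Y) ∧
      ∀ l, Hl l N' (cs N Y) → Hl (l ++ [τ]) X Y := by
    intro hu hN
    obtain ⟨N', h2, h3⟩ := step_floor hm h h0 X Y (by rw [hhx, hdr]; exact hS2) hu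
    exact ⟨X - 1, N', hN, h2, h3⟩
  rw [hhx, hdr] at hceil hfloor
  by_cases hd1 : 1 ≤ d
  · by_cases hf : pull φ τ 0 - (pull φ τ 0 * (d : ℝ) + x) ≤ ((a 0 : ℝ) - 1) * φ 0
    · exact hfloor hf (by rw [abs_le]; omega)
    · push Not at hf
      refine hceil (by rw [hp] at hf hp0 hS1 ⊢; nlinarith) ?_
      have h1 : d ≤ D - 1 := by
        by_contra hc
        push Not at hc
        have hc' : (D : ℝ) ≤ d := by
          have : D ≤ d := by omega
          exact_mod_cast this
        have h2 : pull φ τ 0 * D ≤ pull φ τ 0 * (d : ℝ) :=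
          mul_le_mul_of_nonneg_left hc' hp0.le
        have h3 : (D : ℝ) * (φ 0 + xt φ 1) < D * (pull φ τ 0 - V (pull φ τ)) :=
          mul_lt_mul_of_pos_left hgap (by linarith)
        have h4 : φ 0 + xt φ 1 ≤ (D : ℝ) * (φ 0 + xt φ 1) := by nlinarith
        have h5 : pull φ τ 0 * (d : ℝ) + x < φ 0 + xt φ 1 := by
          have : pull φ τ 0 - ((a 0 : ℝ) - 1) * φ 0 = φ 0 + xt φ 1 := by rw [hp]; ring
          linarith
        linarith
      rw [abs_le]; omega
  · push Not at hd1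
    by_cases hf : pull φ τ 0 * (d : ℝ) + x < ((a 0 : ℝ) - 1) * φ 0
    · exact hceil hf (by rw [abs_le]; omega)
    · push Not at hf
      have h6 : pull φ τ 0 - (pull φ τ 0 * (d : ℝ) + x) ≤ φ 0 + xt φ 1 := by
        have : pull φ τ 0 - ((a 0 : ℝ) - 1) * φ 0 = φ 0 + xt φ 1 := by rw [hp]; ring
        linarith
      refine hfloor (by nlinarith) ?_
      have h1 : 2 - D ≤ d := by
        by_contra hc
        push Not at hc
        have hc' : (d : ℝ) ≤ 1 - D := by
          have : d ≤ 1 - D := by omega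
          exact_mod_cast this
        have h2 : pull φ τ 0 * (d : ℝ) ≤ pull φ τ 0 * (1 - D) :=
          mul_le_mul_of_nonneg_left hc' hp0.le
        have h3 : (D : ℝ) * (φ 0 + xt φ 1) < D * (pull φ τ 0 - V (pull φ τ)) :=
          mul_lt_mul_of_pos_left hgap (by linarith)
        have h4 : φ 0 + xt φ 1 ≤ (D : ℝ) * (φ 0 + xt φ 1) := by nlinarith
        linarith
      rw [abs_le]; omega

theorem chain2 (hm : 1 ≤ m) {φ : Fin (m+1) → ℝ} (hφ : C2 φ) (D : ℕ) :
    ∀ (l : List (Fin (m+1) → List (Fin (m+1)))) (X : ℤ) (Y : ℕ → ℤ),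
      (∀ τ ∈ l, ∃ a, Dm m a ∧ HasDigits a τ) → m * D ≤ l.length →
      St (pull φ (compList l)) X Y → (∀ i, i < m → |Y i - Y (i+1)| ≤ D) → Hl l X Y := by
  induction D with
  | zero =>
    intro l X Y hl _ hS hY
    have hc : ∀ i, i ≤ m → Y i = Y 0 := by
      intro i
      induction i with
      | zero => intro _; rfl
      | succ i ih =>
        intro hi
        have h1 := hY i (by omega)
        have h2 := ih (by omega)
        rw [Nat.cast_zero] at h1
        have h3 := abs_nonpos_iff.1 h1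
        omega
    refine hl_const l (fun τ hτ => ?_) X (Y 0) Y hS hc ((hφ.pull_list l hl).1 0)
    obtain ⟨a, ha, h⟩ := hl τ hτ
    exact zero_mem_image h 0 (by have := ha.big; simpa using by omega)
  | succ D ih =>
    have key : ∀ j : ℕ, ∀ (l : List (Fin (m+1) → List (Fin (m+1)))) (X : ℤ) (Y : ℕ → ℤ),
        (∀ τ ∈ l, ∃ a, Dm m a ∧ HasDigits a τ) → m * D + j ≤ l.length →
        St (pull φ (compList l)) X Y → (∀ i, i < m → |Y i - Y (i+1)| ≤ (D : ℤ) + 1) →
        (∀ i, i + j < m → |Y i - Y (i+1)| ≤ D) → Hl l X Y := by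
      intro j
      induction j with
      | zero =>
        intro l X Y hl hlen hS _ hY
        exact ih l X Y hl (by omega) hS (fun i hi => hY i (by omega))
      | succ j ihj =>
        intro l X Y hl hlen hS h1 h2
        obtain ⟨l', τ, rfl, hlen'⟩ := exists_concat l (m * D + j) hlen
        obtain ⟨a, ha, h⟩ := hl τ (by simp)
        have hl' : ∀ τ ∈ l', ∃ a, Dm m a ∧ HasDigits a τ := fun τ' h' => hl τ' (by simp [h'])
        rw [compList_concat, pull_comp] at hS
        obtain ⟨N, N', hN, hS', htr⟩ := stepD hm ha h (hφ.pull_list l' hl')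
          (show (1 : ℤ) ≤ (D : ℤ) + 1 by omega) hS h1
        rw [add_sub_cancel_right] at hN
        refine htr l' (ihj l' N' (cs N Y) hl' hlen' hS' ?_ ?_)
        · intro i hi
          cases i with
          | zero =>
            change |N - Y 0| ≤ (D : ℤ) + 1
            omega
          | succ k => exact h1 k (by omega)
        · intro i hi
          cases i with
          | zero => exact hN
          | succ k => exact h2 k (by omega)
    intro l X Y hl hlen hS hY
    refine key m l X Y hl ?_ hS (fun i hi => ?_) (fun i hi => by omega)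
    · calc m * D + m = m * (D + 1) := by ring
        _ ≤ l.length := hlen
    · have := hY i hi
      push_cast at this
      exact this

/-- the state of a complex vector: the coordinates different from `0` are at most `D`; the first
`k` of them are smaller -/
def P2 (φ : Fin (m+1) → ℝ) (x : Fin (m+1) → ℂ) (D : ℝ) (k : ℕ) : Prop :=
  hc φ x = 0 ∧ (∀ i : Fin m, ‖x i.succ‖ ≤ D) ∧ (∀ i : Fin m, (i : ℕ) < k → ‖x i.succ‖ < D)

theorem V_eq (φ : Fin (m+1) → ℝ) : V φ = ∑ i : Fin m, φ i.succ := by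
  unfold V
  rw [← Fin.sum_univ_eq_sum_range (fun j => xt φ (j+1)) m]
  refine Finset.sum_congr rfl fun i _ => ?_
  have := xt_lt φ i.succ
  rw [Fin.val_succ] at this
  exact this

theorem zero_lt {φ : Fin (m+1) → ℝ} (hφ : C2 φ) {x : Fin (m+1) → ℂ} {D : ℝ} (hD : 0 < D)
    (h0 : hc φ x = 0) (h1 : ∀ i : Fin m, ‖x i.succ‖ ≤ D) : ‖x 0‖ < D := by
  unfold hc at h0
  rw [Fin.sum_univ_succ] at h0
  have h2 : ((φ 0 : ℝ) : ℂ) * x 0 = -∑ i : Fin m, ((φ i.succ : ℝ) : ℂ) * x i.succ :=
    eq_neg_of_add_eq_zero_left h0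
  have h3 : φ 0 * ‖x 0‖ ≤ V φ * D := by
    calc φ 0 * ‖x 0‖ = ‖((φ 0 : ℝ) : ℂ) * x 0‖ := by
          rw [norm_mul, Complex.norm_real, Real.norm_eq_abs, abs_of_pos (hφ.1 0)]
      _ = ‖∑ i : Fin m, ((φ i.succ : ℝ) : ℂ) * x i.succ‖ := by rw [h2, norm_neg]
      _ ≤ ∑ i : Fin m, φ i.succ * D := by
          refine (norm_sum_le _ _).trans (Finset.sum_le_sum fun i _ => ?_)
          rw [norm_mul, Complex.norm_real, Real.norm_eq_abs, abs_of_pos (hφ.1 _)]
          exact mul_le_mul_of_nonneg_left (h1 i) (hφ.1 _).le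
      _ = V φ * D := by rw [V_eq, Finset.sum_mul]
  have h4 : φ 0 * ‖x 0‖ < φ 0 * D := h3.trans_lt (mul_lt_mul_of_pos_right hφ.2 hD)
  exact lt_of_mul_lt_mul_left h4 (hφ.1 0).le

theorem p2_step {a : ℕ → ℕ} (ha : Dm m a) {τ : Fin (m+1) → List (Fin (m+1))}
    (h : HasDigits a τ) {φ : Fin (m+1) → ℝ} (hφ : C2 φ) {x : Fin (m+1) → ℂ} {D : ℝ} (hD : 0 < D)
    {k : ℕ} (hx : P2 (pull φ τ) x D k) : P2 φ (cm τ x) D (k+1) := by
  obtain ⟨h0, h1, h2⟩ := hx
  have h3 := zero_lt (hφ.pull ha h) hD h0 h1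
  refine ⟨by rw [hc_cm]; exact h0, fun i => ?_, fun i hi => ?_⟩
  · rw [h.cm_succ]
    obtain ⟨i, hi'⟩ := i
    cases i with
    | zero => exact h3.le
    | succ i => exact h1 ⟨i, by omega⟩
  · rw [h.cm_succ]
    obtain ⟨i, hi'⟩ := i
    cases i with
    | zero => exact h3
    | succ i => exact h2 ⟨i, by omega⟩ (by simp only at hi ⊢; omega)

theorem p2_list {D : ℝ} (hD : 0 < D) {φ : Fin (m+1) → ℝ} (hφ : C2 φ)
    (l : List (Fin (m+1) → List (Fin (m+1))))
    (hl : ∀ τ ∈ l, ∃ a, Dm m a ∧ HasDigits a τ) (x : Fin (m+1) → ℂ)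
    (hx : P2 (pull φ (compList l)) x D 0) : P2 φ (cm (compList l) x) D l.length := by
  induction l generalizing φ with
  | nil =>
    have : pull φ (compList []) = φ := by
      funext j
      simp [pull, compList, ab_single, hh_ev]
    rw [this] at hx
    rw [cm_id]
    exact hx
  | cons τ l ih =>
    obtain ⟨a, ha, h⟩ := hl τ (List.mem_cons_self ..)
    rw [cm_cons, List.length_cons]
    refine p2_step ha h hφ hD (ih (hφ.pull ha h)
      (fun τ' h' => hl τ' (List.mem_cons_of_mem _ h')) ?_)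
    simp only [compList] at hx
    rw [pull_comp] at hx
    exact hx

theorem contr2 (φ : Fin (m+1) → ℝ) (lam : ℝ) (l : List (Fin (m+1) → List (Fin (m+1))))
    (hne : l ≠ []) (hl : ∀ τ ∈ l, ∃ a, Dm m a ∧ HasDigits a τ) (hφ : C2 φ) (_hlam : 1 < lam)
    (hpull : pull φ (compList l) = lam • φ) (ν : ℂ) (x : Fin (m+1) → ℂ) (hx : x ≠ 0)
    (hx0 : hc φ x = 0) (hν : cm (compList l) x = ν • x) : ‖ν‖ < 1 := by
  by_cases hall : ∀ i : Fin m, x i.succ = 0
  · exfalso
    apply hx
    unfold hc at hx0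
    rw [Fin.sum_univ_succ] at hx0
    have h1 : ∑ i : Fin m, ((φ i.succ : ℝ) : ℂ) * x i.succ = 0 :=
      Finset.sum_eq_zero fun i _ => by rw [hall, mul_zero]
    rw [h1, add_zero] at hx0
    have h2 : x 0 = 0 := by
      rcases mul_eq_zero.1 hx0 with h3 | h3
      · have h4 : φ 0 = 0 := by exact_mod_cast h3
        have := hφ.1 0
        linarith
      · exact h3
    funext i
    refine Fin.cases h2 (fun i => hall i) i
  · push Not at hall
    obtain ⟨i0, hi0⟩ := hall
    obtain ⟨p, -, hpm⟩ := Finset.exists_max_image (Finset.univ : Finset (Fin m))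
      (fun i => ‖x i.succ‖) ⟨i0, Finset.mem_univ _⟩
    obtain ⟨D, hDdef⟩ : ∃ D, D = ‖x p.succ‖ := ⟨_, rfl⟩
    have hDpos : 0 < D := by
      rw [hDdef]
      exact (norm_pos_iff.2 hi0).trans_le (hpm i0 (Finset.mem_univ _))
    have h1 := p2_list hDpos hφ ((List.replicate m l).flatten) (fun τ hτ =>
      hl τ (mem_flatten_replicate hτ)) x ⟨by
        rw [compList_flatten, pull_iter hpull]
        have h2 : hc (lam ^ m • φ) x = ((lam ^ m : ℝ) : ℂ) * hc φ x := by
          simp only [hc, Pi.smul_apply, smul_eq_mul, Finset.mul_sum]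
          refine Finset.sum_congr rfl fun i _ => ?_
          push_cast
          ring
        rw [h2, hx0, mul_zero], fun i => by
          rw [hDdef]; exact hpm i (Finset.mem_univ _), fun i h => absurd h (by omega)⟩
    rw [compList_flatten, cm_iter hν] at h1
    have hlen : m ≤ ((List.replicate m l).flatten).length := len_flatten l m hne
    have h2 := h1.2.2 p (by have := p.2; omega)
    rw [Pi.smul_apply, smul_eq_mul, norm_mul, norm_pow, ← hDdef] at h2
    by_contra hcon
    push Not at hcon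
    have h10 : 1 ≤ ‖ν‖ ^ m := one_le_pow₀ hcon
    nlinarith

theorem pull_pos_list2 (l : List (Fin (m+1) → List (Fin (m+1))))
    (hl : ∀ τ ∈ l, ∃ a, Dm m a ∧ HasDigits a τ) {δ : ℝ} :
    ∀ φ : Fin (m+1) → ℝ, (∀ i, 0 < φ i) → δ ≤ φ 0 - V φ →
      δ ≤ pull φ (compList l) 0 - V (pull φ (compList l)) := by
  induction l with
  | nil =>
    intro φ hφ h
    have : pull φ (compList []) = φ := by
      funext j
      simp [pull, compList, ab_single, hh_ev]
    rw [this]
    exact h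
  | cons τ l ih =>
    intro φ hφ h
    obtain ⟨a, ha, hd⟩ := hl τ (List.mem_cons_self ..)
    simp only [compList]
    rw [pull_comp]
    refine ih (fun τ' h' => hl τ' (List.mem_cons_of_mem _ h')) _
      (pull_pos' hφ (ne_nil_of ha.last hd)) ?_
    have h1 := key2 ha hd (hφ 0)
    have h2 := xt_nonneg hφ 1
    have h3 := hφ 0
    linarith

theorem V_smul (c : ℝ) (φ : Fin (m+1) → ℝ) : V (c • φ) = c * V φ := by
  unfold V
  rw [Finset.mul_sum]
  exact Finset.sum_congr rfl fun j _ => xt_smul c φ (j+1)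

theorem eig2 (φ : Fin (m+1) → ℝ) (lam : ℝ) (l : List (Fin (m+1) → List (Fin (m+1))))
    (hne : l ≠ []) (hl : ∀ τ ∈ l, ∃ a, Dm m a ∧ HasDigits a τ) (hφ : ∀ i, 0 < φ i)
    (hlam : 1 < lam) (hpull : pull φ (compList l) = lam • φ) : C2 φ := by
  have h1 := pull_pos_list2 l hl φ hφ (le_refl (φ 0 - V φ))
  rw [hpull, V_smul, Pi.smul_apply, smul_eq_mul, ← mul_sub] at h1
  have hw : 0 ≤ φ 0 - V φ := by
    by_contra hc
    push Not at hc
    nlinarith
  obtain ⟨τ, l', rfl⟩ := List.exists_cons_of_ne_nil hne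
  obtain ⟨a, ha, hd⟩ := hl τ (List.mem_cons_self ..)
  have h2 : φ 0 ≤ pull φ τ 0 - V (pull φ τ) := by
    have h1 := key2 ha hd (hφ 0)
    have h2 := xt_nonneg hφ 1
    linarith
  have h3 := pull_pos_list2 l' (fun τ' h' => hl τ' (List.mem_cons_of_mem _ h')) (pull φ τ)
    (pull_pos' hφ (ne_nil_of ha.last hd)) h2
  rw [← pull_comp] at h3
  change φ 0 ≤ pull φ (compList (τ :: l')) 0 - V (pull φ (compList (τ :: l'))) at h3
  rw [hpull, V_smul, Pi.smul_apply, smul_eq_mul, ← mul_sub] at h3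
  refine ⟨hφ, ?_⟩
  have h4 := hφ 0
  by_contra hc
  push Not at hc
  nlinarith

/-- the suffixes of the image of a word -/
theorem suffix_ext (τ : Fin (m+1) → List (Fin (m+1))) (u : List (Fin (m+1))) :
    ∀ s t, ext τ u = s ++ t → t = [] ∨ ∃ s1 x t1 p q, u = s1 ++ x :: t1 ∧ τ x = p ++ q ∧
      t = q ++ ext τ t1 := by
  induction u with
  | nil =>
    intro s t h
    left
    simp [ext] at h
    exact h.2
  | cons b u ih =>
    intro s t h
    rw [ext_cons, List.append_eq_append_iff] at h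
    rcases h with ⟨c, h1, h2⟩ | ⟨c, h1, h2⟩
    · rcases ih c t h2 with h3 | ⟨s1, x, t1, p, q, h3, h4, h5⟩
      · left; exact h3
      · right
        exact ⟨b :: s1, x, t1, p, q, by rw [h3]; rfl, h4, h5⟩
    · right
      exact ⟨[], b, u, s, c, rfl, h1, h2⟩

theorem tw_append_le (i : Fin (m+1)) (x y : List (Fin (m+1))) :
    ((x ++ y).takeWhile nz).count i ≤ x.count i + (y.takeWhile nz).count i := by
  induction x with
  | nil => simp
  | cons b x ih =>
    rw [List.cons_append]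
    by_cases hb : b = 0
    · rw [hb, List.takeWhile_cons_of_neg (by simp [nz])]
      simp
    · rw [List.takeWhile_cons_of_pos (by simp [nz, hb]), List.count_cons, List.count_cons]
      omega

theorem tw_append_mem (i : Fin (m+1)) (x y : List (Fin (m+1))) (h : (0 : Fin (m+1)) ∈ x) :
    ((x ++ y).takeWhile nz).count i ≤ x.count i := by
  induction x with
  | nil => simp at h
  | cons b x ih =>
    rw [List.cons_append]
    by_cases hb : b = 0
    · rw [hb, List.takeWhile_cons_of_neg (by simp [nz])]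
      simp
    · rw [List.takeWhile_cons_of_pos (by simp [nz, hb]), List.count_cons, List.count_cons]
      rcases List.mem_cons.1 h with h1 | h1
      · exact absurd h1.symm hb
      · have := ih h1
        omega

theorem count_image {a : ℕ → ℕ} {τ : Fin (m+1) → List (Fin (m+1))} (h : HasDigits a τ)
    {i j : Fin (m+1)} (hij : (i : ℕ) = j + 1) (x : Fin (m+1)) :
    (τ x).count i = if x = j then 1 else 0 := by
  have hi : i ≠ 0 := by
    intro h
    rw [h] at hij
    simp at hij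
  have h1 := h i x
  rw [if_neg hi] at h1
  unfold inc at h1
  by_cases hx : x = j
  · rw [if_pos hx]
    rw [if_pos (by rw [hx, hij])] at h1
    exact_mod_cast h1
  · rw [if_neg hx]
    rw [if_neg (fun h2 => hx (Fin.ext (by omega)))] at h1
    exact_mod_cast h1

theorem tw_ext {a : ℕ → ℕ} {τ : Fin (m+1) → List (Fin (m+1))} (ha : Dm m a) (h : HasDigits a τ)
    {i j : Fin (m+1)} (hij : (i : ℕ) = j + 1) (u : List (Fin (m+1))) :
    ((ext τ u).takeWhile nz).count i ≤
      (if j = 0 then 1 else 0) + (u.takeWhile nz).count j := by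
  induction u with
  | nil => simp [ext]
  | cons y u ih =>
    rw [ext_cons]
    by_cases hy : y = 0
    · have h1 := tw_append_mem i (τ y) (ext τ u)
        (by rw [hy]; exact zero_mem_image h 0 (by have := ha.big; simpa using by omega))
      rw [count_image h hij, hy] at h1
      rw [hy, List.takeWhile_cons_of_neg (by simp [nz])]
      refine h1.trans ?_
      by_cases hj : j = 0
      · rw [hj]; simp
      · rw [if_neg (Ne.symm hj), if_neg hj]; simp
    · have h1 := tw_append_le i (τ y) (ext τ u)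
      rw [count_image h hij] at h1
      rw [List.takeWhile_cons_of_pos (by simp [nz, hy]), List.count_cons]
      by_cases hyj : y = j
      · subst hyj
        rw [if_pos rfl] at h1
        rw [if_pos (beq_self_eq_true y)]
        omega
      · rw [if_neg hyj] at h1
        have h3 : (if (y == j) = true then 1 else 0) = 0 := if_neg (by simpa using hyj)
        rw [h3]
        omega

theorem tw_two (l : List (Fin (m+1) → List (Fin (m+1))))
    (hl : ∀ τ ∈ l, ∃ a, Dm m a ∧ HasDigits a τ) (c : Fin (m+1)) :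
    ∀ s t, compList l c = s ++ t → ∀ i, i ≠ 0 → (t.takeWhile nz).count i ≤ 2 := by
  induction l with
  | nil =>
    intro s t h i _
    have h1 : t.length ≤ 1 := by
      have := congrArg List.length h
      simp [compList] at this
      omega
    have h2 : (t.takeWhile nz).count i ≤ (t.takeWhile nz).length := List.count_le_length
    have h3 : (t.takeWhile nz).length ≤ t.length := (List.takeWhile_sublist _).length_le
    omega
  | cons τ l ih =>
    intro s t h i hi
    have ih := ih fun τ' h' => hl τ' (List.mem_cons_of_mem _ h')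
    obtain ⟨a, ha, hd⟩ := hl τ (List.mem_cons_self ..)
    simp only [compList, comp] at h
    obtain ⟨j, hij⟩ : ∃ j : Fin (m+1), (i : ℕ) = j + 1 := by
      obtain ⟨j, rfl⟩ := Fin.exists_succ_eq.2 hi
      exact ⟨j.castSucc, by simp⟩
    rcases suffix_ext τ (compList l c) s t h with h1 | ⟨s1, x, t1, p, q, h1, h2, h3⟩
    · rw [h1]; simp
    · rw [h3]
      have e1 := tw_append_le i q (ext τ t1)
      have e2 := tw_ext ha hd hij t1
      have e3 : q.count i ≤ if x = j then 1 else 0 := by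
        rw [← count_image hd hij x, h2, List.count_append]
        omega
      by_cases hj : j = 0
      · rw [hj] at e2 e3
        have e4 : (t1.takeWhile nz).count 0 = 0 := by
          rw [List.count_eq_zero]
          intro h4
          have := List.mem_takeWhile_imp h4
          simp [nz] at this
        rw [if_pos rfl, e4] at e2
        split_ifs at e3 <;> omega
      · rw [if_neg hj] at e2
        by_cases hx : x = j
        · rw [if_pos hx] at e3
          have e5 := ih s1 (x :: t1) h1 j hj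
          rw [List.takeWhile_cons_of_pos (by simp [nz, hx, hj]), List.count_cons, hx] at e5
          simp only [beq_self_eq_true, if_true] at e5
          omega
        · rw [if_neg hx] at e3
          have e5 := ih (s1 ++ [x]) t1 (by rw [h1]; simp) j hj
          omega

theorem near2 {φ : Fin (m+1) → ℝ} (hφ : C2 φ) (l : List (Fin (m+1) → List (Fin (m+1))))
    (hl : ∀ τ ∈ l, ∃ a, Dm m a ∧ HasDigits a τ) (c : Fin (m+1)) : Nr φ (compList l c) := by
  intro s t h
  have h1 := tw_two l hl c s t h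
  unfold hh
  rw [Fin.sum_univ_succ]
  have h2 : ab (t.takeWhile nz) 0 = 0 := by
    unfold ab
    rw [List.count_eq_zero.2]
    · rfl
    · intro h4
      have := List.mem_takeWhile_imp h4
      simp [nz] at this
  have h3 : ∑ i : Fin m, φ i.succ * ((ab (t.takeWhile nz) i.succ : ℤ) : ℝ) ≤
      ∑ i : Fin m, φ i.succ * 2 := by
    refine Finset.sum_le_sum fun i _ => ?_
    refine mul_le_mul_of_nonneg_left ?_ (hφ.1 _).le
    have h4 := h1 i.succ (Fin.succ_ne_zero i)
    unfold ab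
    exact_mod_cast h4
  rw [← Finset.sum_mul, ← V_eq] at h3
  rw [h2]
  have := hφ.2
  push_cast
  linarith

theorem fam2 (hm : 1 ≤ m) : Fam m (fun τ => ∃ a, Dm m a ∧ HasDigits a τ) C2 where
  dig := fun τ ⟨a, ha, h⟩ => ⟨a, h, ha.big, ha.last⟩
  near := fun φ hφ l _ hl c => near2 hφ l hl c
  pos := fun φ h i => h.1 i
  lt := fun φ h i hi => by
    obtain ⟨j, rfl⟩ := Fin.exists_succ_eq.2 hi
    have h1 : φ j.succ ≤ V φ := by
      rw [V_eq]
      exact Finset.single_le_sum (f := fun i : Fin m => φ i.succ) (fun k _ => (h.1 _).le)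
        (Finset.mem_univ j)
    exact h1.trans_lt h.2
  eig := eig2
  chain := fun K => ⟨m * (2 * K), fun l hl hlen φ hφ X Y hS hK =>
    chain2 hm hφ (2 * K) l X Y hl hlen hS (fun i hi => by
      have h1 := abs_le.1 (hK i (by omega))
      have h2 := abs_le.1 (hK (i+1) (by omega))
      rw [abs_le]
      push_cast
      omega)⟩
  contr := contr2

end Pool.Agent.W3helper16.PJ
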