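import Pool.Agent.Y316.Pisot.Pis
import Pool.Agent.H906R3.CY.PF

/-!
Unimodular integer matrices with a left eigenvector for an eigenvalue larger than one and
contracted eigenvectors in its kernel are unimodular irreducible Pisot matrices.
-/

set_option autoImplicit false

namespace Pool.Agent.W3helper16.PJ
open Pool.Agent.H812R2.PI Pool.Agent.Y316.Pisot
open scoped BigOperators

variable {m : ℕ}

/-- the value of a real functional at a complex vector -/
noncomputable def hc (v : Fin (m+1) → ℝ) (x : Fin (m+1) → ℂ) : ℂ := ∑ i, (v i : ℂ) * x i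

theorem hc_add (v : Fin (m+1) → ℝ) (x y : Fin (m+1) → ℂ) : hc v (x + y) = hc v x + hc v y := by
  simp [hc, mul_add, Finset.sum_add_distrib]

theorem hc_sub (v : Fin (m+1) → ℝ) (x y : Fin (m+1) → ℂ) : hc v (x - y) = hc v x - hc v y := by
  simp [hc, mul_sub, Finset.sum_sub_distrib]

theorem hc_smul (v : Fin (m+1) → ℝ) (c : ℂ) (x : Fin (m+1) → ℂ) : hc v (c • x) = c * hc v x := by
  simp only [hc, Pi.smul_apply, smul_eq_mul, Finset.mul_sum]
  exact Finset.sum_congr rfl fun i _ => by ring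

theorem hc_mulVec (M : Matrix (Fin (m+1)) (Fin (m+1)) ℤ) (v w : Fin (m+1) → ℝ)
    (hv : ∀ j, ∑ i, v i * (M i j : ℝ) = w j) (x : Fin (m+1) → ℂ) :
    hc v ((M.map (Int.cast : ℤ → ℂ)).mulVec x) = hc w x := by
  simp only [hc, Matrix.mulVec, dotProduct, Matrix.map_apply, Finset.mul_sum]
  rw [Finset.sum_comm]
  refine Finset.sum_congr rfl fun j _ => ?_
  rw [← hv j]
  push_cast
  rw [Finset.sum_mul]
  exact Finset.sum_congr rfl fun i _ => by ring

theorem pis_of_left (M : Matrix (Fin (m+1)) (Fin (m+1)) ℤ) (hdet : M.det = 1 ∨ M.det = -1)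
    (v : Fin (m+1) → ℝ) (lam : ℝ) (hlam : 1 < lam)
    (hv : ∀ j, ∑ i, v i * (M i j : ℝ) = lam * v j)
    (hcon : ∀ (ν : ℂ) (x : Fin (m+1) → ℂ), x ≠ 0 → hc v x = 0 →
      (M.map (Int.cast : ℤ → ℂ)).mulVec x = ν • x → ‖ν‖ < 1) : PisotMat M := by
  have hmonic : M.charpoly.Monic := M.charpoly_monic
  have hdeg : 0 < M.charpoly.natDegree := by
    rw [Matrix.charpoly_natDegree_eq_dim]
    simp
  have hdet0 : M.det ≠ 0 := by
    rcases hdet with h | h <;> rw [h] <;> norm_num
  have h0 : M.charpoly.coeff 0 ≠ 0 := by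
    have h1 := Matrix.det_eq_sign_charpoly_coeff M
    rw [h1] at hdet0
    exact (mul_ne_zero_iff.1 hdet0).2
  have hvx : ∀ x, hc v ((M.map (Int.cast : ℤ → ℂ)).mulVec x) = lam * hc v x := by
    intro x
    rw [hc_mulVec M v (fun j => lam * v j) hv x]
    simp only [hc, Finset.mul_sum]
    refine Finset.sum_congr rfl fun i _ => ?_
    push_cast
    ring
  have hothers : ∀ ν : ℂ, (M.charpoly.map (Int.castRingHom ℂ)).IsRoot ν → ν ≠ (lam : ℂ) →
      ‖ν‖ < 1 := by
    intro ν hν hne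
    obtain ⟨w, hw, hwν⟩ := eig (M.map (Int.cast : ℤ → ℂ)) ν (by rw [charpoly_cast]; exact hν)
    refine hcon ν w hw ?_ hwν
    have h1 := hvx w
    rw [hwν, hc_smul] at h1
    have h2 : (ν - lam) * hc v w = 0 := by linear_combination h1
    rcases mul_eq_zero.1 h2 with h3 | h3
    · exact absurd (sub_eq_zero.1 h3) hne
    · exact h3
  have hbig : ∀ ν : ℂ, (M.charpoly.map (Int.castRingHom ℂ)).IsRoot ν → 1 ≤ ‖ν‖ →
      ν = (lam : ℂ) := by
    intro ν hν h1
    by_contra hne
    have := hothers ν hν hne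
    linarith
  obtain ⟨μ, hμ, hμ1⟩ := exists_big_root M.charpoly hmonic hdeg h0
  have hμl := hbig μ hμ hμ1
  rw [hμl] at hμ
  have hroot : (M.map (Int.cast : ℤ → ℂ)).charpoly.IsRoot (lam : ℂ) := by
    rw [charpoly_cast]; exact hμ
  obtain ⟨u, hu, huμ⟩ := eig (M.map (Int.cast : ℤ → ℂ)) lam hroot
  have hnl : ‖(lam : ℂ)‖ = lam := by
    rw [Complex.norm_real, Real.norm_eq_abs, abs_of_pos (by linarith)]
  have hvu : hc v u ≠ 0 := by
    intro h
    have := hcon lam u hu h huμ
    rw [hnl] at this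
    linarith
  have hsimple : (M.charpoly.map (Int.castRingHom ℂ)).rootMultiplicity (lam : ℂ) ≤ 1 := by
    rw [← charpoly_cast]
    refine simple_root _ (lam : ℂ) u fun x hx => ?_
    obtain ⟨α, hα⟩ := hx
    have h1 := hvx x
    rw [hα, hc_add, hc_smul, hc_smul] at h1
    have h2 : α * hc v u = 0 := by linear_combination h1
    have h3 : α = 0 := (mul_eq_zero.1 h2).resolve_right hvu
    rw [h3, zero_smul, add_zero] at hα
    refine ⟨hc v x / hc v u, ?_⟩
    by_contra hne
    have h4 : x - (hc v x / hc v u) • u ≠ 0 := sub_ne_zero.2 hne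
    have h5 := hcon lam _ h4 (by
      rw [hc_sub, hc_smul, div_mul_cancel₀ _ hvu, sub_self]) (by
      rw [Matrix.mulVec_sub, Matrix.mulVec_smul, hα, huμ, smul_sub, smul_comm])
    rw [hnl] at h5
    linarith
  refine ⟨?_, hdet, lam, hlam, hroot, ?_⟩
  · rw [charpoly_castQ]
    have h1 := irr_of_simple M.charpoly hmonic hdeg h0 lam hbig hsimple
    exact (hmonic.irreducible_iff_irreducible_map_fraction_map (K := ℚ)).1 h1
  · intro ν hν hne
    refine ⟨?_, hothers ν (by rw [← charpoly_cast]; exact hν) hne⟩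
    rw [norm_pos_iff]
    rintro rfl
    have h6 : (((M).map (Int.cast : ℤ → ℂ)).charpoly).eval 0 = 0 := hν
    rw [charpoly_cast, ← Polynomial.coeff_zero_eq_eval_zero, Polynomial.coeff_map] at h6
    have h7 : M.charpoly.coeff 0 = 0 := by
      rw [eq_intCast] at h6
      exact_mod_cast h6
    exact h0 h7

end Pool.Agent.W3helper16.PJ
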