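import Pool.Agent.W3helper16.PJ.Find
import Pool.Agent.W3helper16.PJ.Pis

/-!
Families of substitutions with digits; the incidence matrices of their compositions.
-/

set_option autoImplicit false

namespace Pool.Agent.W3helper16.PJ
open Pool.Agent.H812R2.PI Pool.Agent.Y316.Pisot
open scoped BigOperators

variable {m : ℕ}

/-- what is needed of a family `G` of substitutions with digits and a cone `C` of functionals -/
structure Fam (m : ℕ) (G : (Fin (m+1) → List (Fin (m+1))) → Prop)
    (C : (Fin (m+1) → ℝ) → Prop) : Prop where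
  dig : ∀ τ, G τ → ∃ a, HasDigits a τ ∧ 4 ≤ a 0 ∧ a m = 1
  pos : ∀ φ, C φ → ∀ i, 0 < φ i
  lt : ∀ φ, C φ → ∀ i, i ≠ 0 → φ i < φ 0
  near : ∀ φ, C φ → ∀ l : List (Fin (m+1) → List (Fin (m+1))), l ≠ [] → (∀ τ ∈ l, G τ) →
    ∀ c, Nr φ (compList l c)
  eig : ∀ (φ : Fin (m+1) → ℝ) (lam : ℝ) (l : List (Fin (m+1) → List (Fin (m+1)))), l ≠ [] →
    (∀ τ ∈ l, G τ) → (∀ i, 0 < φ i) → 1 < lam → pull φ (compList l) = lam • φ → C φ
  chain : ∀ K : ℕ, ∃ N : ℕ, ∀ l : List (Fin (m+1) → List (Fin (m+1))), (∀ τ ∈ l, G τ) →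
    N ≤ l.length → ∀ φ, C φ → ∀ (X : ℤ) (Y : ℕ → ℤ), St (pull φ (compList l)) X Y →
    (∀ i, i ≤ m → |X - Y i| ≤ K) → Hl l X Y
  contr : ∀ (φ : Fin (m+1) → ℝ) (lam : ℝ) (l : List (Fin (m+1) → List (Fin (m+1)))), l ≠ [] →
    (∀ τ ∈ l, G τ) → C φ → 1 < lam → pull φ (compList l) = lam • φ →
    ∀ (ν : ℂ) (x : Fin (m+1) → ℂ), x ≠ 0 → hc φ x = 0 → cm (compList l) x = ν • x → ‖ν‖ < 1

theorem HasDigits.det {a : ℕ → ℕ} {τ : Fin (m+1) → List (Fin (m+1))} (h : HasDigits a τ)
    (ha : a m = 1) : (inc τ).det = 1 ∨ (inc τ).det = -1 := by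
  refine det_cyc (inc τ) (fun i j hi hj hij => ?_) fun i => ?_
  · rw [h, if_neg hi, if_neg]
    intro h1
    rw [Fin.le_def] at hij
    omega
  · rw [h]
    by_cases hi : (i : ℕ) < m
    · have hval : ((i + 1 : Fin (m+1)) : ℕ) = i + 1 := by
        rw [Fin.val_add_one_of_lt]
        exact Fin.lt_def.2 (by simpa using hi)
      rw [if_neg, if_pos hval]
      intro h1
      rw [h1] at hval
      simp at hval
    · have him : (i : ℕ) = m := by have := i.2; omega
      have : i + 1 = 0 := by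
        have h2 : i = Fin.last m := Fin.ext him
        rw [h2]
        exact Fin.last_add_one m
      rw [if_pos this, him, ha]
      norm_num

theorem det_list {G : (Fin (m+1) → List (Fin (m+1))) → Prop}
    (hG : ∀ τ, G τ → (inc τ).det = 1 ∨ (inc τ).det = -1)
    (l : List (Fin (m+1) → List (Fin (m+1)))) (hl : ∀ τ ∈ l, G τ) :
    (inc (compList l)).det = 1 ∨ (inc (compList l)).det = -1 := by
  induction l with
  | nil =>
    left
    simp only [compList]
    rw [JComp_inc_id, Matrix.det_one]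
  | cons τ l' ih =>
    simp only [compList]
    rw [inc_comp, Matrix.det_mul]
    rcases hG τ (hl τ (List.mem_cons_self ..)) with h2 | h2 <;>
      rcases ih (fun τ' h' => hl τ' (List.mem_cons_of_mem _ h')) with h3 | h3 <;>
      rw [h2, h3] <;> norm_num

theorem exists_concat' {α : Type*} (l : List α) (n : ℕ) (h : n + 1 ≤ l.length) :
    ∃ l' x, l = l' ++ [x] ∧ n ≤ l'.length := by
  rcases List.eq_nil_or_concat l with h1 | ⟨l', x, h1⟩
  · rw [h1] at h; simp at h
  · refine ⟨l', x, by simpa using h1, ?_⟩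
    rw [h1] at h
    simpa using h

/-- the next letter -/
theorem HasDigits.succ_mem {a : ℕ → ℕ} {τ : Fin (m+1) → List (Fin (m+1))} (h : HasDigits a τ)
    {i j : Fin (m+1)} (hij : (i : ℕ) = j + 1) : i ∈ τ j := by
  have hi : i ≠ 0 := by
    intro h
    rw [h] at hij
    simp at hij
  have h1 := h i j
  rw [if_neg hi, if_pos hij] at h1
  unfold inc at h1
  rw [← List.count_pos_iff]
  omega

section fam
variable {G : (Fin (m+1) → List (Fin (m+1))) → Prop} {C : (Fin (m+1) → ℝ) → Prop}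

theorem Fam.zero_zero (F : Fam m G C) {τ : Fin (m+1) → List (Fin (m+1))} (h : G τ) :
    (0 : Fin (m+1)) ∈ τ 0 := by
  obtain ⟨a, ha, ha4, -⟩ := F.dig τ h
  exact zero_mem_image ha 0 (by simpa using by omega)

/-- every letter leads to the letter `0` -/
theorem Fam.reach0 (F : Fam m G C) (n : ℕ) : ∀ (l : List (Fin (m+1) → List (Fin (m+1))))
    (j : Fin (m+1)), (∀ τ ∈ l, G τ) → m + 1 ≤ n + j → n ≤ l.length →
    (0 : Fin (m+1)) ∈ compList l j := by
  induction n with
  | zero => intro l j _ h; have := j.2; omega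
  | succ n ih =>
    intro l j hl hj hlen
    obtain ⟨l', τ, rfl, hlen'⟩ := exists_concat' l n hlen
    have hl' : ∀ τ ∈ l', G τ := fun τ' h' => hl τ' (by simp [h'])
    obtain ⟨a, ha, ha4, ham⟩ := F.dig τ (hl τ (by simp))
    rw [compList_concat]
    change (0 : Fin (m+1)) ∈ (τ j).flatMap (compList l')
    rw [List.mem_flatMap]
    by_cases hjm : (j : ℕ) = m
    · refine ⟨0, zero_mem_image ha j (by rw [hjm, ham]), ?_⟩
      exact zero_mem_compList l' fun τ' h' => F.zero_zero (hl' τ' h')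
    · refine ⟨⟨j + 1, by have := j.2; omega⟩, ha.succ_mem rfl, ?_⟩
      exact ih l' _ hl' (by simp only; omega) hlen'

/-- the letter `0` leads to every letter -/
theorem Fam.reach1 (F : Fam m G C) (n : ℕ) : ∀ (l : List (Fin (m+1) → List (Fin (m+1))))
    (i : Fin (m+1)), (∀ τ ∈ l, G τ) → (i : ℕ) = n → n ≤ l.length → i ∈ compList l 0 := by
  induction n with
  | zero =>
    intro l i hl hi _
    have : i = 0 := Fin.ext (by simpa using hi)
    rw [this]
    exact zero_mem_compList l fun τ' h' => F.zero_zero (hl τ' h')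
  | succ n ih =>
    intro l i hl hi hlen
    cases l with
    | nil => simp at hlen
    | cons τ l' =>
      have hl' : ∀ τ ∈ l', G τ := fun τ' h' => hl τ' (List.mem_cons_of_mem _ h')
      obtain ⟨a, ha, -, -⟩ := F.dig τ (hl τ (List.mem_cons_self ..))
      have h1 := ih l' ⟨n, by have := i.2; omega⟩ hl' rfl (by simpa using hlen)
      simp only [compList, comp]
      change i ∈ (compList l' 0).flatMap τ
      rw [List.mem_flatMap]
      exact ⟨_, h1, ha.succ_mem (by simpa using hi)⟩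

theorem Fam.ne (F : Fam m G C) (l : List (Fin (m+1) → List (Fin (m+1))))
    (hl : ∀ τ ∈ l, G τ) (j : Fin (m+1)) : compList l j ≠ [] := by
  induction l with
  | nil => simp [compList]
  | cons τ l ih =>
    obtain ⟨c, w, hw⟩ := List.exists_cons_of_ne_nil
      (ih fun τ' h' => hl τ' (List.mem_cons_of_mem _ h'))
    obtain ⟨a, ha, -, ham⟩ := F.dig τ (hl τ (List.mem_cons_self ..))
    simp only [compList, comp]
    rw [hw, ext_cons]
    intro h
    rw [List.append_eq_nil_iff] at h
    by_cases hc : (c : ℕ) = m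
    · have := zero_mem_image ha c (by rw [hc, ham])
      rw [h.1] at this
      simp at this
    · have := ha.succ_mem (i := ⟨c + 1, by have := c.2; omega⟩) (j := c) rfl
      rw [h.1] at this
      simp at this

theorem Fam.entry_pos (F : Fam m G C) (l : List (Fin (m+1) → List (Fin (m+1))))
    (hl : ∀ τ ∈ l, G τ) (hlen : 2 * m + 2 ≤ l.length) (i j : Fin (m+1)) :
    0 < inc (compList l) i j := by
  obtain ⟨l1, l2, rfl, hlen1, hlen2⟩ : ∃ l1 l2, l = l1 ++ l2 ∧ m + 1 ≤ l1.length ∧
      m + 1 ≤ l2.length := by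
    refine ⟨l.take (m+1), l.drop (m+1), (List.take_append_drop _ _).symm, ?_, ?_⟩
    · rw [List.length_take]; omega
    · rw [List.length_drop]; omega
  have h1 := F.reach0 (m+1) l2 j (fun τ h => hl τ (List.mem_append_right _ h)) (by omega) hlen2
  have h2 := F.reach1 i l1 i (fun τ h => hl τ (List.mem_append_left _ h)) rfl
    (by have := i.2; omega)
  have h3 : i ∈ compList (l1 ++ l2) j := by
    rw [compList_append]
    exact List.mem_flatMap.2 ⟨0, h1, h2⟩
  unfold inc
  exact_mod_cast List.count_pos_iff.2 h3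

theorem Fam.corner (F : Fam m G C) (l : List (Fin (m+1) → List (Fin (m+1)))) (hne : l ≠ [])
    (hl : ∀ τ ∈ l, G τ) : 4 ≤ inc (compList l) 0 0 := by
  obtain ⟨τ, l', rfl⟩ := List.exists_cons_of_ne_nil hne
  obtain ⟨a, ha, ha4, -⟩ := F.dig τ (hl τ (List.mem_cons_self ..))
  simp only [compList]
  rw [inc_comp, Matrix.mul_apply]
  have h1 : inc τ 0 0 * inc (compList l') 0 0 ≤ ∑ k, inc τ 0 k * inc (compList l') k 0 :=
    Finset.single_le_sum (f := fun k => inc τ 0 k * inc (compList l') k 0)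
      (fun k _ => mul_nonneg (inc_nonneg _ _ _) (inc_nonneg _ _ _)) (Finset.mem_univ 0)
  refine le_trans ?_ h1
  have h2 : (4 : ℤ) ≤ inc τ 0 0 := by
    rw [ha, if_pos rfl]
    exact_mod_cast ha4
  have h3 : 1 ≤ inc (compList l') 0 0 := by
    have h4 := zero_mem_compList l' fun τ' h' =>
      F.zero_zero (hl τ' (List.mem_cons_of_mem _ h'))
    have := List.count_pos_iff.2 h4
    unfold inc
    exact_mod_cast this
  nlinarith

/-- the left eigenvector -/
theorem Fam.left (F : Fam m G C) (l : List (Fin (m+1) → List (Fin (m+1)))) (hne : l ≠ [])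
    (hl : ∀ τ ∈ l, G τ) : ∃ (v : Fin (m+1) → ℝ) (lam : ℝ), (∀ i, 0 < v i) ∧ 1 < lam ∧
      pull v (compList l) = lam • v := by
  obtain ⟨M, hM⟩ : ∃ M, M = inc (compList l) := ⟨_, rfl⟩
  obtain ⟨A, hA⟩ : ∃ A : Matrix (Fin (m+1)) (Fin (m+1)) ℝ,
    A = ((Int.castRingHom ℝ).mapMatrix M).transpose := ⟨_, rfl⟩
  have hAp : ∀ (n : ℕ) i j, (A ^ n) i j = (((M ^ n) j i : ℤ) : ℝ) := by
    intro n i j
    rw [hA, ← Matrix.transpose_pow, ← map_pow]
    rfl
  have hA1 : ∀ i j, A i j = ((M j i : ℤ) : ℝ) := by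
    intro i j
    have := hAp 1 i j
    rwa [pow_one, pow_one] at this
  have hnn : ∀ (n : ℕ) i j, 0 ≤ (A ^ n) i j := by
    intro n i j
    rw [hAp, hM, ← inc_iter]
    exact_mod_cast inc_nonneg _ _ _
  have hpos : ∀ i j, 0 < (A ^ (2*m+2)) i j := by
    intro i j
    rw [hAp, hM, ← inc_iter, ← compList_flatten]
    have := F.entry_pos ((List.replicate (2*m+2) l).flatten) (fun τ hτ => by
      rw [List.mem_flatten] at hτ
      obtain ⟨l', h1, h2⟩ := hτ
      rw [List.mem_replicate] at h1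
      rw [h1.2] at h2
      exact hl τ h2) (len_flatten l (2*m+2) hne) j i
    exact_mod_cast this
  have h00 : (4 : ℝ) ≤ A 0 0 := by
    rw [hA1, hM]
    exact_mod_cast F.corner l hne hl
  obtain ⟨v, lam, hv, -, -, hAv, -⟩ := H906C.perron A (fun i j => by
      have := hnn 1 i j
      rwa [pow_one] at this) (2*m+3) (fun i j => by
      rw [Matrix.sum_apply]
      exact Finset.sum_pos' (fun k _ => hnn k i j) ⟨2*m+2, by simp, hpos i j⟩)
    ⟨0, 0, by linarith⟩
  refine ⟨v, lam, hv, ?_, ?_⟩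
  · have h1 := congrFun hAv 0
    simp only [Matrix.mulVec, dotProduct, Pi.smul_apply, smul_eq_mul] at h1
    have h2 : A 0 0 * v 0 ≤ ∑ j, A 0 j * v j :=
      Finset.single_le_sum (f := fun j => A 0 j * v j) (fun j _ => by
        have := hnn 1 0 j
        rw [pow_one] at this
        exact mul_nonneg this (hv j).le) (Finset.mem_univ 0)
    rw [h1] at h2
    have h3 := le_of_mul_le_mul_right h2 (hv 0)
    linarith
  · funext j
    have h1 := congrFun hAv j
    rw [← h1]
    simp only [pull, hh, Matrix.mulVec, dotProduct]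
    refine Finset.sum_congr rfl fun i _ => ?_
    rw [hA1, hM, mul_comm]
    rfl

theorem Fam.pisot (F : Fam m G C) (l : List (Fin (m+1) → List (Fin (m+1)))) (hne : l ≠ [])
    (hl : ∀ τ ∈ l, G τ) : PisotMat (inc (compList l)) := by
  obtain ⟨v, lam, hv, hlam, hpull⟩ := F.left l hne hl
  have hC := F.eig v lam l hne hl hv hlam hpull
  refine pis_of_left (inc (compList l)) (det_list (fun τ hτ => ?_) l hl) v lam hlam
    (fun j => ?_) (fun ν x hx hvx hMx => F.contr v lam l hne hl hC hlam hpull ν x hx hvx hMx)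
  · obtain ⟨a, ha, -, ham⟩ := F.dig τ hτ
    exact ha.det ham
  · have := congrFun hpull j
    simp only [pull, hh, Pi.smul_apply, smul_eq_mul] at this
    rw [← this]
    rfl

end fam

end Pool.Agent.W3helper16.PJ
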