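import Pool.Agent.W3helper16.PJ.Win

/-!
Long overlapping paths contain an edge `0` which overlaps two consecutive edges `0`.
-/

set_option autoImplicit false

namespace Pool.Agent.W3helper16.PJ
open Pool.Agent.H812R2.PI Pool.Agent.Y316.Pisot
open scoped BigOperators

variable {m : ℕ}

/-- the images -/
theorem HasDigits.image {a : ℕ → ℕ} {τ : Fin (m+1) → List (Fin (m+1))}
    (h : HasDigits a τ) (j : Fin (m+1)) (hj : (j : ℕ) < m) : ∃ k c, k ≤ a j ∧ c ≠ 0 ∧
      τ j = List.replicate k 0 ++ c :: List.replicate (a j - k) 0 := by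
  obtain ⟨c, hc⟩ : ∃ c : Fin (m+1), (c : ℕ) = j + 1 := ⟨⟨j + 1, by omega⟩, rfl⟩
  have hc0 : c ≠ 0 := by
    intro h
    rw [h] at hc
    simp at hc
  have hcnt : ∀ i, (τ j).count i = if i = 0 then a j else if i = c then 1 else 0 := by
    intro i
    have h1 := h i j
    unfold inc at h1
    by_cases hi : i = 0
    · rw [if_pos hi] at h1 ⊢
      simpa using h1
    · rw [if_neg hi] at h1 ⊢
      by_cases hi1 : i = c
      · rw [if_pos hi1]
        rw [if_pos (by rw [hi1, hc])] at h1
        exact_mod_cast h1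
      · rw [if_neg hi1]
        rw [if_neg] at h1
        · exact_mod_cast h1
        · intro h2
          apply hi1
          apply Fin.ext
          rw [hc, h2]
  have h1 : c ∈ τ j := by
    rw [← List.count_pos_iff, hcnt, if_neg hc0, if_pos rfl]
    exact one_pos
  obtain ⟨s, t, hst⟩ := List.append_of_mem h1
  have hz : ∀ i, i ≠ 0 → i ∉ s ∧ i ∉ t := by
    intro i hi
    have h2 := hcnt i
    rw [hst, List.count_append, List.count_cons, if_neg hi] at h2
    by_cases hi1 : i = c
    · rw [hi1] at h2 ⊢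
      simp at h2
      exact ⟨List.count_eq_zero.1 (by omega), List.count_eq_zero.1 (by omega)⟩
    · rw [if_neg hi1] at h2
      exact ⟨List.count_eq_zero.1 (by omega), List.count_eq_zero.1 (by omega)⟩
  have hs : s = List.replicate s.length 0 := by
    rw [List.eq_replicate_iff]
    refine ⟨rfl, fun b hb => ?_⟩
    by_contra hb0
    exact (hz b hb0).1 hb
  have ht : t = List.replicate t.length 0 := by
    rw [List.eq_replicate_iff]
    refine ⟨rfl, fun b hb => ?_⟩
    by_contra hb0
    exact (hz b hb0).2 hb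
  have h0 := hcnt 0
  rw [hst, List.count_append, List.count_cons_of_ne hc0, if_pos rfl, hs, ht,
    List.count_replicate_self, List.count_replicate_self] at h0
  refine ⟨s.length, c, by omega, hc0, ?_⟩
  rw [hst]
  conv_lhs => rw [hs, ht]
  congr 3
  omega

theorem HasDigits.image_last {a : ℕ → ℕ} {τ : Fin (m+1) → List (Fin (m+1))}
    (h : HasDigits a τ) (j : Fin (m+1)) (hj : (j : ℕ) = m) : τ j = List.replicate (a j) 0 := by
  have hz : ∀ i ∈ τ j, i = 0 := by
    intro i hi
    by_contra hi0
    have h1 := h i j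
    rw [if_neg hi0, if_neg (by have := i.2; omega)] at h1
    unfold inc at h1
    have := List.count_pos_iff.2 hi
    omega
  have h1 : τ j = List.replicate (τ j).length 0 := by
    rw [List.eq_replicate_iff]
    exact ⟨rfl, hz⟩
  have h2 := h 0 j
  rw [if_pos rfl] at h2
  unfold inc at h2
  rw [h1, List.count_replicate_self] at h2
  rw [h1]
  congr 1
  exact_mod_cast h2

/-- reading a word after `k` letters different from `0`, no three letters different from `0` occur
in a row -/
def Ok : ℕ → List (Fin (m+1)) → Prop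
  | _, [] => True
  | k, b :: w => if b = 0 then Ok 0 w else k < 2 ∧ Ok (k+1) w

theorem ok_zero (k : ℕ) (w : List (Fin (m+1))) : Ok k (0 :: w) ↔ Ok 0 w := by
  simp [Ok]

theorem ok_ne {b : Fin (m+1)} (hb : b ≠ 0) (k : ℕ) (w : List (Fin (m+1))) :
    Ok k (b :: w) ↔ k < 2 ∧ Ok (k+1) w := by
  simp [Ok, hb]

theorem ok_mono (w : List (Fin (m+1))) : ∀ k k' : ℕ, k ≤ k' → Ok k' w → Ok k w := by
  induction w with
  | nil => intro k k' _ _; trivial
  | cons b w ih =>
    intro k k' hk h
    by_cases hb : b = 0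
    · rw [hb, ok_zero] at h ⊢; exact h
    · rw [ok_ne hb] at h ⊢
      exact ⟨by omega, ih (k+1) (k'+1) (by omega) h.2⟩

theorem ok_rep (n : ℕ) : ∀ (k : ℕ) (w : List (Fin (m+1))), 1 ≤ n → Ok 0 w →
    Ok k (List.replicate n 0 ++ w) := by
  induction n with
  | zero => intro k w h; omega
  | succ n ih =>
    intro k w _ hw
    rw [List.replicate_succ, List.cons_append, ok_zero]
    rcases Nat.eq_zero_or_pos n with h | h
    · rw [h]; exact hw
    · exact ih 0 w h hw

theorem ok_ext {a : ℕ → ℕ} {τ : Fin (m+1) → List (Fin (m+1))} (h : HasDigits a τ)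
    (ha : ∀ j, j ≤ m → 1 ≤ a j) (u : List (Fin (m+1))) : ∀ k ≤ 1, Ok k (ext τ u) := by
  induction u with
  | nil => intro k _; simp [ext, Ok]
  | cons j u ih =>
    intro k hk
    rw [ext_cons]
    have hja := ha j (by have := j.2; omega)
    by_cases hj : (j : ℕ) < m
    · obtain ⟨p, c, hp, hc, hτ⟩ := h.image j hj
      rw [hτ, List.append_assoc, List.cons_append]
      have h1 : Ok 1 (List.replicate (a j - p) 0 ++ ext τ u) := by
        rcases Nat.eq_zero_or_pos (a j - p) with h2 | h2
        · rw [h2]; exact ih 1 le_rfl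
        · exact ok_rep _ _ _ h2 (ih 0 (by omega))
      rcases Nat.eq_zero_or_pos p with h2 | h2
      · rw [h2]
        change Ok k (c :: (List.replicate (a j - 0) 0 ++ ext τ u))
        rw [ok_ne hc]
        exact ⟨by omega, ok_rep _ _ _ (by omega) (ih 0 (by omega))⟩
      · refine ok_rep _ _ _ h2 ?_
        rw [ok_ne hc]
        exact ⟨by omega, h1⟩
    · rw [h.image_last j (by have := j.2; omega)]
      exact ok_rep _ _ _ hja (ih 0 (by omega))

theorem ok_drop (s : List (Fin (m+1))) : ∀ (k : ℕ) (t : List (Fin (m+1))), Ok k (s ++ t) →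
    ∃ k', Ok k' t := by
  induction s with
  | nil => intro k t h; exact ⟨k, h⟩
  | cons b s ih =>
    intro k t h
    rw [List.cons_append] at h
    by_cases hb : b = 0
    · rw [hb, ok_zero] at h; exact ih _ _ h
    · rw [ok_ne hb] at h; exact ih _ _ h.2

theorem ok_three {s t : List (Fin (m+1))} {b1 b2 b3 : Fin (m+1)} {k : ℕ}
    (h : Ok k (s ++ b1 :: b2 :: b3 :: t)) : b1 = 0 ∨ b2 = 0 ∨ b3 = 0 := by
  obtain ⟨k', h1⟩ := ok_drop s k _ h
  by_contra hc
  push Not at hc
  rw [ok_ne hc.1, ok_ne hc.2.1, ok_ne hc.2.2] at h1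
  omega

/-- is the letter different from `0`? -/
def nz (i : Fin (m+1)) : Bool := decide (i ≠ 0)

/-- blocks of letters different from `0` are short -/
def Nr (φ : Fin (m+1) → ℝ) (W : List (Fin (m+1))) : Prop :=
  ∀ s t, W = s ++ t → hh φ (ab (t.takeWhile nz)) < 2 * φ 0

theorem ok_len (t : List (Fin (m+1))) : ∀ k, k ≤ 2 → Ok k t → (t.takeWhile nz).length + k ≤ 2 := by
  induction t with
  | nil => intro k hk _; simpa using hk
  | cons b t ih =>
    intro k hk h
    by_cases hb : b = 0
    · rw [hb, List.takeWhile_cons_of_neg (by simp [nz])]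
      simpa using hk
    · rw [ok_ne hb] at h
      have := ih (k+1) (by omega) h.2
      rw [List.takeWhile_cons_of_pos (by simp [nz, hb]), List.length_cons]
      omega

theorem nr_of_ok {φ : Fin (m+1) → ℝ} (hpos : ∀ i, 0 < φ i) (hlt : ∀ i, i ≠ 0 → φ i < φ 0)
    {W : List (Fin (m+1))} (hW : Ok 0 W) : Nr φ W := by
  intro s t hst
  rw [hst] at hW
  obtain ⟨k, hk⟩ := ok_drop s 0 t hW
  have h1 := ok_len t 0 (by omega) (ok_mono t 0 k (by omega) hk)
  have h2 : ∀ b ∈ t.takeWhile nz, φ b < φ 0 := by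
    intro b hb
    have := List.mem_takeWhile_imp hb
    exact hlt b (by simpa [nz] using this)
  have h0 := hpos 0
  match ht : t.takeWhile nz, h1, h2 with
  | [], _, _ => rw [ab_nil, hh_zero]; linarith
  | [b], _, h2 =>
    have := h2 b (by simp)
    rw [ab_single, hh_ev]; linarith
  | [b, c], _, h2 =>
    have := h2 b (by simp)
    have := h2 c (by simp)
    rw [ab_cons, ab_single, hh_add, hh_ev, hh_ev]; linarith
  | _ :: _ :: _ :: _, h1, _ => simp at h1

theorem takeWhile_split (t : List (Fin (m+1))) : t = t.takeWhile nz ∨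
    ∃ r, t = t.takeWhile nz ++ 0 :: r := by
  induction t with
  | nil => left; rfl
  | cons b t ih =>
    by_cases hb : b = 0
    · right
      rw [hb, List.takeWhile_cons_of_neg (by simp [nz])]
      exact ⟨t, rfl⟩
    · rw [List.takeWhile_cons_of_pos (by simp [nz, hb])]
      rcases ih with h | ⟨r, h⟩
      · left; rw [← h]
      · right
        refine ⟨r, ?_⟩
        rw [List.cons_append, ← h]

/-- four letters `0` in a row against a word with short blocks of letters different from `0` -/
theorem find {φ : Fin (m+1) → ℝ} (hpos : ∀ i, 0 < φ i)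
    (x y : Fin (m+1) → ℤ) (W : List (Fin (m+1))) (hW : Nr φ W)
    (h1 : hh φ y ≤ hh φ x) (h2 : hh φ x + 4 * φ 0 ≤ hh φ y + hh φ (ab W))
    (hle : ∀ i, φ i ≤ φ 0) :
    ∃ i : ℕ, i < 3 ∧ ∃ y', (y', (0 : Fin (m+1))) ∈ edges y W ∧
      0 ≤ hh φ (y' - (x + (i : ℤ) • ev 0)) ∧ hh φ (y' - (x + (i : ℤ) • ev 0)) < φ 0 := by
  have h0 := hpos 0
  -- it suffices to find an edge which starts in the interval
  suffices hs : ∃ y', (y', (0 : Fin (m+1))) ∈ edges y W ∧ hh φ x ≤ hh φ y' ∧
      hh φ y' < hh φ x + 3 * φ 0 by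
    obtain ⟨y', hy1, hy2, hy3⟩ := hs
    by_cases c1 : hh φ y' < hh φ x + φ 0
    · refine ⟨0, by norm_num, y', hy1, ?_, ?_⟩ <;>
        · rw [hh_sub, hh_add, hh_smul_ev]; push_cast; linarith
    · by_cases c2 : hh φ y' < hh φ x + 2 * φ 0
      · refine ⟨1, by norm_num, y', hy1, ?_, ?_⟩ <;>
          · rw [hh_sub, hh_add, hh_smul_ev]; push_cast; linarith
      · refine ⟨2, by norm_num, y', hy1, ?_, ?_⟩ <;>
          · rw [hh_sub, hh_add, hh_smul_ev]; push_cast; linarith
  obtain ⟨s, b, t, hst, hs1, hs2⟩ := cover (φ := φ) W (hh φ x - hh φ y) (by linarith) (by linarith)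
  have hWh : hh φ (ab W) = hh φ (ab s) + φ b + hh φ (ab t) := by
    rw [hst, ab_append, ab_cons, hh_add, hh_add, hh_ev]; ring
  have hb0 := hle b
  by_cases hc : b = 0 ∧ hh φ (ab s) = hh φ x - hh φ y
  · refine ⟨y + ab s, ?_, ?_, ?_⟩
    · rw [hst, hc.1]; exact edge_mem y s 0 t
    · rw [hh_add, hc.2]; linarith
    · rw [hh_add, hc.2]; linarith
  · have hn1 := hW (s ++ [b]) t (by rw [hst]; simp)
    rcases takeWhile_split t with ht | ⟨r, ht⟩
    · exfalso
      rw [← ht] at hn1
      linarith
    · have hhz := hh_ab_nonneg hpos (t.takeWhile nz)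
      refine ⟨y + ab (s ++ b :: t.takeWhile nz), ?_, ?_, ?_⟩
      · have : W = (s ++ b :: t.takeWhile nz) ++ 0 :: r := by
          rw [hst]
          conv_lhs => rw [ht]
          simp
        rw [this]
        exact edge_mem y (s ++ b :: t.takeWhile nz) 0 r
      · rw [hh_add, ab_append, ab_cons, hh_add, hh_add, hh_ev]; linarith
      · rw [hh_add, ab_append, ab_cons, hh_add, hh_add, hh_ev]
        by_cases hb : b = 0
        · have h3 : hh φ (ab s) ≠ hh φ x - hh φ y := fun h => hc ⟨hb, h⟩
          have h4 := lt_of_le_of_ne hs1 h3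
          rw [hb]
          linarith
        · have hn2 := hW s (b :: t) hst
          rw [List.takeWhile_cons_of_pos (by simp [nz, hb]), ab_cons, hh_add, hh_ev] at hn2
          linarith

theorem ext_mono (τ : Fin (m+1) → List (Fin (m+1))) (u v : List (Fin (m+1))) (h : u <:+: v) :
    ext τ u <:+: ext τ v := by
  obtain ⟨s, t, hst⟩ := h
  exact ⟨ext τ s, ext τ t, by rw [← hst, ext_append, ext_append]⟩

/-- four letters `0` in a row -/
theorem four {a1 a2 : ℕ → ℕ} {τ1 τ2 : Fin (m+1) → List (Fin (m+1))} (hm : 1 ≤ m)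
    (h1 : HasDigits a1 τ1) (h2 : HasDigits a2 τ2) (ha1 : 4 ≤ a1 0)
    (ha2 : 4 ≤ a2 0) (w : List (Fin (m+1))) (e1 : (0 : Fin (m+1)) ∈ w) :
    List.replicate 4 (0 : Fin (m+1)) <:+: ext τ1 (ext τ2 w) := by
  have e2 : List.replicate 2 (0 : Fin (m+1)) <:+: τ2 0 := by
    obtain ⟨k, hk, hτ⟩ := h2.image_zero hm
    rw [hτ]
    by_cases hk2 : 2 ≤ k
    · have : List.replicate k (0 : Fin (m+1)) =
          List.replicate 2 0 ++ List.replicate (k - 2) 0 := by
        rw [List.replicate_append_replicate]; congr 1; omega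
      rw [this, List.append_assoc]
      exact ⟨[], List.replicate (k - 2) 0 ++ one' m :: List.replicate (a2 0 - k) 0, by
        simp only [List.nil_append]⟩
    · have : List.replicate (a2 0 - k) (0 : Fin (m+1)) =
          List.replicate 2 0 ++ List.replicate (a2 0 - k - 2) 0 := by
        rw [List.replicate_append_replicate]; congr 1; omega
      rw [this]
      exact ⟨List.replicate k 0 ++ [one' m], List.replicate (a2 0 - k - 2) 0, by simp⟩
  have e3 : List.replicate 4 (0 : Fin (m+1)) <:+: ext τ1 (List.replicate 2 0) := by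
    obtain ⟨k, hk, hτ⟩ := h1.image_zero hm
    have h5 : ext τ1 (List.replicate 2 0) = τ1 0 ++ τ1 0 := by
      simp [ext, List.replicate]
    rw [h5, hτ]
    have h6 : List.replicate (a1 0 - k) (0 : Fin (m+1)) ++ List.replicate k 0 =
        List.replicate 4 0 ++ List.replicate (a1 0 - 4) 0 := by
      rw [List.replicate_append_replicate, List.replicate_append_replicate]; congr 1; omega
    refine ⟨List.replicate k 0 ++ [one' m], List.replicate (a1 0 - 4) 0 ++
      one' m :: List.replicate (a1 0 - k) 0, ?_⟩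
    calc _ = List.replicate k (0 : Fin (m+1)) ++ [one' m] ++ (List.replicate 4 0 ++
        List.replicate (a1 0 - 4) 0) ++ (one' m :: List.replicate (a1 0 - k) 0) := by
          simp only [List.append_assoc]
      _ = _ := by
        rw [← h6]
        simp only [List.append_assoc, List.cons_append, List.nil_append]
  have e4 : [(0 : Fin (m+1))] <:+: w := by
    obtain ⟨s, t, hst⟩ := List.append_of_mem e1
    exact ⟨s, t, by rw [hst]; simp⟩
  have e5 : τ2 0 <:+: ext τ2 w := by
    have := ext_mono τ2 _ _ e4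
    simpa [ext] using this
  exact e3.trans ((ext_mono τ1 _ _ e2).trans (ext_mono τ1 _ _ e5))

end Pool.Agent.W3helper16.PJ
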