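import Pool.Agent.W3helper16.PJ.Base

/-!
Pairs of edges with the letter `0` in the images of two edges with the letter `0`.
-/

set_option autoImplicit false

namespace Pool.Agent.W3helper16.PJ
open Pool.Agent.H812R2.PI Pool.Agent.Y316.Pisot
open scoped BigOperators

variable {m : ℕ}

/-- the letter `1` -/
def one' (m : ℕ) : Fin (m+1) := ⟨1 % (m+1), Nat.mod_lt _ (Nat.succ_pos m)⟩

theorem one'_val (hm : 1 ≤ m) : ((one' m : Fin (m+1)) : ℕ) = 1 := by
  unfold one'; exact Nat.mod_eq_of_lt (by omega)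

theorem one'_ne (hm : 1 ≤ m) : (one' m : Fin (m+1)) ≠ 0 := by
  intro h
  have := congrArg Fin.val h
  rw [one'_val hm] at this
  simp at this

/-- the image of the letter `0` -/
theorem HasDigits.image_zero {a : ℕ → ℕ} {τ : Fin (m+1) → List (Fin (m+1))} (hm : 1 ≤ m)
    (h : HasDigits a τ) : ∃ k, k ≤ a 0 ∧
      τ 0 = List.replicate k 0 ++ one' m :: List.replicate (a 0 - k) 0 := by
  have hc : ∀ i, (τ 0).count i = if i = 0 then a 0 else if i = one' m then 1 else 0 := by
    intro i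
    have h1 := h i 0
    unfold inc at h1
    by_cases hi : i = 0
    · rw [if_pos hi] at h1 ⊢
      simpa using h1
    · rw [if_neg hi] at h1 ⊢
      by_cases hi1 : i = one' m
      · rw [if_pos hi1]
        rw [if_pos (by rw [hi1, one'_val hm]; simp)] at h1
        exact_mod_cast h1
      · rw [if_neg hi1]
        rw [if_neg] at h1
        · exact_mod_cast h1
        · intro h2
          apply hi1
          apply Fin.ext
          rw [one'_val hm, h2]
          simp
  have h1 : one' m ∈ τ 0 := by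
    rw [← List.count_pos_iff, hc, if_neg (one'_ne hm), if_pos rfl]
    exact one_pos
  obtain ⟨s, t, hst⟩ := List.append_of_mem h1
  have hz : ∀ i, i ≠ 0 → i ∉ s ∧ i ∉ t := by
    intro i hi
    have h2 := hc i
    rw [hst, List.count_append, List.count_cons, if_neg hi] at h2
    by_cases hi1 : i = one' m
    · rw [hi1] at h2 ⊢
      simp at h2
      exact ⟨List.count_eq_zero.1 (by omega), List.count_eq_zero.1 (by omega)⟩
    · rw [if_neg hi1] at h2
      exact ⟨List.count_eq_zero.1 (by omega), List.count_eq_zero.1 (by omega)⟩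
  have hs : s = List.replicate s.length 0 := by
    rw [List.eq_replicate_iff]
    refine ⟨rfl, fun b hb => ?_⟩
    by_contra hb0
    exact (hz b hb0).1 hb
  have ht : t = List.replicate t.length 0 := by
    rw [List.eq_replicate_iff]
    refine ⟨rfl, fun b hb => ?_⟩
    by_contra hb0
    exact (hz b hb0).2 hb
  have h0 := hc 0
  rw [hst, List.count_append, List.count_cons_of_ne (one'_ne hm), if_pos rfl, hs, ht,
    List.count_replicate_self, List.count_replicate_self] at h0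
  refine ⟨s.length, by omega, ?_⟩
  rw [hst]
  conv_lhs => rw [hs, ht]
  congr 3
  omega

/-- the positions of the letters `0` in the image of `0` -/
theorem HasDigits.zeros {a : ℕ → ℕ} {τ : Fin (m+1) → List (Fin (m+1))} (hm : 1 ≤ m)
    (h : HasDigits a τ) : ∃ k, k ≤ a 0 ∧
      (∀ i : ℕ, i < k → ((i : ℤ) • ev 0, (0 : Fin (m+1))) ∈ edges 0 (τ 0)) ∧
      (∀ i : ℕ, k ≤ i → i < a 0 → ((i : ℤ) • ev 0 + ev (one' m), (0 : Fin (m+1))) ∈
        edges 0 (τ 0)) := by
  obtain ⟨k, hk, hτ⟩ := h.image_zero hm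
  refine ⟨k, hk, fun i hi => ?_, fun i hi1 hi2 => ?_⟩
  · have := run_edge (m := m) 0 [] (one' m :: List.replicate (a 0 - k) 0) k i hi
    rw [hτ]
    simpa [ab_nil] using this
  · have := run_edge (m := m) 0 (List.replicate k 0 ++ [one' m]) [] (a 0 - k) (i - k) (by omega)
    rw [hτ]
    have h2 : ((0 : Fin (m+1) → ℤ) + ab (List.replicate k 0 ++ [one' m]) +
        ((i - k : ℕ) : ℤ) • ev 0) = (i : ℤ) • ev 0 + ev (one' m) := by
      rw [ab_append, ab_replicate, ab_single, zero_add]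
      have h3 : (i : ℤ) = k + ((i - k : ℕ) : ℤ) := by omega
      rw [h3, add_smul]
      simp
      abel
    rw [h2] at this
    simpa using this

/-- `z'` is the difference of two edges with the letter `0` in the images of two edges with the
letter `0` and the difference `z`. -/
def Rel (S : Fin (m+1) → List (Fin (m+1))) (z z' : Fin (m+1) → ℤ) : Prop :=
  ∃ p q, (p, (0 : Fin (m+1))) ∈ edges 0 (S 0) ∧ (q, (0 : Fin (m+1))) ∈ edges 0 (S 0) ∧
    z' = (inc S).mulVec z + (q - p)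

theorem HasDigits.mulVec_ev {a : ℕ → ℕ} {τ : Fin (m+1) → List (Fin (m+1))} (hm : 1 ≤ m)
    (h : HasDigits a τ) : (inc τ).mulVec (ev 0) = (a 0 : ℤ) • ev 0 + ev (one' m) := by
  rw [← ab_subst]
  obtain ⟨k, hk, hτ⟩ := h.image_zero hm
  rw [hτ, ab_append, ab_cons, ab_replicate, ab_replicate]
  have h3 : (a 0 : ℤ) = k + ((a 0 - k : ℕ) : ℤ) := by omega
  rw [h3, add_smul]
  simp
  abel

theorem HasDigits.down {a : ℕ → ℕ} {τ : Fin (m+1) → List (Fin (m+1))} (hm : 1 ≤ m)
    (h : HasDigits a τ) (z : Fin (m+1) → ℤ) (n : ℕ) (hn : n < a 0) :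
    Rel τ z ((inc τ).mulVec z - (n : ℤ) • ev 0) ∨
      Rel τ (z - ev 0) ((inc τ).mulVec z - (n : ℤ) • ev 0) := by
  obtain ⟨k, hk, h1, h2⟩ := h.zeros hm
  rcases Nat.eq_zero_or_pos k with hk0 | hk0
  · left
    refine ⟨_, _, h2 n (by omega) hn, h2 0 (by omega) (by omega), ?_⟩
    simp only [Nat.cast_zero, zero_smul]
    abel
  · by_cases hnk : n < k
    · left
      refine ⟨_, _, h1 n hnk, h1 0 hk0, ?_⟩
      simp only [Nat.cast_zero, zero_smul]
      abel
    · right
      -- `n ≥ k ≥ 1`: use `i < k ≤ j` with `j - i = a 0 - n`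
      obtain ⟨i, j, hi, hj1, hj2, hij⟩ : ∃ i j : ℕ, i < k ∧ k ≤ j ∧ j < a 0 ∧ j + n = i + a 0 := by
        by_cases hD : a 0 - n ≤ k
        · exact ⟨k - (a 0 - n), k, by omega, le_rfl, by omega, by omega⟩
        · exact ⟨0, a 0 - n, by omega, by omega, by omega, by omega⟩
      refine ⟨_, _, h1 i hi, h2 j hj1 hj2, ?_⟩
      rw [Matrix.mulVec_sub, h.mulVec_ev hm]
      have h3 : (n : ℤ) = a 0 + i - j := by omega
      rw [h3, sub_smul, add_smul]
      abel

theorem HasDigits.up {a : ℕ → ℕ} {τ : Fin (m+1) → List (Fin (m+1))} (hm : 1 ≤ m)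
    (h : HasDigits a τ) (z : Fin (m+1) → ℤ) (n : ℕ) (hn : n < a 0) :
    Rel τ z ((inc τ).mulVec (z - ev 0) + (n : ℤ) • ev 0) ∨
      Rel τ (z - ev 0) ((inc τ).mulVec (z - ev 0) + (n : ℤ) • ev 0) := by
  obtain ⟨k, hk, h1, h2⟩ := h.zeros hm
  rcases Nat.eq_zero_or_pos k with hk0 | hk0
  · right
    refine ⟨_, _, h2 0 (by omega) (by omega), h2 n (by omega) hn, ?_⟩
    simp only [Nat.cast_zero, zero_smul]
    abel
  · by_cases hnk : n < k
    · right
      refine ⟨_, _, h1 0 hk0, h1 n hnk, ?_⟩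
      simp only [Nat.cast_zero, zero_smul]
      abel
    · left
      obtain ⟨i, j, hi, hj1, hj2, hij⟩ : ∃ i j : ℕ, i < k ∧ k ≤ j ∧ j < a 0 ∧ j + n = i + a 0 := by
        by_cases hD : a 0 - n ≤ k
        · exact ⟨k - (a 0 - n), k, by omega, le_rfl, by omega, by omega⟩
        · exact ⟨0, a 0 - n, by omega, by omega, by omega, by omega⟩
      refine ⟨_, _, h2 j hj1 hj2, h1 i hi, ?_⟩
      rw [Matrix.mulVec_sub, h.mulVec_ev hm]
      have h3 : (n : ℤ) = a 0 + i - j := by omega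
      rw [h3, sub_smul, add_smul]
      abel

theorem rel_comp {σ τ : Fin (m+1) → List (Fin (m+1))} {z z' z'' : Fin (m+1) → ℤ}
    (h1 : Rel τ z z') (h2 : Rel σ z' z'') : Rel (comp σ τ) z z'' := by
  obtain ⟨p, q, hp, hq, rfl⟩ := h1
  obtain ⟨p', q', hp', hq', rfl⟩ := h2
  have key : ∀ (p p' : Fin (m+1) → ℤ), (p, (0 : Fin (m+1))) ∈ edges 0 (τ 0) →
      (p', (0 : Fin (m+1))) ∈ edges 0 (σ 0) →
      ((inc σ).mulVec p + p', (0 : Fin (m+1))) ∈ edges 0 (comp σ τ 0) := by
    intro p p' hp hp'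
    have h3 := edges_translate 0 ((inc σ).mulVec p) (σ 0)
    rw [zero_add] at h3
    have h4 : ((inc σ).mulVec p + p', (0 : Fin (m+1))) ∈ edges ((inc σ).mulVec p) (σ 0) := by
      rw [h3, List.mem_map]
      exact ⟨_, hp', Prod.ext (add_comm _ _) rfl⟩
    have h5 := JComp_mem (S := σ) hp (h := ((inc σ).mulVec p + p', (0 : Fin (m+1)))) h4
    rw [Matrix.mulVec_zero] at h5
    exact h5
  refine ⟨_, _, key p p' hp hp', key q q' hq hq', ?_⟩
  rw [inc_comp, ← Matrix.mulVec_mulVec, Matrix.mulVec_add, Matrix.mulVec_sub]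
  abel

theorem rel_zero {S : Fin (m+1) → List (Fin (m+1))} (h : (0 : Fin (m+1)) ∈ S 0) :
    Rel S 0 0 := by
  obtain ⟨k, hk, hk2⟩ := List.mem_iff_getElem.1 h
  have : ((0 : Fin (m+1) → ℤ) + ab ((S 0).take k), (0 : Fin (m+1))) ∈ edges 0 (S 0) := by
    rw [mem_edges]
    exact ⟨k, hk, by rw [hk2]⟩
  exact ⟨_, _, this, this, by rw [Matrix.mulVec_zero]; simp⟩

end Pool.Agent.W3helper16.PJ
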