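import Pool.Agent.W3helper16.PJ.Step

/-!
One step for pairs of overlapping edges with the letter `0`, in terms of windows.
-/

set_option autoImplicit false

namespace Pool.Agent.W3helper16.PJ
open Pool.Agent.H812R2.PI Pool.Agent.Y316.Pisot
open scoped BigOperators

variable {m : ℕ}

/-- an edge `0` which overlaps two consecutive edges `0` -/
def St (φ : Fin (m+1) → ℝ) (X : ℤ) (Y : ℕ → ℤ) : Prop :=
  0 ≤ hh φ (zv X Y) ∧ hh φ (zv X Y) < φ 0

/-- one of the two differences leads to a common edge -/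
def Hl (l : List (Fin (m+1) → List (Fin (m+1)))) (X : ℤ) (Y : ℕ → ℤ) : Prop :=
  Rel (compList l) (zv X Y) 0 ∨ Rel (compList l) (zv (X - 1) Y) 0

theorem zv_sub_one (X : ℤ) (Y : ℕ → ℤ) : (zv X Y : Fin (m+1) → ℤ) - ev 0 = zv (X - 1) Y := by
  have := zv_sub (m := m) X Y 1
  rwa [one_smul] at this

theorem hh_smul_ev (φ : Fin (m+1) → ℝ) (n : ℤ) : hh φ (n • ev 0) = n * φ 0 := by
  rw [← hh_ev φ 0]
  simp only [hh, Pi.smul_apply, smul_eq_mul, Int.cast_mul, Finset.mul_sum]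
  exact Finset.sum_congr rfl fun i _ => by ring

theorem compList_concat (l : List (Fin (m+1) → List (Fin (m+1))))
    (τ : Fin (m+1) → List (Fin (m+1))) : compList (l ++ [τ]) = comp (compList l) τ := by
  rw [compList_append]
  congr 1
  funext a
  simp [compList, comp, ext]

theorem Hl_of {l : List (Fin (m+1) → List (Fin (m+1)))} {τ : Fin (m+1) → List (Fin (m+1))}
    {X N : ℤ} {Y Y' : ℕ → ℤ}
    (h1 : Rel τ (zv X Y) (zv N Y') ∨ Rel τ (zv (X - 1) Y) (zv N Y'))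
    (h2 : Rel τ (zv X Y) (zv (N - 1) Y') ∨ Rel τ (zv (X - 1) Y) (zv (N - 1) Y'))
    (h : Hl l N Y') : Hl (l ++ [τ]) X Y := by
  unfold Hl
  rw [compList_concat]
  rcases h with h | h
  · rcases h1 with h1 | h1
    · exact Or.inl (rel_comp h1 h)
    · exact Or.inr (rel_comp h1 h)
  · rcases h2 with h2 | h2
    · exact Or.inl (rel_comp h2 h)
    · exact Or.inr (rel_comp h2 h)

/-- rounding up -/
theorem step_ceil {a : ℕ → ℕ} {τ : Fin (m+1) → List (Fin (m+1))} (hm : 1 ≤ m)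
    (h : HasDigits a τ) {φ : Fin (m+1) → ℝ} (h0 : 0 < φ 0) (X : ℤ) (Y : ℕ → ℤ)
    (hS : 0 ≤ hh (pull φ τ) (zv X Y)) (hu : hh (pull φ τ) (zv X Y) < ((a 0 : ℝ) - 1) * φ 0) :
    ∃ N : ℤ, St φ N (cs X Y) ∧ ∀ l, Hl l N (cs X Y) → Hl (l ++ [τ]) X Y := by
  obtain ⟨X', hX'⟩ := h.mulVec_zv X Y
  have hX2 : (inc τ).mulVec (zv X Y) = zv X' (cs X Y) := hX'
  have hh1 : hh φ (zv X' (cs X Y)) = hh (pull φ τ) (zv X Y) := by
    rw [← hX2, hh_mulVec]
  obtain ⟨x, hx⟩ : ∃ x, x = hh (pull φ τ) (zv X Y) := ⟨_, rfl⟩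
  rw [← hx] at hS hu hh1
  obtain ⟨k, hk⟩ : ∃ k : ℕ, k = ⌊x / φ 0⌋₊ := ⟨_, rfl⟩
  have hk1 : (k : ℝ) * φ 0 ≤ x := by
    have := Nat.floor_le (div_nonneg hS h0.le)
    rw [← hk, le_div_iff₀ h0] at this
    exact this
  have hk2 : x < (k + 1) * φ 0 := by
    have := Nat.lt_floor_add_one (x / φ 0)
    rw [← hk, div_lt_iff₀ h0] at this
    exact this
  have hk3 : k + 1 < a 0 := by
    have h1 : (k : ℝ) * φ 0 < ((a 0 : ℝ) - 1) * φ 0 := hk1.trans_lt hu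
    have h2 := lt_of_mul_lt_mul_right h1 h0.le
    have h3 : ((k + 1 : ℕ) : ℝ) < a 0 := by push_cast; linarith
    exact_mod_cast h3
  have e1 := h.down hm (zv X Y) k (by omega)
  have e2 := h.down hm (zv X Y) (k+1) hk3
  rw [hX2, zv_sub, zv_sub_one] at e1 e2
  refine ⟨X' - k, ⟨?_, ?_⟩, fun l hl => Hl_of e1 ?_ hl⟩
  · rw [← zv_sub, hh_sub, hh1, hh_smul_ev]
    push_cast
    linarith
  · rw [← zv_sub, hh_sub, hh1, hh_smul_ev]
    push_cast
    linarith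
  · have h4 : X' - k - 1 = X' - ((k + 1 : ℕ) : ℤ) := by push_cast; ring
    rw [h4]
    exact e2

/-- rounding down -/
theorem step_floor {a : ℕ → ℕ} {τ : Fin (m+1) → List (Fin (m+1))} (hm : 1 ≤ m)
    (h : HasDigits a τ) {φ : Fin (m+1) → ℝ} (h0 : 0 < φ 0) (X : ℤ) (Y : ℕ → ℤ)
    (hS : hh (pull φ τ) (zv X Y) < pull φ τ 0)
    (hu : pull φ τ 0 - hh (pull φ τ) (zv X Y) ≤ ((a 0 : ℝ) - 1) * φ 0) :
    ∃ N : ℤ, St φ N (cs (X - 1) Y) ∧ ∀ l, Hl l N (cs (X - 1) Y) → Hl (l ++ [τ]) X Y := by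
  obtain ⟨X', hX'⟩ := h.mulVec_zv (X - 1) Y
  have hX2 : (inc τ).mulVec (zv (X - 1) Y) = zv X' (cs (X - 1) Y) := hX'
  have hh1 : hh φ (zv X' (cs (X - 1) Y)) = hh (pull φ τ) (zv X Y) - pull φ τ 0 := by
    rw [← hX2, hh_mulVec, ← zv_sub_one, hh_sub, hh_ev]
  obtain ⟨x, hx⟩ : ∃ x, x = pull φ τ 0 - hh (pull φ τ) (zv X Y) := ⟨_, rfl⟩
  have hx0 : 0 < x := by rw [hx]; linarith
  have hh2 : hh φ (zv X' (cs (X - 1) Y)) = -x := by rw [hh1, hx]; ring
  rw [← hx] at hu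
  obtain ⟨k, hk⟩ : ∃ k : ℕ, k = ⌈x / φ 0⌉₊ := ⟨_, rfl⟩
  have hk1 : x ≤ (k : ℝ) * φ 0 := by
    have := Nat.le_ceil (x / φ 0)
    rw [← hk, div_le_iff₀ h0] at this
    exact this
  have hk2 : (k : ℝ) * φ 0 < x + φ 0 := by
    have := Nat.ceil_lt_add_one (div_pos hx0 h0).le
    rw [← hk] at this
    have h2 := mul_lt_mul_of_pos_right this h0
    have h3 : (x / φ 0 + 1) * φ 0 = x + φ 0 := by field_simp
    rw [h3] at h2
    exact h2
  have hk3 : 1 ≤ k := by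
    have : 0 < k := by rw [hk]; exact Nat.ceil_pos.2 (div_pos hx0 h0)
    omega
  have hk4 : k < a 0 := by
    have h1 : (k : ℝ) * φ 0 < (a 0 : ℝ) * φ 0 := by linarith
    have h2 := lt_of_mul_lt_mul_right h1 h0.le
    exact_mod_cast h2
  have e1 := h.up hm (zv X Y) k hk4
  have e2 := h.up hm (zv X Y) (k-1) (by omega)
  rw [zv_sub_one, hX2, zv_add] at e1 e2
  refine ⟨X' + k, ⟨?_, ?_⟩, fun l hl => Hl_of e1 ?_ hl⟩
  · rw [← zv_add, hh_add, hh2, hh_smul_ev]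
    push_cast
    linarith
  · rw [← zv_add, hh_add, hh2, hh_smul_ev]
    push_cast
    linarith
  · have h4 : X' + k - 1 = X' + ((k - 1 : ℕ) : ℤ) := by
      rw [Nat.cast_sub hk3]; push_cast; ring
    rw [h4]
    exact e2

theorem zero_mem_image {a : ℕ → ℕ} {τ : Fin (m+1) → List (Fin (m+1))}
    (h : HasDigits a τ) (j : Fin (m+1)) (hj : 1 ≤ a j) : (0 : Fin (m+1)) ∈ τ j := by
  have h1 := h 0 j
  rw [if_pos rfl] at h1
  unfold inc at h1
  rw [← List.count_pos_iff]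
  omega

theorem zero_mem_compList (l : List (Fin (m+1) → List (Fin (m+1))))
    (hl : ∀ τ ∈ l, (0 : Fin (m+1)) ∈ τ 0) : (0 : Fin (m+1)) ∈ compList l 0 := by
  induction l with
  | nil => simp [compList]
  | cons τ l ih =>
    have h1 := ih fun τ' h => hl τ' (List.mem_cons_of_mem _ h)
    simp only [compList, comp]
    exact List.mem_flatMap.2 ⟨0, h1, hl τ (List.mem_cons_self ..)⟩

/-- a constant window -/
theorem hl_const (l : List (Fin (m+1) → List (Fin (m+1))))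
    (hl : ∀ τ ∈ l, (0 : Fin (m+1)) ∈ τ 0) {φ : Fin (m+1) → ℝ} (X L : ℤ) (Y : ℕ → ℤ)
    (hS : St φ X Y) (hY : ∀ i, i ≤ m → Y i = L) (h0 : 0 < φ 0) : Hl l X Y := by
  have h1 : (zv X Y : Fin (m+1) → ℤ) = (X - L) • ev 0 := by
    have h2 := zv_add (m := m) L Y (X - L)
    rw [zv_eq_zero L Y hY, zero_add] at h2
    rw [h2]
    congr 1
    ring
  obtain ⟨hS1, hS2⟩ := hS
  rw [h1, hh_smul_ev] at hS1 hS2
  have h3 : X - L < 1 := by
    have h4 : ((X - L : ℤ) : ℝ) * φ 0 < 1 * φ 0 := by linarith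
    have h5 := lt_of_mul_lt_mul_right h4 h0.le
    exact_mod_cast h5
  have h4 : 0 ≤ X - L := by
    have h5 : (0 : ℝ) ≤ ((X - L : ℤ) : ℝ) := by
      by_contra hc
      push Not at hc
      have := mul_neg_of_neg_of_pos hc h0
      linarith
    exact_mod_cast h5
  have h5 : X - L = 0 := by omega
  left
  rw [h1, h5, zero_smul]
  exact rel_zero (zero_mem_compList l hl)

end Pool.Agent.W3helper16.PJ
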